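import Pool.Agent.Lib.P74a0dc.Basic

set_option autoImplicit false

/-!
The tail lemma: in every `k`-th root of `G`, vertices `t 0, …, t k` with
`N_G[t k] = {t 0, …, t k}` and strictly nested closed neighbourhoods form a pendant path.
-/

namespace Pool.Agent.Lib.P74a0dc

variable {V : Type} {G : SimpleGraph V}

namespace TailAux

theorem R_snoc {n : ℕ} {u v : V} (h : R G Set.univ (n + 1) u v) :
    ∃ y, R G Set.univ n u y ∧ M G y v := by
  induction n generalizing u with
  | zero =>
    obtain ⟨x, -, h1, h2⟩ := h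
    have h2 : x = v := h2
    exact ⟨u, rfl, h2 ▸ h1⟩
  | succ n ih =>
    obtain ⟨x, hx, h1, h2⟩ := h
    obtain ⟨y, h3, h4⟩ := ih h2
    exact ⟨y, ⟨x, hx, h1, h3⟩, h4⟩

/-- exact distance from `s` -/
def D (G : SimpleGraph V) (s v : V) (n : ℕ) : Prop :=
  R G Set.univ n s v ∧ ∀ m, m < n → ¬ R G Set.univ m s v

theorem D.unique {s v : V} {n m : ℕ} (h : D G s v n) (h' : D G s v m) : n = m := by
  rcases lt_trichotomy n m with h1 | h1 | h1
  · exact absurd h.1 (h'.2 n h1)
  · exact h1
  · exact absurd h'.1 (h.2 m h1)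

theorem D.le {s v : V} {n m : ℕ} (h : D G s v n) (h' : R G Set.univ m s v) : n ≤ m := by
  by_contra h1
  exact h.2 m (by omega) h'

theorem exists_D {s v : V} {n : ℕ} (h : R G Set.univ n s v) : ∃ m, m ≤ n ∧ D G s v m := by
  classical
  have hex : ∃ m, R G Set.univ m s v := ⟨n, h⟩
  exact ⟨Nat.find hex, Nat.find_min' hex h, Nat.find_spec hex, fun m hm => Nat.find_min hex hm⟩

theorem D.pred {s v : V} {n : ℕ} (h : D G s v (n + 1)) : ∃ y, D G s y n ∧ M G y v := by
  obtain ⟨y, h1, h2⟩ := R_snoc h.1
  refine ⟨y, ⟨h1, fun m hm h3 => ?_⟩, h2⟩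
  exact h.2 (m + 1) (by omega) (h3.snoc h2 (Set.mem_univ _))

theorem D.below {s v : V} (d : ℕ) : ∀ {n : ℕ}, D G s v (n + d) → ∃ y, D G s y n := by
  induction d generalizing v with
  | zero => exact fun h => ⟨v, h⟩
  | succ d ih =>
    intro n h
    obtain ⟨y, h1, -⟩ := D.pred (n := n + d) h
    exact ih h1

end TailAux

open TailAux

theorem tail {k : ℕ} (t : ℕ → V)
    (h1 : ∀ v, R G Set.univ k (t k) v ↔ ∃ a, a ≤ k ∧ v = t a)
    (h2 : ∀ a, a < k → ∀ v, R G Set.univ k (t (a + 1)) v → R G Set.univ k (t a) v)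
    (h3 : ∀ a, a < k → ∃ v, R G Set.univ k (t a) v ∧ ¬ R G Set.univ k (t (a + 1)) v) :
    (∀ v, (∀ a, 1 ≤ a → a ≤ k → v ≠ t a) → ∀ a n, a ≤ k →
      (R G Set.univ n (t a) v ↔ a ≤ n ∧ R G Set.univ (n - a) (t 0) v)) ∧
    ∀ a b n, a ≤ k → b ≤ k → (R G Set.univ n (t a) (t b) ↔ a ≤ b + n ∧ b ≤ a + n) := by
  classical
  -- nestedness
  have hnest : ∀ d a, a + d ≤ k → ∀ v, R G Set.univ k (t (a + d)) v → R G Set.univ k (t a) v := by
    intro d
    induction d with
    | zero => exact fun a _ v h => h
    | succ d ih =>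
      intro a ha v h
      exact ih a (by omega) v (h2 (a + d) (by omega) v h)
  -- all small distances occur
  have hall : ∀ n, n ≤ k → ∃ y, D G (t k) y n := by
    intro n hn
    rcases Nat.eq_zero_or_pos k with hk | hk
    · have : n = 0 := by omega
      subst this
      exact ⟨t k, rfl, fun m hm => by omega⟩
    · obtain ⟨x, hx1, hx2⟩ := h3 0 hk
      have hx3 : ¬ R G Set.univ k (t k) x := by
        intro h
        apply hx2
        refine hnest (k - 1) (0 + 1) (by omega) x ?_
        rwa [show 0 + 1 + (k - 1) = k by omega]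
      have h4 : R G Set.univ k (t k) (t 0) := (h1 _).2 ⟨0, by omega, rfl⟩
      obtain ⟨N, -, hN⟩ := exists_D (h4.trans hx1)
      have hkN : k < N := by
        by_contra h
        exact hx3 (hN.1.mono (Set.mem_univ _) (by omega))
      exact D.below (N - n) (v := x) (by rwa [show n + (N - n) = N by omega])
  -- every small distance occurs exactly once
  have hg : ∀ n : Fin (k + 1), ∃ a : Fin (k + 1), D G (t k) (t a) n := by
    intro n
    obtain ⟨y, hy⟩ := hall n (by omega)
    obtain ⟨a, ha, rfl⟩ := (h1 y).1 (hy.1.mono (Set.mem_univ _) (by omega))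
    exact ⟨⟨a, by omega⟩, hy⟩
  choose g hg using hg
  have hginj : Function.Injective g := by
    intro n m hnm
    have h4 := hg n
    rw [hnm] at h4
    exact Fin.ext (h4.unique (hg m))
  have hgsurj : Function.Surjective g := Finite.surjective_of_injective hginj
  have hδ : ∀ a, a ≤ k → ∃ n, n ≤ k ∧ D G (t k) (t a) n := by
    intro a ha
    obtain ⟨n, hn⟩ := hgsurj ⟨a, by omega⟩
    have h4 := hg n
    rw [hn] at h4
    exact ⟨n, by omega, h4⟩
  have huniq : ∀ v v' n, n ≤ k → D G (t k) v n → D G (t k) v' n → v = v' := by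
    have key : ∀ v n (hn : n ≤ k), D G (t k) v n → v = t (g ⟨n, by omega⟩) := by
      intro v n hn hv
      obtain ⟨a, ha, rfl⟩ := (h1 v).1 (hv.1.mono (Set.mem_univ _) hn)
      obtain ⟨m, hm⟩ := hgsurj ⟨a, by omega⟩
      have h4 := hg m
      rw [hm] at h4
      have h5 := h4.unique hv
      have h6 : m = ⟨n, by omega⟩ := Fin.ext h5
      rw [← h6, hm]
    intro v v' n hn hv hv'
    rw [key v n hn hv, key v' n hn hv']
  have hne : Nonempty V := ⟨t 0⟩
  choose! sv hsv using hall
  -- the path
  have hadj : ∀ n, n < k → M G (sv n) (sv (n + 1)) := by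
    intro n hn
    obtain ⟨y, hy, hyM⟩ := (hsv (n + 1) (by omega)).pred
    rw [huniq _ _ n (by omega) (hsv n (by omega)) hy]
    exact hyM
  have hpath : ∀ d n, n + d ≤ k → R G Set.univ d (sv n) (sv (n + d)) := by
    intro d
    induction d with
    | zero => exact fun n _ => rfl
    | succ d ih =>
      intro n hn
      exact (ih n (by omega)).snoc (hadj (n + d) (by omega)) (Set.mem_univ _)
  have hpath' : ∀ n m, n ≤ k → m ≤ k → ∀ e, n ≤ m + e → m ≤ n + e →
      R G Set.univ e (sv n) (sv m) := by
    intro n m hn hm e he he'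
    rcases le_total n m with h | h
    · have := hpath (m - n) n (by omega)
      rw [show n + (m - n) = m by omega] at this
      exact this.mono (Set.mem_univ _) (by omega)
    · have := hpath (n - m) m (by omega)
      rw [show m + (n - m) = n by omega] at this
      exact (this.symm (Set.mem_univ _)).mono (Set.mem_univ _) (by omega)
  have hnb : ∀ n, n < k → ∀ y, M G (sv n) y → ∃ m, m ≤ k ∧ m ≤ n + 1 ∧ n ≤ m + 1 ∧ y = sv m := by
    intro n hn y hy
    have h4 := (hsv n (by omega)).1.snoc hy (Set.mem_univ _)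
    obtain ⟨m, hm, hDm⟩ := exists_D h4
    have h5 := (hsv n (by omega)).le (hDm.1.snoc hy.symm (Set.mem_univ _))
    exact ⟨m, by omega, by omega, by omega, huniq _ _ m (by omega) hDm (hsv m (by omega))⟩
  -- outside the path
  have hout : ∀ v, (∀ m, m < k → ¬ D G (t k) v m) → ∀ m n, n ≤ k →
      (R G Set.univ m (sv n) v ↔ k - n ≤ m ∧ R G Set.univ (m - (k - n)) (sv k) v) := by
    intro v hv m n hn
    constructor
    · induction m generalizing n with
      | zero =>
        intro h
        have h : sv n = v := h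
        have hnk : n = k := by
          by_contra hne
          exact hv n (by omega) (h ▸ hsv n hn)
        subst hnk
        rw [Nat.sub_self]
        exact ⟨le_rfl, h⟩
      | succ m ih =>
        intro h
        by_cases hnk : n = k
        · subst hnk
          rw [Nat.sub_self]
          exact ⟨Nat.zero_le _, h⟩
        · obtain ⟨y, -, hy, h4⟩ := h
          obtain ⟨n', hn', h5, h6, rfl⟩ := hnb n (by omega) y hy
          obtain ⟨h7, h8⟩ := ih n' hn' h4
          exact ⟨by omega, h8.mono (Set.mem_univ _) (by omega)⟩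
    · rintro ⟨h4, h5⟩
      have h6 := (hpath' n k hn le_rfl (k - n) (by omega) (by omega)).trans h5
      rwa [show k - n + (m - (k - n)) = m by omega] at h6
  -- positions
  choose! δ hδ1 hδ2 using hδ
  have htsv : ∀ a, a ≤ k → t a = sv (δ a) := fun a ha =>
    huniq _ _ (δ a) (hδ1 a ha) (hδ2 a ha) (hsv _ (hδ1 a ha))
  have hdec : ∀ a, a < k → δ (a + 1) < δ a := by
    intro a ha
    by_contra hcon
    push Not at hcon
    obtain ⟨v, hv1, hv2⟩ := h3 a ha
    apply hv2
    have hl := hδ1 (a + 1) (by omega)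
    rw [htsv (a + 1) (by omega)]
    rw [htsv a (by omega)] at hv1
    by_cases hv : ∃ m, m < k ∧ D G (t k) v m
    · obtain ⟨m, hm, hD⟩ := hv
      rw [huniq _ _ m (by omega) hD (hsv m (by omega))]
      exact hpath' _ _ hl (by omega) k (by omega) (by omega)
    · push Not at hv
      have h4 := ((hout v hv k (δ a) (hδ1 a (by omega))).1 hv1).2
      refine (hout v hv k (δ (a + 1)) hl).2 ⟨by omega, h4.mono (Set.mem_univ _) (by omega)⟩
  have hδk : δ k = 0 := (hδ2 k le_rfl).unique ⟨rfl, fun m hm => by omega⟩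
  have hlow : ∀ d a, a + d = k → d ≤ δ a := by
    intro d
    induction d with
    | zero => exact fun a _ => Nat.zero_le _
    | succ d ih =>
      intro a ha
      have h4 := ih (a + 1) (by omega)
      have h5 := hdec a (by omega)
      omega
  have hup : ∀ a, a ≤ k → δ a + a ≤ k := by
    intro a
    induction a with
    | zero => exact fun h => hδ1 0 h
    | succ a ih =>
      intro ha
      have h4 := ih (by omega)
      have h5 := hdec a (by omega)
      omega
  have hδeq : ∀ a, a ≤ k → δ a = k - a := by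
    intro a ha
    have h4 := hlow (k - a) a (by omega)
    have h5 := hup a ha
    omega
  have ht : ∀ a, a ≤ k → t a = sv (k - a) := fun a ha => by rw [htsv a ha, hδeq a ha]
  refine ⟨?_, ?_⟩
  · intro v hv a n ha
    have hv' : ∀ m, m < k → ¬ D G (t k) v m := by
      intro m hm hD
      apply hv (k - m) (by omega) (by omega)
      rw [ht (k - m) (by omega), show k - (k - m) = m by omega]
      exact huniq _ _ m (by omega) hD (hsv m (by omega))
    have h4 := hout v hv' n (k - a) (by omega)
    rw [← ht a ha, show k - (k - a) = a by omega] at h4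
    rw [h4, ht 0 (by omega), Nat.sub_zero]
  · intro a b n ha hb
    have hDa := hsv (k - a) (by omega)
    have hDb := hsv (k - b) (by omega)
    rw [← ht a ha] at hDa
    rw [← ht b hb] at hDb
    constructor
    · intro h
      have h4 := hDb.le (hDa.1.trans h)
      have h5 := hDa.le (hDb.1.trans (h.symm (Set.mem_univ _)))
      omega
    · rintro ⟨h4, h5⟩
      rw [ht a ha, ht b hb]
      exact hpath' _ _ (by omega) (by omega) n (by omega) (by omega)

end Pool.Agent.Lib.P74a0dc
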