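import Pool.Agent.Lib.P74a0dc.Helly
import Pool.Agent.Lib.P74a0dc.Tail

set_option autoImplicit false

/-!
A strongly chordal root of `GK` gives a solution of the instance.

Proof. Write `k = q + 2`, `R n a b` for walks in `H` with at most `n` steps; `R k a b` iff `a = b`
or `GK`-adjacent.

(1) `tail` applies to `tau 0, …, tau k` and to `zeta 0, …, zeta k`. So for `v` not a `tau` the
relation `R j (tau 0) v` (`j ≤ k`) is read off from `M (tau (k - j)) v` in `GK`; the same for
`zeta`. With `u = tau 0`, `z = zeta 0`: `R 1 u z`, `R 1 u B`, `R 1 z B` for `B` big;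
`R j u (g x b s) ↔ s + 1 ≤ j`; `R j u (px x) ↔ k ≤ j`, not `R k z (px x)`;
`R j u (pw w) ↔ 2 ≤ j`, `R j z (pw w) ↔ 2 ≤ j`; `R n u (zeta a) ↔ a + 1 ≤ n`.

(2) For `p = px x` or `p = pw w` every `v ≠ p` with `R k p v` has `R (k - 1) u v`. The disks
`B_1(p)`, `B_{k-1}(v)` (`v ≠ p`, `R k p v`) meet pairwise, so `HasMax.helly` gives `c` with
`R 1 c p` and `R (k - 1) c v` for all these `v`. Hence `R (k - 1) c v ↔ R k p v` for all `v`.

(3) `p = px x`: `c` is one of `px x`, `u`, `g x b s`, big `B`. Not `px x` (`R (k - 1) c u` but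
`R j u (px x)` only for `j ≥ k`), not `u` and not big (`R (k - 1) c z` would follow but `z` is not
in `N_GK[px x]`), and for `c = g x b s`: `R (s + 2) u (px x)`, so `s = q`. So `c = g x (y x) q`.

(4) `p = pw w`: `zeta q` is in `N_GK[pw w]`, `zeta (q + 1)` is not. If `c` is not on the
`zeta`-tail then `R (k - 1) c (zeta q)`, `¬ R (k - 1) c (zeta (q + 1))` give `R 1 c z`, `c ≠ z`,
so `c` is big or `u`; the same argument with `tau` excludes `u`. If `c = zeta a`, `a ≥ 1`, then
`R 1 c (pw w)` is false; the same for `tau`. So `c` is a big vertex `B w`.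

(5) `inA (B w) x ↔ M_GK (px x) (B w) ↔ R (k - 1) (B w) (g x (y x) q) ↔ M_GK (pw w) (g x (y x) q)
↔ inS x (y x) w`. So for each `w` the set `{x | inS x (y x) w}` is `{x | val x < m}` for some
`m ≥ 1` or a singleton. For `w = inl i` the set is `{x | val x < nu i} ∪ {x | val x = nu i, y x}`;
it contains `d, d'`, so it is `{x | val x < m}`, hence `y` is constant on `val x = nu i`. For
`w = inr j` it is `{x | cl x = j, y x}`, which does not contain both `d` and `d'`: a singleton.
-/

namespace Pool.Agent.Lib.P74a0dc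

variable {P I J : Type}

namespace Back

/-- a code of the vertices by a finite type -/
def code (q : ℕ) : Vtx P I J q →
    (Fin (q + 3) ⊕ Fin (q + 3)) ⊕ ((I × Bool ⊕ P) ⊕ (P × Bool × Fin (q + 1))) ⊕ (P ⊕ (I ⊕ J))
  | .tau a => Sum.inl (Sum.inl a)
  | .zeta a => Sum.inl (Sum.inr a)
  | .big B => Sum.inr (Sum.inl (Sum.inl B))
  | .g x b s => Sum.inr (Sum.inl (Sum.inr (x, b, s)))
  | .px x => Sum.inr (Sum.inr (Sum.inl x))
  | .pw w => Sum.inr (Sum.inr (Sum.inr w))

theorem code_injective (q : ℕ) : Function.Injective (code (P := P) (I := I) (J := J) q) := by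
  intro u v h
  cases u <;> cases v <;> simp_all [code]

theorem finite_vtx [Finite P] [Finite I] [Finite J] (q : ℕ) : Finite (Vtx P I J q) :=
  Finite.of_injective _ (code_injective q)

/-- the closed adjacency of `GK` -/
theorem M_GK {N : Inst P I J} {q : ℕ} {u v : Vtx P I J q} :
    M (N.GK q) u v ↔ u = v ∨ N.E q u v ∨ N.E q v u := by
  constructor
  · rintro (h | h)
    · exact Or.inl h
    · exact Or.inr h.2
  · intro h
    by_cases huv : u = v
    · exact Or.inl huv
    · rcases h with h | h
      · exact Or.inl h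
      · exact Or.inr ⟨huv, h⟩

/-- the tail vertices, indexed by natural numbers -/
def ta (P I J : Type) (q a : ℕ) : Vtx P I J q := .tau (Fin.ofNat (q + 3) a)

/-- the tail vertices, indexed by natural numbers -/
def ze (P I J : Type) (q a : ℕ) : Vtx P I J q := .zeta (Fin.ofNat (q + 3) a)

theorem ofNat_val {q a : ℕ} (h : a ≤ q + 2) : (Fin.ofNat (q + 3) a).1 = a := by
  rw [Fin.val_ofNat]
  exact Nat.mod_eq_of_lt (by omega)

theorem tau_eq (q : ℕ) (a : Fin (q + 3)) : Vtx.tau a = ta P I J q a.1 := by
  unfold ta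
  congr 1
  apply Fin.ext
  rw [ofNat_val (by omega)]

theorem zeta_eq (q : ℕ) (a : Fin (q + 3)) : Vtx.zeta a = ze P I J q a.1 := by
  unfold ze
  congr 1
  apply Fin.ext
  rw [ofNat_val (by omega)]

section main

variable {N : Inst P I J} {q : ℕ} {H : SimpleGraph (Vtx P I J q)}
  (hp : gpow H (q + 2) = N.GK q)

include hp

theorem RK {u v : Vtx P I J q} :
    R H Set.univ (q + 2) u v ↔ u = v ∨ N.E q u v ∨ N.E q v u := by
  rw [← M_gpow, hp, M_GK]

theorem tail_ta : (∀ v, (∀ a, 1 ≤ a → a ≤ q + 2 → v ≠ ta P I J q a) → ∀ a n, a ≤ q + 2 →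
      (R H Set.univ n (ta P I J q a) v ↔ a ≤ n ∧ R H Set.univ (n - a) (ta P I J q 0) v)) ∧
    ∀ a b n, a ≤ q + 2 → b ≤ q + 2 →
      (R H Set.univ n (ta P I J q a) (ta P I J q b) ↔ a ≤ b + n ∧ b ≤ a + n) := by
  refine tail (G := H) (ta P I J q) ?_ ?_ ?_
  · intro v
    rw [RK hp]
    constructor
    · rcases v with a | a | B | ⟨x, b, s⟩ | x | w
      · intro _
        exact ⟨a.1, by omega, tau_eq q a⟩
      all_goals
        simp only [ta, Inst.E, ofNat_val (le_refl (q + 2))]
        intro h
        exfalso
        rcases h with h | h | h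
        · cases h
        · omega
        · exact h
    · rintro ⟨a, ha, rfl⟩
      exact Or.inr (Or.inl trivial)
  · intro a ha v
    rw [RK hp, RK hp]
    rcases v with b | b | B | ⟨x, b, s⟩ | x | w
    · intro _
      exact Or.inr (Or.inl trivial)
    all_goals
      simp only [ta, Inst.E, ofNat_val (show a + 1 ≤ q + 2 by omega),
        ofNat_val (show a ≤ q + 2 by omega)]
      intro h
      rcases h with h | h | h
      · cases h
      · refine Or.inr (Or.inl ?_)
        omega
      · exact h.elim
  · intro a ha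
    refine ⟨ze P I J q (q + 1 - a), ?_, ?_⟩
    · rw [RK hp]
      refine Or.inr (Or.inl ?_)
      simp only [ta, ze, Inst.E, ofNat_val (show a ≤ q + 2 by omega),
        ofNat_val (show q + 1 - a ≤ q + 2 by omega)]
      omega
    · rw [RK hp]
      simp only [ta, ze, Inst.E, ofNat_val (show a + 1 ≤ q + 2 by omega),
        ofNat_val (show q + 1 - a ≤ q + 2 by omega)]
      rintro (h | h | h)
      · cases h
      · omega
      · exact h

theorem tail_ze : (∀ v, (∀ a, 1 ≤ a → a ≤ q + 2 → v ≠ ze P I J q a) → ∀ a n, a ≤ q + 2 →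
      (R H Set.univ n (ze P I J q a) v ↔ a ≤ n ∧ R H Set.univ (n - a) (ze P I J q 0) v)) ∧
    ∀ a b n, a ≤ q + 2 → b ≤ q + 2 →
      (R H Set.univ n (ze P I J q a) (ze P I J q b) ↔ a ≤ b + n ∧ b ≤ a + n) := by
  refine tail (G := H) (ze P I J q) ?_ ?_ ?_
  · intro v
    rw [RK hp]
    constructor
    · rcases v with a | a | B | ⟨x, b, s⟩ | x | w
      · simp only [ze, Inst.E, ofNat_val (le_refl (q + 2))]
        intro h
        exfalso
        rcases h with h | h | h
        · cases h
        · exact h
        · omega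
      · intro _
        exact ⟨a.1, by omega, zeta_eq q a⟩
      all_goals
        simp only [ze, Inst.E, ofNat_val (le_refl (q + 2))]
        intro h
        exfalso
        rcases h with h | h | h
        · cases h
        · first | exact h | omega
        · exact h
    · rintro ⟨a, ha, rfl⟩
      exact Or.inr (Or.inl trivial)
  · intro a ha v
    rw [RK hp, RK hp]
    rcases v with b | b | B | ⟨x, b, s⟩ | x | w
    · simp only [ze, Inst.E, ofNat_val (show a + 1 ≤ q + 2 by omega),
        ofNat_val (show a ≤ q + 2 by omega)]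
      intro h
      rcases h with h | h | h
      · cases h
      · exact h.elim
      · refine Or.inr (Or.inr ?_)
        omega
    · intro _
      exact Or.inr (Or.inl trivial)
    all_goals
      simp only [ze, Inst.E, ofNat_val (show a + 1 ≤ q + 2 by omega),
        ofNat_val (show a ≤ q + 2 by omega)]
      intro h
      rcases h with h | h | h
      · cases h
      · refine Or.inr (Or.inl ?_)
        first | exact h | omega
      · exact h.elim
  · intro a ha
    refine ⟨ta P I J q (q + 1 - a), ?_, ?_⟩
    · rw [RK hp]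
      refine Or.inr (Or.inr ?_)
      simp only [ta, ze, Inst.E, ofNat_val (show a ≤ q + 2 by omega),
        ofNat_val (show q + 1 - a ≤ q + 2 by omega)]
      omega
    · rw [RK hp]
      simp only [ta, ze, Inst.E, ofNat_val (show a + 1 ≤ q + 2 by omega),
        ofNat_val (show q + 1 - a ≤ q + 2 by omega)]
      rintro (h | h | h)
      · cases h
      · exact h
      · omega

/-- distances from `tau 0` to the vertices outside the tail -/
theorem from_u (v : Vtx P I J q) (hv : ∀ a, v ≠ .tau a) (j : ℕ) (hj : j ≤ q + 2) :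
    R H Set.univ j (ta P I J q 0) v ↔ N.E q (ta P I J q (q + 2 - j)) v ∨
      N.E q v (ta P I J q (q + 2 - j)) := by
  have h1 := ((tail_ta hp).1 v (fun a _ _ => hv _) (q + 2 - j) (q + 2) (by omega))
  rw [RK hp, show q + 2 - (q + 2 - j) = j by omega] at h1
  constructor
  · intro h
    rcases h1.2 ⟨by omega, h⟩ with h2 | h2
    · exact absurd h2.symm (hv _)
    · exact h2
  · intro h
    exact (h1.1 (Or.inr h)).2

/-- distances from `zeta 0` to the vertices outside the tail -/
theorem from_z (v : Vtx P I J q) (hv : ∀ a, v ≠ .zeta a) (j : ℕ) (hj : j ≤ q + 2) :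
    R H Set.univ j (ze P I J q 0) v ↔ N.E q (ze P I J q (q + 2 - j)) v ∨
      N.E q v (ze P I J q (q + 2 - j)) := by
  have h1 := ((tail_ze hp).1 v (fun a _ _ => hv _) (q + 2 - j) (q + 2) (by omega))
  rw [RK hp, show q + 2 - (q + 2 - j) = j by omega] at h1
  constructor
  · intro h
    rcases h1.2 ⟨by omega, h⟩ with h2 | h2
    · exact absurd h2.symm (hv _)
    · exact h2
  · intro h
    exact (h1.1 (Or.inr h)).2

omit hp in
/-- the Helly vertex of a vertex `p` -/
theorem exists_c (hM : ∀ (ι : Type) [Nonempty ι] (v : ι → Vtx P I J q) (ρ : ι → ℕ),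
      (∀ i j, R H Set.univ (ρ i + ρ j) (v i) (v j)) → ∃ c, ∀ i, R H Set.univ (ρ i) c (v i))
    (p : Vtx P I J q)
    (hpu : ∀ v, v ≠ p → R H Set.univ (q + 2) p v → R H Set.univ (q + 1) (ta P I J q 0) v) :
    ∃ c, R H Set.univ 1 c p ∧
      ∀ v, R H Set.univ (q + 1) c v ↔ R H Set.univ (q + 2) p v := by
  classical
  let v : Option {v : Vtx P I J q // v ≠ p ∧ R H Set.univ (q + 2) p v} → Vtx P I J q :=
    fun o => o.elim p (fun v => v.1)
  let ρ : Option {v : Vtx P I J q // v ≠ p ∧ R H Set.univ (q + 2) p v} → ℕ :=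
    fun o => o.elim 1 (fun _ => q + 1)
  obtain ⟨c, hc⟩ := hM _ v ρ (by
    intro i j
    rcases i with _ | ⟨i, hi1, hi2⟩ <;> rcases j with _ | ⟨j, hj1, hj2⟩
    · exact R.refl (Set.mem_univ _)
    · change R H Set.univ (1 + (q + 1)) p j
      exact hj2.mono (Set.mem_univ _) (by omega)
    · change R H Set.univ (q + 1 + 1) i p
      exact (hi2.symm (Set.mem_univ _)).mono (Set.mem_univ _) (by omega)
    · change R H Set.univ (q + 1 + (q + 1)) i j
      exact ((hpu i hi1 hi2).symm (Set.mem_univ _)).trans (hpu j hj1 hj2))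
  have hc1 : R H Set.univ 1 c p := hc none
  refine ⟨c, hc1, fun w => ⟨fun h => ?_, fun h => ?_⟩⟩
  · have := (hc1.symm (Set.mem_univ _)).trans h
    exact this.mono (Set.mem_univ _) (by omega)
  · by_cases hw : w = p
    · subst hw
      exact hc1.mono (Set.mem_univ _) (by omega)
    · exact hc (some ⟨w, hw, h⟩)

theorem px_u (x : P) (v : Vtx P I J q) (hv : v ≠ .px x) (h : R H Set.univ (q + 2) (.px x) v) :
    R H Set.univ (q + 1) (ta P I J q 0) v := by
  rw [RK hp] at h
  rcases v with a | a | B | ⟨x', b, s⟩ | x' | w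
  · rw [tau_eq, (tail_ta hp).2 0 a.1 _ (by omega) (by omega)]
    simp only [Inst.E] at h
    rcases h with h | h | h
    · cases h
    · exact h.elim
    · omega
  · simp only [Inst.E] at h
    rcases h with h | h | h
    · cases h
    · exact h.elim
    · exact h.elim
  · rw [from_u hp _ (fun a h => by cases h) _ (by omega)]
    left
    simp only [ta, Inst.E, ofNat_val (show q + 2 - (q + 1) ≤ q + 2 by omega)]
    omega
  · rw [from_u hp _ (fun a h => by cases h) _ (by omega)]
    left
    simp only [ta, Inst.E, ofNat_val (show q + 2 - (q + 1) ≤ q + 2 by omega)]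
    omega
  · simp only [Inst.E] at h
    rcases h with h | h | h
    · exact absurd h.symm hv
    · exact h.elim
    · exact h.elim
  · simp only [Inst.E] at h
    rcases h with h | h | h
    · cases h
    · exact h.elim
    · exact h.elim

theorem pw_u (w : I ⊕ J) (v : Vtx P I J q) (hv : v ≠ .pw w)
    (h : R H Set.univ (q + 2) (.pw w) v) : R H Set.univ (q + 1) (ta P I J q 0) v := by
  rw [RK hp] at h
  rcases v with a | a | B | ⟨x', b, s⟩ | x' | w'
  · rw [tau_eq, (tail_ta hp).2 0 a.1 _ (by omega) (by omega)]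
    simp only [Inst.E] at h
    rcases h with h | h | h
    · cases h
    · exact h.elim
    · omega
  · rw [from_u hp _ (fun a h => by cases h) _ (by omega)]
    simp only [Inst.E] at h
    left
    simp only [ta, Inst.E, ofNat_val (show q + 2 - (q + 1) ≤ q + 2 by omega)]
    rcases h with h | h | h
    · cases h
    · exact h.elim
    · omega
  · rw [from_u hp _ (fun a h => by cases h) _ (by omega)]
    left
    simp only [ta, Inst.E, ofNat_val (show q + 2 - (q + 1) ≤ q + 2 by omega)]
    omega
  · rw [from_u hp _ (fun a h => by cases h) _ (by omega)]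
    left
    simp only [ta, Inst.E, ofNat_val (show q + 2 - (q + 1) ≤ q + 2 by omega)]
    omega
  · simp only [Inst.E] at h
    rcases h with h | h | h
    · cases h
    · exact h.elim
    · exact h.elim
  · rw [from_u hp _ (fun a h => by cases h) _ (by omega)]
    left
    simp only [Inst.E] at h
    simp only [ta, Inst.E, ofNat_val (show q + 2 - (q + 1) ≤ q + 2 by omega)]
    rcases h with h | h | h
    · exact absurd h.symm hv
    · omega
    · omega

/-- the centre of `px x` -/
theorem px_c (x : P) (c : Vtx P I J q) (hc1 : R H Set.univ 1 c (.px x))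
    (hc : ∀ v, R H Set.univ (q + 1) c v ↔ R H Set.univ (q + 2) (.px x) v) :
    ∃ b, c = .g x b (Fin.last q) := by
  have hup : ¬ R H Set.univ (q + 1) (ta P I J q 0) (.px x) := by
    rw [from_u hp _ (fun a h => by cases h) _ (by omega)]
    simp only [ta, Inst.E, ofNat_val (show q + 2 - (q + 1) ≤ q + 2 by omega)]
    rintro (h | h)
    · omega
    · exact h
  have hz : ¬ R H Set.univ (q + 2) (.px x) (ze P I J q 0) := by
    rw [RK hp]
    simp only [ze, Inst.E]
    rintro (h | h | h)
    · cases h
    · exact h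
    · exact h
  have hG : R H Set.univ (q + 2) c (.px x) := hc1.mono (Set.mem_univ _) (by omega)
  rw [RK hp] at hG
  rcases c with a | a | B | ⟨x', b, s⟩ | x' | w
  · exfalso
    simp only [Inst.E] at hG
    have ha : a.1 = 0 := by
      rcases hG with h | h | h
      · cases h
      · exact h
      · exact h.elim
    rw [tau_eq, ha] at hc
    apply hz
    rw [← hc, from_u hp _ (fun a h => by cases h) _ (by omega)]
    left
    simp only [ta, ze, Inst.E, ofNat_val (show q + 2 - (q + 1) ≤ q + 2 by omega),
      ofNat_val (show 0 ≤ q + 2 by omega)]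
    omega
  · exfalso
    simp only [Inst.E] at hG
    rcases hG with h | h | h
    · cases h
    · exact h
    · exact h
  · exfalso
    apply hz
    rw [← hc]
    refine R.symm ?_ (Set.mem_univ _)
    rw [from_z hp _ (fun a h => by cases h) _ (by omega)]
    left
    simp only [ze, Inst.E, ofNat_val (show q + 2 - (q + 1) ≤ q + 2 by omega)]
    omega
  · simp only [Inst.E] at hG
    have hx : x' = x := by
      rcases hG with h | h | h
      · cases h
      · exact h
      · exact h.elim
    subst hx
    refine ⟨b, ?_⟩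
    have hs : s.1 = q := by
      by_contra hs
      apply hup
      have h1 : R H Set.univ (s.1 + 1) (ta P I J q 0) (.g x' b s) := by
        rw [from_u hp _ (fun a h => by cases h) _ (by omega)]
        left
        simp only [ta, Inst.E, ofNat_val (show q + 2 - (s.1 + 1) ≤ q + 2 by omega)]
        omega
      exact (h1.trans hc1).mono (Set.mem_univ _) (by omega)
    congr 1
    exact Fin.ext hs
  · exfalso
    simp only [Inst.E] at hG
    have hx : x' = x := by
      rcases hG with h | h | h
      · cases h
        rfl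
      · exact h.elim
      · exact h.elim
    subst hx
    apply hup
    refine R.symm ?_ (Set.mem_univ _)
    rw [hc, RK hp]
    right
    right
    simp only [ta, Inst.E, ofNat_val (show 0 ≤ q + 2 by omega)]
  · exfalso
    simp only [Inst.E] at hG
    rcases hG with h | h | h
    · cases h
    · exact h
    · exact h

/-- the centre of `pw w` -/
theorem pw_c (w : I ⊕ J) (c : Vtx P I J q) (hc1 : R H Set.univ 1 c (.pw w))
    (hc : ∀ v, R H Set.univ (q + 1) c v ↔ R H Set.univ (q + 2) (.pw w) v) :
    ∃ B, c = .big B := by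
  by_cases hcz : ∃ a, 1 ≤ a ∧ a ≤ q + 2 ∧ c = ze P I J q a
  · exfalso
    obtain ⟨a, ha1, ha2, rfl⟩ := hcz
    rw [(tail_ze hp).1 _ (fun a _ _ h => by cases h) a 1 ha2] at hc1
    have ha : a = 1 := by omega
    subst ha
    have h2 := hc1.2
    simp only [Nat.sub_self] at h2
    have h3 : ze P I J q 0 = .pw w := h2
    cases h3
  · have hcz' : ∀ a, 1 ≤ a → a ≤ q + 2 → c ≠ ze P I J q a := by
      intro a ha1 ha2 h
      exact hcz ⟨a, ha1, ha2, h⟩
    have h1 : R H Set.univ (q + 1) (ze P I J q q) c := by
      refine R.symm ?_ (Set.mem_univ _)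
      rw [hc, RK hp]
      right
      right
      simp only [ze, Inst.E, ofNat_val (show q ≤ q + 2 by omega)]
      exact le_refl _
    rw [(tail_ze hp).1 c hcz' q (q + 1) (by omega), show q + 1 - q = 1 by omega] at h1
    have h2 : ¬ R H Set.univ (q + 1) (ze P I J q (q + 1)) c := by
      intro h
      have h := R.symm h (Set.mem_univ _)
      rw [hc, RK hp] at h
      simp only [ze, Inst.E, ofNat_val (show q + 1 ≤ q + 2 by omega)] at h
      rcases h with h | h | h
      · cases h
      · exact h
      · omega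
    rw [(tail_ze hp).1 c hcz' (q + 1) (q + 1) (by omega), Nat.sub_self] at h2
    have h3 : ze P I J q 0 ≠ c := fun h => h2 ⟨le_refl _, h⟩
    have h4 : ∀ a, c ≠ .zeta a := by
      intro a ha
      by_cases h0 : a.1 = 0
      · apply h3
        rw [ha, zeta_eq, h0]
      · exact hcz' a.1 (by omega) (by omega) (by rw [ha, zeta_eq])
    have h5 := h1.2
    rw [from_z hp _ h4 _ (by omega)] at h5
    rcases c with a | a | B | ⟨x', b, s⟩ | x' | w'
    · exfalso
      simp only [ze, Inst.E, ofNat_val (show q + 2 - 1 ≤ q + 2 by omega)] at h5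
      have ha : a.1 = 0 := by
        rcases h5 with h | h
        · exact h.elim
        · omega
      rw [tau_eq, ha] at hc
      have h6 : R H Set.univ (q + 1) (ta P I J q 0) (ta P I J q (q + 1)) := by
        rw [(tail_ta hp).2 0 (q + 1) _ (by omega) (by omega)]
        omega
      rw [hc, RK hp] at h6
      simp only [ta, Inst.E, ofNat_val (show q + 1 ≤ q + 2 by omega)] at h6
      rcases h6 with h | h | h
      · cases h
      · exact h
      · omega
    · exact absurd rfl (h4 a)
    · exact ⟨B, rfl⟩
    · exfalso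
      simp only [ze, Inst.E, ofNat_val (show q + 2 - 1 ≤ q + 2 by omega)] at h5
      rcases h5 with h | h
      · omega
      · exact h
    · exfalso
      simp only [ze, Inst.E] at h5
      rcases h5 with h | h
      · exact h
      · exact h
    · exfalso
      simp only [ze, Inst.E, ofNat_val (show q + 2 - 1 ≤ q + 2 by omega)] at h5
      rcases h5 with h | h
      · omega
      · exact h

end main

end Back

open Back in
theorem back [Finite P] [Finite I] [Finite J] (N : Inst P I J) (q : ℕ)
    (hnu : ∀ i, 1 ≤ N.nu i) (d d' : P) (hd : N.val d = 0) (hd' : N.val d' = 0)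
    (hcl : N.cl d ≠ N.cl d') (H : SimpleGraph (Vtx P I J q)) (hH : StronglyChordal H)
    (hp : gpow H (q + 2) = N.GK q) : N.Solvable := by
  have hfin : Finite (Vtx P I J q) := finite_vtx q
  have hM : ∀ (ι : Type) [Nonempty ι] (v : ι → Vtx P I J q) (ρ : ι → ℕ),
      (∀ i j, R H Set.univ (ρ i + ρ j) (v i) (v j)) → ∃ c, ∀ i, R H Set.univ (ρ i) c (v i) := by
    intro ι _ v ρ h
    exact hH.noZig.hasMax.helly v ρ h
  have hy : ∀ x : P, ∃ b, ∀ v, R H Set.univ (q + 1) (.g x b (Fin.last q)) v ↔
      R H Set.univ (q + 2) (.px x) v := by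
    intro x
    obtain ⟨c, hc1, hc⟩ := exists_c hM (.px x) (fun v hv h => px_u hp x v hv h)
    obtain ⟨b, rfl⟩ := px_c hp x c hc1 hc
    exact ⟨b, hc⟩
  choose y hy using hy
  have hB : ∀ w : I ⊕ J, ∃ B, ∀ v, R H Set.univ (q + 1) (.big B) v ↔
      R H Set.univ (q + 2) (.pw w) v := by
    intro w
    obtain ⟨c, hc1, hc⟩ := exists_c hM (.pw w) (fun v hv h => pw_u hp w v hv h)
    obtain ⟨B, rfl⟩ := pw_c hp w c hc1 hc
    exact ⟨B, hc⟩
  choose B hB using hB
  have key : ∀ w x, N.inA (B w) x ↔ N.inS x (y x) w := by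
    intro w x
    have h1 : R H Set.univ (q + 2) (.px x) (.big (B w)) ↔ N.inA (B w) x := by
      rw [RK hp]
      simp only [Inst.E]
      constructor
      · rintro (h | h | h)
        · cases h
        · exact h.elim
        · exact h
      · intro h
        exact Or.inr (Or.inr h)
    have h2 : R H Set.univ (q + 2) (.pw w) (.g x (y x) (Fin.last q)) ↔ N.inS x (y x) w := by
      rw [RK hp]
      simp only [Inst.E, Fin.val_last]
      constructor
      · rintro (h | h | h)
        · cases h
        · exact h.elim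
        · rcases h with h | h
          · omega
          · exact h
      · intro h
        exact Or.inr (Or.inr (Or.inr h))
    rw [← h1, ← h2, ← hy, ← hB]
    exact ⟨fun h => h.symm (Set.mem_univ _), fun h => h.symm (Set.mem_univ _)⟩
  have hlev : ∀ (c : Bool) (i : I) (x : P), N.val x = 0 → Inst.lev c (N.val x) (N.nu i) := by
    intro c i x hx
    have := hnu i
    unfold Inst.lev
    split_ifs <;> omega
  refine ⟨y, fun i => ?_, fun j => ?_⟩
  · have hk := key (Sum.inl i)
    rcases hBi : B (Sum.inl i) with ⟨i', c⟩ | x'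
    · rw [hBi] at hk
      simp only [Inst.inA, Inst.inS] at hk
      refine ⟨@decide (Inst.lev c (N.nu i) (N.nu i')) (Classical.dec _), fun x hx => ?_⟩
      have h1 := hk x
      rw [hx] at h1
      rw [Bool.eq_iff_iff, @decide_eq_true_iff _ (Classical.dec _), h1]
      unfold Inst.lev
      by_cases h : y x = true
      · simp [h]
      · simp [h]
    · exfalso
      rw [hBi] at hk
      have e1 : d = x' := (hk d).2 (hlev _ i d hd)
      have e2 : d' = x' := (hk d').2 (hlev _ i d' hd')
      exact hcl (by rw [e1, e2])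
  · have hk := key (Sum.inr j)
    rcases hBj : B (Sum.inr j) with ⟨i', c⟩ | x'
    · exfalso
      rw [hBj] at hk
      have e1 := ((hk d).1 (hlev c i' d hd)).2
      have e2 := ((hk d').1 (hlev c i' d' hd')).2
      exact hcl (by rw [e1, e2])
    · rw [hBj] at hk
      have e1 := (hk x').1 rfl
      refine ⟨x', ⟨e1.2, e1.1⟩, ?_⟩
      rintro x ⟨hx1, hx2⟩
      exact (hk x).2 ⟨hx2, hx1⟩

end Pool.Agent.Lib.P74a0dc
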