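import Pool.Agent.Lib.P74a0dc.Defs

set_option autoImplicit false

/-!
Elementary facts on the walk relation `R` and on powers.
-/

namespace Pool.Agent.Lib.P74a0dc

variable {V : Type} {G : SimpleGraph V} {S T : Set V}

theorem M.refl (u : V) : M G u u := Or.inl rfl

theorem M.symm {u v : V} (h : M G u v) : M G v u := by
  rcases h with h | h
  · exact Or.inl h.symm
  · exact Or.inr h.symm

theorem R.refl {n : ℕ} {u : V} (hu : u ∈ S) : R G S n u u := by
  induction n with
  | zero => rfl
  | succ n ih => exact ⟨u, hu, M.refl u, ih⟩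

theorem R.cons {n : ℕ} {u v w : V} (h : M G u v) (hv : v ∈ S) (h' : R G S n v w) :
    R G S (n + 1) u w := ⟨v, hv, h, h'⟩

theorem R.trans {n m : ℕ} {u v w : V} (h : R G S n u v) (h' : R G S m v w) :
    R G S (n + m) u w := by
  induction n generalizing u with
  | zero =>
    have h : u = v := h
    subst h
    simpa using h'
  | succ n ih =>
    obtain ⟨x, hx, h1, h2⟩ := h
    rw [Nat.succ_add]
    exact ⟨x, hx, h1, ih h2⟩

theorem R.mem {n : ℕ} {u v : V} (h : R G S n u v) (hu : u ∈ S) : v ∈ S := by
  induction n generalizing u with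
  | zero => exact (show u = v from h) ▸ hu
  | succ n ih =>
    obtain ⟨x, hx, _, h2⟩ := h
    exact ih h2 hx

theorem R.one {u v : V} (h : M G u v) (hv : v ∈ S) : R G S 1 u v := ⟨v, hv, h, rfl⟩

theorem R.snoc {n : ℕ} {u v w : V} (h : R G S n u v) (h' : M G v w) (hw : w ∈ S) :
    R G S (n + 1) u w := h.trans (R.one h' hw)

theorem R.symm {n : ℕ} {u v : V} (h : R G S n u v) (hu : u ∈ S) : R G S n v u := by
  induction n generalizing u with
  | zero => exact Eq.symm h
  | succ n ih =>
    obtain ⟨x, hx, h1, h2⟩ := h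
    exact (ih h2 hx).snoc h1.symm hu

theorem R.mono {n m : ℕ} {u v : V} (h : R G S n u v) (hu : u ∈ S) (hnm : n ≤ m) :
    R G S m u v := by
  obtain ⟨d, rfl⟩ := Nat.exists_eq_add_of_le hnm
  exact h.trans (R.refl (h.mem hu))

theorem R.mono_set {n : ℕ} {u v : V} (h : R G S n u v) (hST : S ⊆ T) : R G T n u v := by
  induction n generalizing u with
  | zero => exact h
  | succ n ih =>
    obtain ⟨x, hx, h1, h2⟩ := h
    exact ⟨x, hST hx, h1, ih h2⟩

theorem R.one_iff {u v : V} : R G Set.univ 1 u v ↔ M G u v := by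
  constructor
  · rintro ⟨w, -, h1, h2⟩
    have h2 : w = v := h2
    exact h2 ▸ h1
  · exact fun h => R.one h (Set.mem_univ _)

/-- A function that changes by at most one along edges changes by at most `n` along walks. -/
theorem R.lipschitz {n : ℕ} {u v : V} (f : V → ℤ) (hf : ∀ a b, G.Adj a b → f b ≤ f a + 1)
    (h : R G S n u v) : f v ≤ f u + n := by
  induction n generalizing u with
  | zero =>
    have h : u = v := h
    subst h
    simp
  | succ n ih =>
    obtain ⟨x, _, h1, h2⟩ := h
    have h3 := ih h2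
    rcases h1 with h1 | h1
    · subst h1
      push_cast
      omega
    · have := hf _ _ h1
      push_cast
      omega

theorem R.iff_walk {n : ℕ} {u v : V} :
    R G Set.univ n u v ↔ ∃ p : G.Walk u v, p.length ≤ n := by
  constructor
  · intro h
    induction n generalizing u with
    | zero =>
      have h : u = v := h
      subst h
      exact ⟨.nil, by simp⟩
    | succ n ih =>
      obtain ⟨x, _, h1, h2⟩ := h
      obtain ⟨p, hp⟩ := ih h2
      rcases h1 with h1 | h1
      · subst h1
        exact ⟨p, by omega⟩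
      · exact ⟨.cons h1 p, by simpa using hp⟩
  · rintro ⟨p, hp⟩
    refine R.mono ?_ (Set.mem_univ _) hp
    clear hp
    induction p with
    | nil => exact R.refl (Set.mem_univ _)
    | cons h p ih =>
      rw [SimpleGraph.Walk.length_cons]
      exact R.cons (Or.inr h) (Set.mem_univ _) ih

theorem R.iff_edist {n : ℕ} {u v : V} : R G Set.univ n u v ↔ G.edist u v ≤ n := by
  rw [R.iff_walk]
  constructor
  · rintro ⟨p, hp⟩
    exact (SimpleGraph.edist_le p).trans (by exact_mod_cast hp)
  · intro h
    have h1 : G.edist u v ≠ ⊤ := ne_top_of_le_ne_top (ENat.natCast_ne_top n) h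
    obtain ⟨p, hp⟩ := SimpleGraph.exists_walk_of_edist_ne_top h1
    refine ⟨p, ?_⟩
    rw [← hp] at h
    exact_mod_cast h

theorem gpow_adj {k : ℕ} {u v : V} : (gpow G k).Adj u v ↔ u ≠ v ∧ R G Set.univ k u v := by
  rw [R.iff_edist]
  rfl

theorem M_gpow {k : ℕ} {u v : V} : M (gpow G k) u v ↔ R G Set.univ k u v := by
  constructor
  · rintro (h | h)
    · subst h
      exact R.refl (Set.mem_univ _)
    · exact (gpow_adj.1 h).2
  · intro h
    by_cases h1 : u = v
    · exact Or.inl h1
    · exact Or.inr (gpow_adj.2 ⟨h1, h⟩)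

end Pool.Agent.Lib.P74a0dc
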