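import Pool.Agent.Lib.P74a0dc.Basic

set_option autoImplicit false

/-!
The instance of a graph: solvable iff the graph is 3-colourable.

For every ordered pair `(v, w)` and colour `c` there are four items: `A = 0` (variable of `(v, c)`),
`B = 1` (variable of `(w, c)` if `v w` is an edge, otherwise free), `S = 2` (free), these three in
the clause `c` of the pair; and `C = 3` (variable of `(v, c)`) in the clause `3` of the pair.
-/

namespace Pool.Agent.Lib.P74a0dc

/-- the instance of a graph -/
def ofG (n : ℕ) (F : ℕ → ℕ → Bool) : Inst ((Fin n × Fin n) × (Fin 4 × Fin 3))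
    ((Fin n × Fin n) × Fin 3) ((Fin n × Fin n) × Fin 4) where
  val x := if x.2.1 = 0 ∨ x.2.1 = 3 then 1 + (3 * x.1.1 + x.2.2) else
    if x.2.1 = 1 ∧ F x.1.1 x.1.2 = true then 1 + (3 * x.1.2 + x.2.2) else 0
  nu i := 1 + (3 * i.1.1 + i.2)
  cl x := if x.2.1 = 3 then (x.1, 3) else (x.1, x.2.2.castSucc)

theorem ofG_solvable {n : ℕ} (G : SimpleGraph (Fin n)) (F : ℕ → ℕ → Bool)
    (hF : ∀ a b : Fin n, F a b = true ↔ G.Adj a b) :
    (ofG n F).Solvable ↔ G.Colorable 3 := by
  classical
  constructor
  · rintro ⟨y, hy1, hy2⟩
    -- the colour of a vertex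
    have hcol : ∀ v : Fin n, ∃ c : Fin 3, y ((v, v), (3, c)) = true := by
      intro v
      obtain ⟨x, ⟨hx1, hx2⟩, -⟩ := hy2 ((v, v), 3)
      obtain ⟨⟨a, b⟩, k, c⟩ := x
      simp only [ofG] at hx1
      by_cases hk : k = 3
      · subst hk
        rw [if_pos rfl] at hx1
        have h1 := (Prod.mk.inj hx1).1
        rw [h1] at hx2
        exact ⟨c, hx2⟩
      · rw [if_neg hk] at hx1
        have h1 := (Prod.mk.inj hx1).2
        have h2 : c.1 = 3 := congrArg Fin.val h1
        have := c.2
        omega
    choose f hf using hcol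
    refine ⟨SimpleGraph.Coloring.mk f ?_⟩
    intro v w hvw hfe
    -- both items are true
    have hA : y ((v, w), (0, f v)) = true := by
      obtain ⟨b, hb⟩ := hy1 ((v, v), f v)
      have h1 := hb ((v, w), (0, f v)) (by simp [ofG])
      have h2 := hb ((v, v), (3, f v)) (by simp [ofG])
      rw [h1, ← h2]
      exact hf v
    have hB : y ((v, w), (1, f v)) = true := by
      obtain ⟨b, hb⟩ := hy1 ((w, w), f w)
      have hF' : F v w = true := (hF v w).2 hvw
      have h1 := hb ((v, w), (1, f w)) (by simp [ofG, hF'])
      have h2 := hb ((w, w), (3, f w)) (by simp [ofG])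
      rw [hfe, h1, ← h2]
      exact hf w
    obtain ⟨x, -, hx⟩ := hy2 ((v, w), (f v).castSucc)
    have h1 := hx ((v, w), (0, f v)) ⟨by simp [ofG], hA⟩
    have h2 := hx ((v, w), (1, f v)) ⟨by simp [ofG], hB⟩
    have h3 := h1.trans h2.symm
    simp at h3
  · rintro ⟨f⟩
    let A : (Fin n × Fin n) × Fin 3 → Bool := fun z => decide (f z.1.1 = z.2)
    let B : (Fin n × Fin n) × Fin 3 → Bool := fun z => F z.1.1 z.1.2 && decide (f z.1.2 = z.2)
    have hAB : ∀ z, ¬ (A z = true ∧ B z = true) := by
      rintro ⟨⟨v, w⟩, c⟩ ⟨h1, h2⟩
      simp only [A, B, Bool.and_eq_true, decide_eq_true_eq] at h1 h2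
      exact f.valid ((hF v w).1 h2.1) (h1.trans h2.2.symm)
    let y : (Fin n × Fin n) × (Fin 4 × Fin 3) → Bool := fun x =>
      if x.2.1 = 0 ∨ x.2.1 = 3 then A (x.1, x.2.2) else
        if x.2.1 = 1 then B (x.1, x.2.2) else !(A (x.1, x.2.2)) && !(B (x.1, x.2.2))
    refine ⟨y, ?_, ?_⟩
    · rintro ⟨⟨v, w⟩, c⟩
      refine ⟨decide (f v = c), ?_⟩
      rintro ⟨⟨a, b⟩, k, d⟩ hx
      simp only [ofG] at hx
      simp only [y, A, B]
      have hc := c.2
      have hd := d.2
      by_cases h1 : k = 0 ∨ k = 3
      · rw [if_pos h1] at hx ⊢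
        have h2 : a = v := Fin.ext (by omega)
        have h3 : d = c := Fin.ext (by omega)
        rw [h2, h3]
      · rw [if_neg h1] at hx ⊢
        by_cases h2 : k = 1 ∧ F a b = true
        · rw [if_pos h2] at hx
          rw [if_pos h2.1]
          have h3 : b = v := Fin.ext (by omega)
          have h4 : d = c := Fin.ext (by omega)
          rw [h2.2, Bool.true_and, h3, h4]
        · rw [if_neg h2] at hx
          omega
    · rintro ⟨⟨v, w⟩, j⟩
      by_cases hj : j = 3
      · -- the vertex clause
        subst hj
        refine ⟨((v, w), (3, f v)), ⟨by simp [ofG], by simp [y, A]⟩, ?_⟩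
        rintro ⟨⟨a, b⟩, k, d⟩ ⟨h1, h2⟩
        simp only [ofG] at h1
        by_cases hk : k = 3
        · subst hk
          rw [if_pos rfl] at h1
          have h3 := (Prod.mk.inj h1).1
          simp only [Prod.mk.injEq] at h3
          simp [y, A] at h2
          rw [h3.1] at h2
          rw [h3.1, h3.2, h2]
        · rw [if_neg hk] at h1
          have h3 := (Prod.mk.inj h1).2
          have h4 : d.1 = 3 := congrArg Fin.val h3
          have := d.2
          omega
      · -- an edge clause
        obtain ⟨c, rfl⟩ : ∃ c : Fin 3, c.castSucc = j := by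
          have h1 : j.1 ≠ 3 := fun h => hj (Fin.ext h)
          exact ⟨⟨j.1, by omega⟩, rfl⟩
        have huniq : ∀ k : Fin 4, k ≠ 3 → y ((v, w), (k, c)) = true →
            (∀ k' : Fin 4, k' ≠ 3 → y ((v, w), (k', c)) = true → k' = k) →
            ∃! x, (ofG n F).cl x = ((v, w), c.castSucc) ∧ y x = true := by
          intro k hk hyk hun
          refine ⟨((v, w), (k, c)), ⟨by simp [ofG, hk], hyk⟩, ?_⟩
          rintro ⟨⟨a, b⟩, k', d⟩ ⟨h1, h2⟩
          simp only [ofG] at h1
          by_cases hk' : k' = 3
          · subst hk'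
            rw [if_pos rfl] at h1
            have h3 := (Prod.mk.inj h1).2
            have h4 : (3 : ℕ) = c.1 := congrArg Fin.val h3
            have := c.2
            omega
          · rw [if_neg hk'] at h1
            simp only [Prod.mk.injEq, Fin.castSucc_inj] at h1
            obtain ⟨⟨h3, h4⟩, h5⟩ := h1
            subst h3 h4 h5
            rw [hun k' hk' h2]
        have e0 : y ((v, w), ((0 : Fin 4), c)) = A ((v, w), c) := by simp [y]
        have e1 : y ((v, w), ((1 : Fin 4), c)) = B ((v, w), c) := by simp [y]
        have e2 : y ((v, w), ((2 : Fin 4), c)) = (!(A ((v, w), c)) && !(B ((v, w), c))) := by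
          simp [y]
        have h4 : ∀ k : Fin 4, k ≠ 3 → k = 0 ∨ k = 1 ∨ k = 2 := by decide
        have hAB' := hAB ((v, w), c)
        cases hA : A ((v, w), c) with
        | true =>
          have hB : B ((v, w), c) = false := by
            cases hB : B ((v, w), c) with
            | true => exact absurd ⟨hA, hB⟩ hAB'
            | false => rfl
          refine huniq 0 (by decide) (e0.trans hA) ?_
          intro k' hk' hy'
          rcases h4 k' hk' with rfl | rfl | rfl
          · rfl
          · rw [e1, hB] at hy'
            exact absurd hy' (by decide)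
          · rw [e2, hA] at hy'
            exact absurd hy' (by simp)
        | false =>
          cases hB : B ((v, w), c) with
          | true =>
            refine huniq 1 (by decide) (e1.trans hB) ?_
            intro k' hk' hy'
            rcases h4 k' hk' with rfl | rfl | rfl
            · rw [e0, hA] at hy'
              exact absurd hy' (by decide)
            · rfl
            · rw [e2, hB] at hy'
              exact absurd hy' (by simp)
          | false =>
            refine huniq 2 (by decide) (by rw [e2, hA, hB]; rfl) ?_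
            intro k' hk' hy'
            rcases h4 k' hk' with rfl | rfl | rfl
            · rw [e0, hA] at hy'
              exact absurd hy' (by decide)
            · rw [e1, hB] at hy'
              exact absurd hy' (by decide)
            · rfl

end Pool.Agent.Lib.P74a0dc
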