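import Mathlib

set_option autoImplicit false

/-!
Strongly chordal graphs, powers, the instances, the graph `GK` and its roots.
-/

namespace Pool.Agent.Lib.P74a0dc

section general

variable {V : Type}

/-- A graph is chordal if every cycle of length at least `4` has a chord. A cycle of length `n` is
given by the injective cyclic enumeration `c` of its vertices; a chord joins two vertices of the
cycle that are not consecutive. -/
def Chordal (G : SimpleGraph V) : Prop :=
  ∀ n, 4 ≤ n → ∀ c : ZMod n → V, Function.Injective c → (∀ i, G.Adj (c i) (c (i + 1))) →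
    ∃ i j, j ≠ i + 1 ∧ i ≠ j + 1 ∧ G.Adj (c i) (c j)

/-- A graph is strongly chordal if it is chordal and every cycle of even length at least `6` has
an odd chord, that is a chord joining two vertices at odd distance along the cycle. -/
def StronglyChordal (G : SimpleGraph V) : Prop :=
  Chordal G ∧ ∀ n, 6 ≤ n → Even n → ∀ c : ZMod n → V, Function.Injective c →
    (∀ i, G.Adj (c i) (c (i + 1))) →
      ∃ i j, j ≠ i + 1 ∧ i ≠ j + 1 ∧ Odd (j - i).val ∧ G.Adj (c i) (c j)

/-- The `k`-th power: distinct vertices are adjacent iff their distance is at most `k`. -/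
def gpow (G : SimpleGraph V) (k : ℕ) : SimpleGraph V where
  Adj u v := u ≠ v ∧ G.edist u v ≤ k
  symm := by
    constructor
    rintro u v ⟨h1, h2⟩
    exact ⟨h1.symm, by rwa [SimpleGraph.edist_comm]⟩
  loopless := by
    constructor
    rintro u ⟨h1, -⟩
    exact h1 rfl

/-- closed adjacency -/
def M (G : SimpleGraph V) (u v : V) : Prop := u = v ∨ G.Adj u v

/-- walks with at most `n` steps inside `S` -/
def R (G : SimpleGraph V) (S : Set V) : ℕ → V → V → Prop
  | 0, u, v => u = v
  | n + 1, u, v => ∃ w ∈ S, M G u w ∧ R G S n w v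

end general

/-- An instance: items `P`, variables `I`, clauses `J`. Every item belongs to one clause `cl x`
and to the variables `i` with `nu i = val x`. -/
structure Inst (P I J : Type) where
  /-- the number of the variable of an item -/
  val : P → ℕ
  /-- the number of a variable -/
  nu : I → ℕ
  /-- the clause of an item -/
  cl : P → J

/-- Vertices of the graph `GK`; here `k = q + 2`. -/
inductive Vtx (P I J : Type) (q : ℕ) : Type
  | tau (a : Fin (q + 3)) : Vtx P I J q
  | zeta (a : Fin (q + 3)) : Vtx P I J q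
  | big (B : I × Bool ⊕ P) : Vtx P I J q
  | g (x : P) (b : Bool) (s : Fin (q + 1)) : Vtx P I J q
  | px (x : P) : Vtx P I J q
  | pw (w : I ⊕ J) : Vtx P I J q
  deriving DecidableEq

namespace Inst

variable {P I J : Type} (N : Inst P I J)

/-- There is an assignment that is constant on every variable and makes exactly one item of every
clause true. -/
def Solvable : Prop :=
  ∃ y : P → Bool, (∀ i, ∃ b, ∀ x, N.val x = N.nu i → y x = b) ∧
    ∀ j, ∃! x, N.cl x = j ∧ y x = true

/-- `≤` or `<` -/
def lev (b : Bool) (m n : ℕ) : Prop := if b = true then m ≤ n else m < n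

/-- the set of items belonging to a big vertex -/
def inA : I × Bool ⊕ P → P → Prop
  | Sum.inl (i, c), x => lev c (N.val x) (N.nu i)
  | Sum.inr x', x => x = x'

/-- the rows met by `g x b` -/
def inS (x : P) (b : Bool) : I ⊕ J → Prop
  | Sum.inl i => lev b (N.val x) (N.nu i)
  | Sum.inr j => b = true ∧ N.cl x = j

variable (q : ℕ)

/-- the adjacencies of the graph `GK`, in one direction -/
def E : Vtx P I J q → Vtx P I J q → Prop
  | .tau _, .tau _ => True
  | .tau a, .zeta b => a.1 + b.1 ≤ q + 1
  | .tau a, .big _ => a.1 ≤ q + 1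
  | .tau a, .g _ _ s => a.1 + s.1 ≤ q + 1
  | .tau a, .px _ => a.1 = 0
  | .tau a, .pw _ => a.1 ≤ q
  | .zeta _, .zeta _ => True
  | .zeta a, .big _ => a.1 ≤ q + 1
  | .zeta a, .g _ _ s => a.1 + s.1 ≤ q
  | .zeta a, .pw _ => a.1 ≤ q
  | .big _, .big _ => True
  | .big _, .g _ _ _ => True
  | .big B, .px x => N.inA B x
  | .big _, .pw _ => True
  | .g x _ s, .g x' _ s' => x = x' ∨ s.1 + s'.1 ≤ q
  | .g x _ _, .px x' => x = x'
  | .g x b s, .pw w => s.1 < q ∨ N.inS x b w
  | .pw _, .pw _ => 1 ≤ q
  | _, _ => False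

/-- the graph whose `(q + 2)`-nd strongly chordal roots are the solutions -/
def GK : SimpleGraph (Vtx P I J q) where
  Adj u v := u ≠ v ∧ (N.E q u v ∨ N.E q v u)
  symm := by
    constructor
    rintro u v ⟨h1, h2⟩
    exact ⟨h1.symm, h2.symm⟩
  loopless := by
    constructor
    rintro u ⟨h1, -⟩
    exact h1 rfl

end Inst

/-- a solution, with the names needed for the root -/
structure Sol {P I J : Type} (N : Inst P I J) where
  /-- the truth value of an item -/
  y : P → Bool
  /-- the truth value of a variable -/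
  Y : I → Bool
  /-- the true item of a clause -/
  sel : J → P
  hy : ∀ i x, N.val x = N.nu i → y x = Y i
  cl_sel : ∀ j, N.cl (sel j) = j
  y_sel : ∀ j, y (sel j) = true
  uniq : ∀ x, y x = true → x = sel (N.cl x)

namespace Sol

variable {P I J : Type} {N : Inst P I J} (σ : Sol N) (q : ℕ)

/-- the big vertex next to `pw w` -/
def cen : I ⊕ J → I × Bool ⊕ P
  | Sum.inl i => Sum.inl (i, σ.Y i)
  | Sum.inr j => Sum.inr (σ.sel j)

/-- adjacency of big vertices and the bottom vertices of the ladders -/
def nb : I × Bool ⊕ P → P → Bool → Prop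
  | Sum.inl (i, c), x, b => (c = σ.Y i ∧ Inst.lev b (N.val x) (N.nu i)) ∨
      (c ≠ σ.Y i ∧ Inst.lev c (N.val x) (N.nu i) ∧ (b = true ∨ σ.y x = false))
  | Sum.inr x', x, b => (x' = σ.sel (N.cl x') ∧ b = true ∧ N.cl x = N.cl x') ∨
      (x' ≠ σ.sel (N.cl x') ∧ x = x' ∧ (b = true ∨ σ.y x = false))

/-- the edges of the root, in one direction -/
def EH : Vtx P I J q → Vtx P I J q → Prop
  | .tau a, .tau b => b.1 = a.1 + 1
  | .tau a, .zeta b => a.1 = 0 ∧ b.1 = 0
  | .tau a, .big _ => a.1 = 0
  | .tau a, .g _ _ s => a.1 = 0 ∧ s.1 = 0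
  | .zeta a, .zeta b => b.1 = a.1 + 1
  | .zeta a, .big _ => a.1 = 0
  | .big _, .big _ => True
  | .big B, .g x b s => s.1 = 0 ∧ σ.nb B x b
  | .big B, .pw w => B = σ.cen w
  | .g x b s, .g x' b' s' => x = x' ∧ ((b = b' ∧ s'.1 = s.1 + 1) ∨
      (b = false ∧ b' = true ∧ (s'.1 = s.1 ∨ s'.1 = s.1 + 1)))
  | .g x b s, .px x' => x = x' ∧ b = σ.y x ∧ s.1 = q
  | _, _ => False

/-- the root belonging to a solution -/
def root : SimpleGraph (Vtx P I J q) where
  Adj u v := u ≠ v ∧ (σ.EH q u v ∨ σ.EH q v u)
  symm := by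
    constructor
    rintro u v ⟨h1, h2⟩
    exact ⟨h1.symm, h2.symm⟩
  loopless := by
    constructor
    rintro u ⟨h1, -⟩
    exact h1 rfl

end Sol

end Pool.Agent.Lib.P74a0dc
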