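import Pool.Agent.Lib.P74a0dc.Basic

set_option autoImplicit false

/-!
The `k`-th power (`k = q + 2`) of the root of a solution is `GK`.

Proof. Let `u = tau 0`, `z = zeta 0`. First `inA (cen w) x ↔ inS x (y x) w`. Also
`nb B x false → nb B x true`.

Upper bounds (walks of length at most `k` for `GK`-adjacent vertices): `tau a` to `tau b`:
`|a - b|`; `tau a` to `zeta b`: `a + b + 1`; to `big B`: `a + 1`; to `g x b s`: `a + s + 1`;
`zeta a` to `g x b s`: `a + s + 2`; `big B` to `g x b s`: `s + 2`, and `s + 1` if `nb B x b`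
(the ladder path `g x b s, …, g x b 0`); `g x b s` to `g x b' s'`: at most `q + 1`;
`g x b s` to `g x' b' s'`: `s + s' + 2`; `px x` is adjacent to `g x (y x) q`; `pw w` is adjacent
to `big (cen w)`; `pw w` to `g x b s`: `s + 3`, and `s + 2` if `nb (cen w) x b`, i.e.
`inS x b w`; `px x` to `big B` with `inA B x`: `q + 2` since then `nb B x (y x)` [for `B` unused
clear, for `B = cen w` by the first remark].

Lower bounds for non-adjacent pairs, by integer potentials changing by at most one along every
edge (`R.lipschitz`):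
F_tau: `tau a ↦ -a`, `z`, big `↦ 1`, `zeta a ↦ 1 + a`, `g x b s ↦ s + 1`, `px ↦ q + 2`, `pw ↦ 2`;
F_zeta: `zeta a ↦ -a`, `tau a ↦ 1 + a`, big `↦ 1`, `g x b s ↦ s + 2`, `px ↦ q + 3`, `pw ↦ 2`;
F_x (for `px x`): `px x ↦ 0`, `g x b s ↦ q + 1 - s` (plus `1` if `b = true` and `y x = false`),
`u ↦ q + 2`, `big B ↦ q + 2` if `nb B x (y x)`, everything else `↦ q + 3`;
F_w (for `pw w`): `pw w ↦ 0`, `big (cen w) ↦ 1`, other big, `u`, `z ↦ 2`, `g x b s ↦ s + 2` if
`inS x b w`, else `s + 3`; other `pw ↦ 3`; `px ↦ q + 3`, `tau a`, `zeta a ↦ a + 2`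
[`cen` is injective];
G_x (for `g x _ _`): `g x b s ↦ -(s + 1)`, `g x' b s ↦ s + 1`, `px x ↦ -(q + 1)`,
`px x' ↦ q + 1`, everything else `↦ 0`.
-/

namespace Pool.Agent.Lib.P74a0dc

variable {P I J : Type} {N : Inst P I J}

namespace Dist

theorem lev_mono {m n : ℕ} (h : Inst.lev false m n) : Inst.lev true m n := by
  simp only [Inst.lev] at *
  simp at *
  omega

theorem nb_mono (σ : Sol N) {B : I × Bool ⊕ P} {x : P} (h : σ.nb B x false) : σ.nb B x true := by
  rcases B with ⟨i, c⟩ | x'
  · rcases h with ⟨h1, h2⟩ | ⟨h1, h2, _⟩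
    · exact Or.inl ⟨h1, lev_mono h2⟩
    · exact Or.inr ⟨h1, h2, Or.inl rfl⟩
  · rcases h with ⟨h1, h2, h3⟩ | ⟨h1, h2, _⟩
    · cases h2
    · exact Or.inr ⟨h1, h2, Or.inl rfl⟩

theorem inS_mono {x : P} {w : I ⊕ J} (h : N.inS x false w) : N.inS x true w := by
  rcases w with i | j
  · exact lev_mono h
  · exact absurd h.1 (by simp)

theorem nb_cen (σ : Sol N) (w : I ⊕ J) (x : P) (b : Bool) :
    σ.nb (σ.cen w) x b ↔ N.inS x b w := by
  rcases w with i | j
  · simp only [Sol.cen, Sol.nb, Inst.inS]
    tauto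
  · simp only [Sol.cen, Sol.nb, Inst.inS, σ.cl_sel]
    tauto

theorem nb_y (σ : Sol N) (B : I × Bool ⊕ P) (x : P) :
    σ.nb B x (σ.y x) ↔ N.inA B x := by
  rcases B with ⟨i, c⟩ | x'
  · simp only [Sol.nb, Inst.inA]
    by_cases hc : c = σ.Y i
    · subst hc
      have : Inst.lev (σ.y x) (N.val x) (N.nu i) ↔ Inst.lev (σ.Y i) (N.val x) (N.nu i) := by
        by_cases hv : N.val x = N.nu i
        · rw [σ.hy i x hv]
        · unfold Inst.lev
          split_ifs <;> omega
      tauto
    · have : σ.y x = true ∨ σ.y x = false := by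
        cases σ.y x <;> simp
      tauto
  · simp only [Sol.nb, Inst.inA]
    by_cases hx : x' = σ.sel (N.cl x')
    · constructor
      · rintro (⟨h1, h2, h3⟩ | ⟨h1, h2⟩)
        · rw [σ.uniq x h2, h3]
          exact hx.symm
        · exact absurd hx h1
      · rintro rfl
        refine Or.inl ⟨hx, ?_, rfl⟩
        rw [hx]
        exact σ.y_sel _
    · have : σ.y x = true ∨ σ.y x = false := by
        cases σ.y x <;> simp
      tauto

theorem cen_inj (σ : Sol N) {w w' : I ⊕ J} (h : σ.cen w = σ.cen w') : w = w' := by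
  rcases w with i | j <;> rcases w' with i' | j'
  · simp only [Sol.cen, Sum.inl.injEq, Prod.mk.injEq] at h
    rw [h.1]
  · simp [Sol.cen] at h
  · simp [Sol.cen] at h
  · simp only [Sol.cen, Sum.inr.injEq] at h
    have := congrArg N.cl h
    rw [σ.cl_sel, σ.cl_sel] at this
    rw [this]

variable {q : ℕ}

theorem M_of {σ : Sol N} {u v : Vtx P I J q} (h : σ.EH q u v) : M (σ.root q) u v := by
  by_cases huv : u = v
  · exact Or.inl huv
  · exact Or.inr ⟨huv, Or.inl h⟩

theorem one_of {σ : Sol N} {u v : Vtx P I J q} (h : σ.EH q u v) :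
    R (σ.root q) Set.univ 1 u v := R.one (M_of h) (Set.mem_univ _)

theorem one_of' {σ : Sol N} {u v : Vtx P I J q} (h : σ.EH q v u) :
    R (σ.root q) Set.univ 1 u v := R.one (M_of h).symm (Set.mem_univ _)

/-- lower bounds by potentials -/
theorem pot {σ : Sol N} {u v : Vtx P I J q} (f : Vtx P I J q → ℤ)
    (hf : ∀ a b, σ.EH q a b → f b ≤ f a + 1 ∧ f a ≤ f b + 1)
    (h : R (σ.root q) Set.univ (q + 2) u v) : f v ≤ f u + (q + 2) := by
  have := R.lipschitz f (fun a b hab => by
    rcases hab.2 with h | h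
    · exact (hf a b h).1
    · exact (hf b a h).2) h
  push_cast at this
  linarith

/-- the potential of `tau` -/
def Ft : Vtx P I J q → ℤ
  | .tau a => - (a.1 : ℤ)
  | .zeta a => 1 + a.1
  | .big _ => 1
  | .g _ _ s => s.1 + 1
  | .px _ => q + 2
  | .pw _ => 2

/-- the potential of `zeta` -/
def Fz : Vtx P I J q → ℤ
  | .tau a => 1 + a.1
  | .zeta a => - (a.1 : ℤ)
  | .big _ => 1
  | .g _ _ s => s.1 + 2
  | .px _ => q + 3
  | .pw _ => 2

open Classical in
/-- the potential of `px x` -/
noncomputable def Fx (σ : Sol N) (x : P) : Vtx P I J q → ℤ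
  | .tau a => if a.1 = 0 then q + 2 else q + 3
  | .zeta _ => q + 3
  | .big B => if σ.nb B x (σ.y x) then q + 2 else q + 3
  | .g x' b s => if x' = x then (if b = true ∧ σ.y x = false then q + 2 - s.1 else q + 1 - s.1)
      else q + 3
  | .px x' => if x' = x then 0 else q + 3
  | .pw _ => q + 3

open Classical in
/-- the potential of `pw w` -/
noncomputable def Fw (σ : Sol N) (w : I ⊕ J) : Vtx P I J q → ℤ
  | .tau a => a.1 + 2
  | .zeta a => a.1 + 2
  | .big B => if B = σ.cen w then 1 else 2
  | .g x' b s => if N.inS x' b w then s.1 + 2 else s.1 + 3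
  | .px _ => q + 3
  | .pw w' => if w' = w then 0 else 3

open Classical in
/-- the potential of `g x` -/
noncomputable def Fg (x : P) : Vtx P I J q → ℤ
  | .tau _ => 0
  | .zeta _ => 0
  | .big _ => 0
  | .g x' _ s => if x' = x then - (s.1 + 1) else s.1 + 1
  | .px x' => if x' = x then - (q + 1) else q + 1
  | .pw _ => 0

theorem Ft_lip (σ : Sol N) (a b : Vtx P I J q) (h : σ.EH q a b) :
    Ft b ≤ Ft a + 1 ∧ Ft a ≤ Ft b + 1 := by
  rcases a with a | a | B | ⟨x, b', s⟩ | x | w <;> rcases b with a' | a' | B' | ⟨x', b'', s'⟩ | x' | w' <;>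
    simp only [Sol.EH] at h <;> first | exact h.elim | (simp only [Ft]; omega)

theorem Fz_lip (σ : Sol N) (a b : Vtx P I J q) (h : σ.EH q a b) :
    Fz b ≤ Fz a + 1 ∧ Fz a ≤ Fz b + 1 := by
  rcases a with a | a | B | ⟨x, b', s⟩ | x | w <;> rcases b with a' | a' | B' | ⟨x', b'', s'⟩ | x' | w' <;>
    simp only [Sol.EH] at h <;> first | exact h.elim | (simp only [Fz]; omega)

theorem Fg_lip (σ : Sol N) (y : P) (a b : Vtx P I J q) (h : σ.EH q a b) :
    Fg y b ≤ Fg y a + 1 ∧ Fg y a ≤ Fg y b + 1 := by
  rcases a with a | a | B | ⟨x, b', s⟩ | x | w <;> rcases b with a' | a' | B' | ⟨x', b'', s'⟩ | x' | w' <;>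
    simp only [Sol.EH] at h
  all_goals
    simp only [Fg]
    first
      | omega
      | (obtain ⟨h0, h⟩ := h; subst h0; split_ifs <;> omega)

theorem Fx_lip (σ : Sol N) (y : P) (a b : Vtx P I J q) (h : σ.EH q a b) :
    Fx σ y b ≤ Fx σ y a + 1 ∧ Fx σ y a ≤ Fx σ y b + 1 := by
  rcases a with a | a | B | ⟨x, b', s⟩ | x | w
  · rcases b with a' | a' | B' | ⟨x', b'', s'⟩ | x' | w' <;>
      simp only [Sol.EH] at h
    · simp only [Fx]
      split_ifs <;> omega
    · simp only [Fx]
      split_ifs <;> omega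
    · simp only [Fx]
      split_ifs <;> omega
    · simp only [Fx]
      split_ifs <;> omega
  · rcases b with a' | a' | B' | ⟨x', b'', s'⟩ | x' | w' <;>
      simp only [Sol.EH] at h
    · simp only [Fx]
      omega
    · simp only [Fx]
      split_ifs <;> omega
  · rcases b with a' | a' | B' | ⟨x', b'', s'⟩ | x' | w' <;>
      simp only [Sol.EH] at h
    · simp only [Fx]
      split_ifs <;> omega
    · simp only [Fx]
      obtain ⟨h0, h⟩ := h
      by_cases hx : x' = y
      · subst hx
        rw [if_pos rfl]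
        by_cases hB : σ.nb B x' (σ.y x')
        · rw [if_pos hB]
          split_ifs <;> omega
        · rw [if_neg hB]
          have h1 : b'' = true ∧ σ.y x' = false := by
            cases b''
            · cases hy : σ.y x'
              · rw [hy] at hB
                exact absurd h hB
              · rw [hy] at hB
                exact absurd (nb_mono σ h) hB
            · cases hy : σ.y x'
              · exact ⟨rfl, rfl⟩
              · rw [hy] at hB
                exact absurd h hB
          rw [if_pos h1]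
          omega
      · rw [if_neg hx]
        split_ifs <;> omega
    · simp only [Fx]
      split_ifs <;> omega
  · rcases b with a' | a' | B' | ⟨x', b'', s'⟩ | x' | w' <;>
      simp only [Sol.EH] at h
    · simp only [Fx]
      obtain ⟨h0, h⟩ := h
      subst h0
      by_cases hx : x = y
      · rw [if_pos hx, if_pos hx]
        rcases h with ⟨h1, h2⟩ | ⟨h1, h2, h3⟩
        · subst h1
          split_ifs <;> omega
        · subst h1
          subst h2
          cases hy : σ.y y <;> simp <;> omega
      · rw [if_neg hx, if_neg hx]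
        omega
    · simp only [Fx]
      obtain ⟨h0, h1, h2⟩ := h
      subst h0
      by_cases hx : x = y
      · subst hx
        rw [if_pos rfl, if_pos rfl, if_neg]
        · omega
        · rintro ⟨h3, h4⟩
          rw [h3, h4] at h1
          cases h1
      · rw [if_neg hx, if_neg hx]
        omega
  · rcases b with a' | a' | B' | ⟨x', b'', s'⟩ | x' | w' <;>
      simp only [Sol.EH] at h
  · rcases b with a' | a' | B' | ⟨x', b'', s'⟩ | x' | w' <;>
      simp only [Sol.EH] at h

theorem Fw_lip (σ : Sol N) (w₀ : I ⊕ J) (a b : Vtx P I J q) (h : σ.EH q a b) :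
    Fw σ w₀ b ≤ Fw σ w₀ a + 1 ∧ Fw σ w₀ a ≤ Fw σ w₀ b + 1 := by
  rcases a with a | a | B | ⟨x, b', s⟩ | x | w
  · rcases b with a' | a' | B' | ⟨x', b'', s'⟩ | x' | w' <;>
      simp only [Sol.EH] at h
    · simp only [Fw]
      omega
    · simp only [Fw]
      omega
    · simp only [Fw]
      split_ifs <;> omega
    · simp only [Fw]
      split_ifs <;> omega
  · rcases b with a' | a' | B' | ⟨x', b'', s'⟩ | x' | w' <;>
      simp only [Sol.EH] at h
    · simp only [Fw]
      omega
    · simp only [Fw]
      split_ifs <;> omega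
  · rcases b with a' | a' | B' | ⟨x', b'', s'⟩ | x' | w' <;>
      simp only [Sol.EH] at h
    · simp only [Fw]
      split_ifs <;> omega
    · simp only [Fw]
      obtain ⟨h0, h⟩ := h
      by_cases hB : B = σ.cen w₀
      · rw [if_pos hB]
        rw [hB, nb_cen] at h
        rw [if_pos h]
        omega
      · rw [if_neg hB]
        split_ifs <;> omega
    · simp only [Fw]
      subst h
      by_cases hw : w' = w₀
      · subst hw
        simp
      · rw [if_neg hw, if_neg (fun h => hw (cen_inj σ h))]
        omega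
  · rcases b with a' | a' | B' | ⟨x', b'', s'⟩ | x' | w' <;>
      simp only [Sol.EH] at h
    · simp only [Fw]
      obtain ⟨h0, h⟩ := h
      subst h0
      rcases h with ⟨h1, h2⟩ | ⟨h1, h2, h3⟩
      · subst h1
        split_ifs <;> omega
      · subst h1
        subst h2
        by_cases h4 : N.inS x false w₀
        · rw [if_pos h4, if_pos (inS_mono h4)]
          omega
        · rw [if_neg h4]
          split_ifs <;> omega
    · simp only [Fw]
      split_ifs <;> omega
  · rcases b with a' | a' | B' | ⟨x', b'', s'⟩ | x' | w' <;>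
      simp only [Sol.EH] at h
  · rcases b with a' | a' | B' | ⟨x', b'', s'⟩ | x' | w' <;>
      simp only [Sol.EH] at h

/-- the lower bounds, from the vertices with a potential -/
theorem low (σ : Sol N) {u v : Vtx P I J q} (h : R (σ.root q) Set.univ (q + 2) u v) :
    u = v ∨ N.E q u v ∨ N.E q v u := by
  have h' := h.symm (Set.mem_univ _)
  rcases u with a | a | B | ⟨x, b, s⟩ | x | w
  · have h1 := pot Ft (Ft_lip σ) h
    rcases v with a' | a' | B' | ⟨x', b', s'⟩ | x' | w' <;> simp only [Ft, Inst.E] at h1 ⊢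
    · tauto
    all_goals
      refine Or.inr (Or.inl ?_)
      omega
  · have h1 := pot Fz (Fz_lip σ) h
    rcases v with a' | a' | B' | ⟨x', b', s'⟩ | x' | w' <;> simp only [Fz, Inst.E] at h1 ⊢
    · refine Or.inr (Or.inr ?_)
      omega
    · tauto
    · refine Or.inr (Or.inl ?_)
      omega
    · refine Or.inr (Or.inl ?_)
      omega
    · exfalso
      omega
    · refine Or.inr (Or.inl ?_)
      omega
  · rcases v with a' | a' | B' | ⟨x', b', s'⟩ | x' | w'
    · have h1 := pot Ft (Ft_lip σ) h'
      simp only [Ft, Inst.E] at h1 ⊢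
      refine Or.inr (Or.inr ?_)
      omega
    · have h1 := pot Fz (Fz_lip σ) h'
      simp only [Fz, Inst.E] at h1 ⊢
      refine Or.inr (Or.inr ?_)
      omega
    · exact Or.inr (Or.inl trivial)
    · exact Or.inr (Or.inl trivial)
    · have h1 := pot (Fx σ x') (Fx_lip σ x') h'
      simp only [Fx] at h1
      simp only [if_true] at h1
      refine Or.inr (Or.inl ?_)
      change N.inA B x'
      rw [← nb_y σ]
      by_contra h2
      rw [if_neg h2] at h1
      omega
    · exact Or.inr (Or.inl trivial)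
  · rcases v with a' | a' | B' | ⟨x', b', s'⟩ | x' | w'
    · have h1 := pot Ft (Ft_lip σ) h'
      simp only [Ft, Inst.E] at h1 ⊢
      refine Or.inr (Or.inr ?_)
      omega
    · have h1 := pot Fz (Fz_lip σ) h'
      simp only [Fz, Inst.E] at h1 ⊢
      refine Or.inr (Or.inr ?_)
      omega
    · exact Or.inr (Or.inr trivial)
    · refine Or.inr (Or.inl ?_)
      change x = x' ∨ s.1 + s'.1 ≤ q
      by_cases hx : x = x'
      · exact Or.inl hx
      · have h1 := pot (Fg x) (Fg_lip σ x) h
        simp only [Fg] at h1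
        rw [if_neg (Ne.symm hx)] at h1
        simp only [if_true] at h1
        right
        omega
    · have h1 := pot (Fx σ x') (Fx_lip σ x') h'
      simp only [Fx] at h1
      refine Or.inr (Or.inl ?_)
      change x = x'
      by_contra hx
      rw [if_neg hx] at h1
      simp only [if_true] at h1
      omega
    · have h1 := pot (Fw σ w') (Fw_lip σ w') h'
      simp only [Fw] at h1
      refine Or.inr (Or.inl ?_)
      change s.1 < q ∨ N.inS x b w'
      by_cases h2 : N.inS x b w'
      · exact Or.inr h2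
      · left
        rw [if_neg h2] at h1
        simp only [if_true] at h1
        omega
  · have h1 := pot (Fx σ x) (Fx_lip σ x) h
    rcases v with a' | a' | B' | ⟨x', b', s'⟩ | x' | w' <;> simp only [Fx] at h1 <;>
      simp only [if_true] at h1
    · refine Or.inr (Or.inr ?_)
      change a'.1 = 0
      by_contra h2
      rw [if_neg h2] at h1
      omega
    · exfalso
      omega
    · refine Or.inr (Or.inr ?_)
      change N.inA B' x
      rw [← nb_y σ]
      by_contra h2
      rw [if_neg h2] at h1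
      omega
    · refine Or.inr (Or.inr ?_)
      change x' = x
      by_contra h2
      rw [if_neg h2] at h1
      omega
    · left
      by_contra h2
      rw [if_neg (fun h => h2 (by rw [h]))] at h1
      omega
    · exfalso
      omega
  · have h1 := pot (Fw σ w) (Fw_lip σ w) h
    rcases v with a' | a' | B' | ⟨x', b', s'⟩ | x' | w' <;> simp only [Fw] at h1 <;>
      simp only [if_true] at h1
    · refine Or.inr (Or.inr ?_)
      change a'.1 ≤ q
      omega
    · refine Or.inr (Or.inr ?_)
      change a'.1 ≤ q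
      omega
    · exact Or.inr (Or.inr trivial)
    · refine Or.inr (Or.inr ?_)
      change s'.1 < q ∨ N.inS x' b' w
      by_cases h2 : N.inS x' b' w
      · exact Or.inr h2
      · left
        rw [if_neg h2] at h1
        omega
    · exfalso
      omega
    · by_cases h2 : w' = w
      · left
        rw [h2]
      · rw [if_neg h2] at h1
        refine Or.inr (Or.inl ?_)
        change 1 ≤ q
        omega

/-- walks along the tail of `tau` -/
theorem up_tau (σ : Sol N) (n : ℕ) (a b : Fin (q + 3)) (h1 : a.1 ≤ b.1 + n) (h2 : b.1 ≤ a.1 + n) :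
    R (σ.root q) Set.univ n (.tau a) (.tau b) := by
  induction n generalizing a with
  | zero =>
    have : a = b := Fin.ext (by omega)
    rw [this]
    exact R.refl (Set.mem_univ _)
  | succ n ih =>
    rcases lt_trichotomy a.1 b.1 with h | h | h
    · have h3 : a.1 + 1 < q + 3 := by omega
      refine R.cons (v := .tau ⟨a.1 + 1, h3⟩) (M_of ?_) (Set.mem_univ _) (ih _ ?_ ?_)
      · rfl
      · simp only
        omega
      · simp only
        omega
    · have : a = b := Fin.ext h
      rw [this]
      exact R.refl (Set.mem_univ _)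
    · have h3 : a.1 - 1 < q + 3 := by omega
      refine R.cons (v := .tau ⟨a.1 - 1, h3⟩) (M_of ?_).symm (Set.mem_univ _) (ih _ ?_ ?_)
      · change a.1 = a.1 - 1 + 1
        omega
      · simp only
        omega
      · simp only
        omega

/-- walks along the tail of `zeta` -/
theorem up_zeta (σ : Sol N) (n : ℕ) (a b : Fin (q + 3)) (h1 : a.1 ≤ b.1 + n)
    (h2 : b.1 ≤ a.1 + n) : R (σ.root q) Set.univ n (.zeta a) (.zeta b) := by
  induction n generalizing a with
  | zero =>
    have : a = b := Fin.ext (by omega)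
    rw [this]
    exact R.refl (Set.mem_univ _)
  | succ n ih =>
    rcases lt_trichotomy a.1 b.1 with h | h | h
    · have h3 : a.1 + 1 < q + 3 := by omega
      refine R.cons (v := .zeta ⟨a.1 + 1, h3⟩) (M_of ?_) (Set.mem_univ _) (ih _ ?_ ?_)
      · rfl
      · simp only
        omega
      · simp only
        omega
    · have : a = b := Fin.ext h
      rw [this]
      exact R.refl (Set.mem_univ _)
    · have h3 : a.1 - 1 < q + 3 := by omega
      refine R.cons (v := .zeta ⟨a.1 - 1, h3⟩) (M_of ?_).symm (Set.mem_univ _) (ih _ ?_ ?_)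
      · change a.1 = a.1 - 1 + 1
        omega
      · simp only
        omega
      · simp only
        omega

/-- walks along one side of a ladder -/
theorem up_side (σ : Sol N) (x : P) (c : Bool) (n : ℕ) (a b : Fin (q + 1)) (h1 : a.1 ≤ b.1 + n)
    (h2 : b.1 ≤ a.1 + n) : R (σ.root q) Set.univ n (.g x c a) (.g x c b) := by
  induction n generalizing a with
  | zero =>
    have : a = b := Fin.ext (by omega)
    rw [this]
    exact R.refl (Set.mem_univ _)
  | succ n ih =>
    rcases lt_trichotomy a.1 b.1 with h | h | h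
    · have h3 : a.1 + 1 < q + 1 := by omega
      refine R.cons (v := .g x c ⟨a.1 + 1, h3⟩) (M_of ?_) (Set.mem_univ _) (ih _ ?_ ?_)
      · exact ⟨rfl, Or.inl ⟨rfl, rfl⟩⟩
      · simp only
        omega
      · simp only
        omega
    · have : a = b := Fin.ext h
      rw [this]
      exact R.refl (Set.mem_univ _)
    · have h3 : a.1 - 1 < q + 1 := by omega
      refine R.cons (v := .g x c ⟨a.1 - 1, h3⟩) (M_of ?_).symm (Set.mem_univ _) (ih _ ?_ ?_)
      · refine ⟨rfl, Or.inl ⟨rfl, ?_⟩⟩
        change a.1 = a.1 - 1 + 1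
        omega
      · simp only
        omega
      · simp only
        omega

/-- walks in a ladder -/
theorem up_ladder (σ : Sol N) (x : P) (c d : Bool) (a b : Fin (q + 1)) :
    R (σ.root q) Set.univ (q + 1) (.g x c a) (.g x d b) := by
  have h1 : R (σ.root q) Set.univ 1 (.g x c a) (.g x d a) := by
    cases c <;> cases d
    · exact R.refl (Set.mem_univ _)
    · exact one_of ⟨rfl, Or.inr ⟨rfl, rfl, Or.inl rfl⟩⟩
    · exact one_of' ⟨rfl, Or.inr ⟨rfl, rfl, Or.inl rfl⟩⟩
    · exact R.refl (Set.mem_univ _)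
  have h2 := h1.trans (up_side σ x d q a b (by omega) (by omega))
  exact h2.mono (Set.mem_univ _) (by omega)

/-- the base of a ladder -/
theorem up_g (σ : Sol N) (x : P) (c : Bool) (a : Fin (q + 1)) :
    R (σ.root q) Set.univ a.1 (.g x c 0) (.g x c a) :=
  up_side σ x c a.1 0 a (by simp) (by simp)

theorem up_ug (σ : Sol N) (x : P) (c : Bool) (a : Fin (q + 1)) :
    R (σ.root q) Set.univ (1 + a.1) (.tau 0) (.g x c a) :=
  (one_of (show σ.EH q (.tau 0) (.g x c 0) from ⟨rfl, rfl⟩)).trans (up_g σ x c a)

theorem up_tau0 (σ : Sol N) (a : Fin (q + 3)) :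
    R (σ.root q) Set.univ a.1 (.tau a) (.tau 0) := up_tau σ a.1 a 0 (by simp) (by simp)

theorem up_zeta0 (σ : Sol N) (a : Fin (q + 3)) :
    R (σ.root q) Set.univ a.1 (.zeta a) (.zeta 0) := up_zeta σ a.1 a 0 (by simp) (by simp)

theorem up_px (σ : Sol N) (x : P) :
    R (σ.root q) Set.univ 1 (.g x (σ.y x) (Fin.last q)) (.px x) :=
  one_of ⟨rfl, rfl, rfl⟩

theorem up_gpx (σ : Sol N) (x : P) :
    R (σ.root q) Set.univ (q + 1) (.g x (σ.y x) 0) (.px x) :=
  (up_g σ x (σ.y x) (Fin.last q)).trans (up_px σ x)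

theorem up_bb (σ : Sol N) (B B' : I × Bool ⊕ P) :
    R (σ.root q) Set.univ 1 (.big B) (.big B') := one_of trivial

theorem up_pw (σ : Sol N) (w : I ⊕ J) :
    R (σ.root q) Set.univ 1 (.big (σ.cen w)) (.pw w) := one_of rfl

theorem up_ub (σ : Sol N) (B : I × Bool ⊕ P) :
    R (σ.root q) Set.univ 1 (.tau 0) (.big B) := one_of rfl

theorem up_zb (σ : Sol N) (B : I × Bool ⊕ P) :
    R (σ.root q) Set.univ 1 (.zeta 0) (.big B) := one_of rfl

theorem up_uz (σ : Sol N) :
    R (σ.root q) Set.univ 1 (.tau 0) (.zeta 0) := one_of ⟨rfl, rfl⟩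

/-- the upper bounds -/
theorem up (σ : Sol N) (u v : Vtx P I J q) (h : N.E q u v) :
    R (σ.root q) Set.univ (q + 2) u v := by
  have fin {n : ℕ} {u v : Vtx P I J q} (h : R (σ.root q) Set.univ n u v) (hn : n ≤ q + 2) :
      R (σ.root q) Set.univ (q + 2) u v := h.mono (Set.mem_univ _) hn
  have sy {n : ℕ} {u v : Vtx P I J q} (h : R (σ.root q) Set.univ n u v) :
      R (σ.root q) Set.univ n v u := h.symm (Set.mem_univ _)
  rcases u with a | a | B | ⟨x, b, s⟩ | x | w
  · rcases v with a' | a' | B' | ⟨x', b', s'⟩ | x' | w' <;> simp only [Inst.E] at h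
    · exact up_tau σ _ _ _ (by omega) (by omega)
    · exact fin ((up_tau0 σ a).trans ((up_uz σ).trans (sy (up_zeta0 σ a')))) (by omega)
    · exact fin ((up_tau0 σ a).trans (up_ub σ B')) (by omega)
    · exact fin ((up_tau0 σ a).trans (up_ug σ x' b' s')) (by omega)
    · have ha : a = 0 := Fin.ext h
      subst ha
      exact fin ((one_of (show σ.EH q (.tau 0) (.g x' (σ.y x') 0) from ⟨rfl, rfl⟩)).trans
        (up_gpx σ x')) (by omega)
    · exact fin ((up_tau0 σ a).trans ((up_ub σ _).trans (up_pw σ w'))) (by omega)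
  · rcases v with a' | a' | B' | ⟨x', b', s'⟩ | x' | w' <;> simp only [Inst.E] at h
    · exact up_zeta σ _ _ _ (by omega) (by omega)
    · exact fin ((up_zeta0 σ a).trans (up_zb σ B')) (by omega)
    · exact fin ((up_zeta0 σ a).trans ((sy (up_uz σ)).trans (up_ug σ x' b' s'))) (by omega)
    · exact fin ((up_zeta0 σ a).trans ((up_zb σ _).trans (up_pw σ w'))) (by omega)
  · rcases v with a' | a' | B' | ⟨x', b', s'⟩ | x' | w' <;> simp only [Inst.E] at h
    · exact fin (up_bb σ B B') (by omega)
    · exact fin ((sy (up_ub σ B)).trans (up_ug σ x' b' s')) (by omega)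
    · rw [← nb_y σ] at h
      exact fin ((one_of (show σ.EH q (.big B) (.g x' (σ.y x') 0) from ⟨rfl, h⟩)).trans
        (up_gpx σ x')) (by omega)
    · exact fin ((up_bb σ B _).trans (up_pw σ w')) (by omega)
  · rcases v with a' | a' | B' | ⟨x', b', s'⟩ | x' | w' <;> simp only [Inst.E] at h
    · rcases h with h | h
      · subst h
        exact fin (up_ladder σ x b b' s s') (by omega)
      · exact fin ((sy (up_ug σ x b s)).trans (up_ug σ x' b' s')) (by omega)
    · subst h
      exact (up_ladder σ x b (σ.y x) s (Fin.last q)).trans (up_px σ x)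
    · by_cases h2 : N.inS x b w'
      · rw [← nb_cen σ] at h2
        exact fin ((sy (up_g σ x b s)).trans ((one_of' (show σ.EH q (.big (σ.cen w')) (.g x b 0) from
          ⟨rfl, h2⟩)).trans (up_pw σ w'))) (by omega)
      · have h3 : s.1 < q := by tauto
        exact fin ((sy (up_ug σ x b s)).trans ((up_ub σ _).trans (up_pw σ w'))) (by omega)
  · rcases v with a' | a' | B' | ⟨x', b', s'⟩ | x' | w' <;> simp only [Inst.E] at h
  · rcases v with a' | a' | B' | ⟨x', b', s'⟩ | x' | w' <;> simp only [Inst.E] at h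
    exact fin ((sy (up_pw σ w)).trans ((up_bb σ _ _).trans (up_pw σ w'))) (by omega)

end Dist

theorem Sol.gpow_root (σ : Sol N) (q : ℕ) : gpow (σ.root q) (q + 2) = N.GK q := by
  ext u v
  rw [gpow_adj]
  constructor
  · rintro ⟨h1, h2⟩
    rcases Dist.low σ h2 with h3 | h3
    · exact absurd h3 h1
    · exact ⟨h1, h3⟩
  · rintro ⟨h1, h2⟩
    refine ⟨h1, ?_⟩
    rcases h2 with h2 | h2
    · exact Dist.up σ u v h2
    · exact (Dist.up σ v u h2).symm (Set.mem_univ _)

end Pool.Agent.Lib.P74a0dc
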