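import Pool.Agent.Lib.P74a0dc.Basic

set_option autoImplicit false

/-!
A graph with a simple elimination ordering is strongly chordal.
-/

namespace Pool.Agent.Lib.P74a0dc

variable {V : Type} {G : SimpleGraph V}

theorem stronglyChordal_of_elim (r : V → ℕ)
    (h : ∀ v a b, M G v a → M G v b → r v ≤ r a → r v ≤ r b →
      (∀ w, r v ≤ r w → M G a w → M G b w) ∨ (∀ w, r v ≤ r w → M G b w → M G a w)) :
    StronglyChordal G := by
  have hnum : ∀ n m : ℕ, 0 < m → m < n → ((m : ℕ) : ZMod n) ≠ 0 := by
    intro n m hm hm' h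
    have := ZMod.val_cast_of_lt hm'
    rw [h, ZMod.val_zero] at this
    omega
  have hmin : ∀ n, 4 ≤ n → ∀ c : ZMod n → V, (∀ i, G.Adj (c i) (c (i + 1))) →
      ∃ a, (∀ i, r (c a) ≤ r (c i)) ∧ M G (c a) (c (a + 1)) ∧ M G (c a) (c (a - 1)) := by
    intro n hn c hc
    have : NeZero n := ⟨by omega⟩
    obtain ⟨a, ha⟩ := Finite.exists_min (fun i => r (c i))
    refine ⟨a, ha, Or.inr (hc a), ?_⟩
    have := hc (a - 1)
    rw [sub_add_cancel] at this
    exact Or.inr this.symm
  refine ⟨?_, ?_⟩
  · intro n hn c hinj hc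
    obtain ⟨a, ha, h1, h2⟩ := hmin n hn c hc
    have n1 : (1 : ZMod n) ≠ 0 := by simpa using hnum n 1 (by omega) (by omega)
    have n2 : (2 : ZMod n) ≠ 0 := by simpa using hnum n 2 (by omega) (by omega)
    have n3 : (3 : ZMod n) ≠ 0 := by simpa using hnum n 3 (by omega) (by omega)
    have hne : a - 1 ≠ a + 1 := by
      intro h
      apply n2
      have : (2 : ZMod n) = (a + 1) - (a - 1) := by ring
      rw [this, h, sub_self]
    refine ⟨a - 1, a + 1, ?_, ?_, ?_⟩
    · intro h
      apply n1
      have : (1 : ZMod n) = (a + 1) - (a - 1 + 1) := by ring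
      rw [this, ← h, sub_self]
    · intro h
      apply n3
      have : (3 : ZMod n) = (a + 1 + 1) - (a - 1) := by ring
      rw [this, ← h, sub_self]
    · have hM : M G (c (a - 1)) (c (a + 1)) := by
        rcases h (c a) (c (a + 1)) (c (a - 1)) h1 h2 (ha _) (ha _) with h3 | h3
        · exact h3 _ (ha _) (M.refl _)
        · exact (h3 _ (ha _) (M.refl _)).symm
      rcases hM with h3 | h3
      · exact absurd (hinj h3) hne
      · exact h3
  · intro n hn _ c hinj hc
    obtain ⟨a, ha, h1, h2⟩ := hmin n (by omega) c hc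
    have n2 : (2 : ZMod n) ≠ 0 := by simpa using hnum n 2 (by omega) (by omega)
    have n3 : (3 : ZMod n) ≠ 0 := by simpa using hnum n 3 (by omega) (by omega)
    have n4 : (4 : ZMod n) ≠ 0 := by simpa using hnum n 4 (by omega) (by omega)
    have v3 : (3 : ZMod n).val = 3 := by
      have := ZMod.val_cast_of_lt (show 3 < n by omega)
      simpa using this
    have key : ∀ b, M G (c b) (c (b + 3)) → ∃ i j, j ≠ i + 1 ∧ i ≠ j + 1 ∧ Odd (j - i).val ∧
        G.Adj (c i) (c j) := by
      intro b hM
      refine ⟨b, b + 3, ?_, ?_, ?_, ?_⟩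
      · intro h
        apply n2
        have : (2 : ZMod n) = (b + 3) - (b + 1) := by ring
        rw [this, h, sub_self]
      · intro h
        apply n4
        have : (4 : ZMod n) = (b + 3 + 1) - b := by ring
        rw [this, ← h, sub_self]
      · rw [add_sub_cancel_left, v3]
        decide
      · rcases hM with h3 | h3
        · exfalso
          apply n3
          have h4 := hinj h3
          have : (3 : ZMod n) = (b + 3) - b := by ring
          rw [this, ← h4, sub_self]
        · exact h3
    rcases h (c a) (c (a + 1)) (c (a - 1)) h1 h2 (ha _) (ha _) with h3 | h3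
    · -- `c (a + 2)` is adjacent to `c (a - 1)`
      have h4 := h3 (c (a + 1 + 1)) (ha _) (Or.inr (hc (a + 1)))
      refine key (a - 1) ?_
      rwa [show a + 1 + 1 = a - 1 + 3 by ring] at h4
    · have h4 := h3 (c (a - 2)) (ha _) (by
        have := hc (a - 2)
        rw [show a - 2 + 1 = a - 1 by ring] at this
        exact Or.inr this.symm)
      refine key (a - 2) ?_
      have h5 := h4.symm
      rwa [show a + 1 = a - 2 + 3 by ring] at h5

end Pool.Agent.Lib.P74a0dc
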