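import Pool.Agent.Lib.P74a0dc.Elim

set_option autoImplicit false

/-!
The root of a solution is strongly chordal.

Proof: `stronglyChordal_of_elim` with the following rank (`T` is an upper bound of `val`):
`px`, `pw ↦ 0`; `tau a`, `zeta a ↦ q + 2 - a` for `a ≥ 1`; `g x b s` with `s ≥ 1 ↦
q + 2 + 2 (q - s) + (1 if b = true, else 0)` (so `b = false` goes first on each level, levels from
the top); `g x false 0 ↦ A` if `y x = true` and `A + 1` if `y x = false`, where
`A = q + 2 + 2 q + 2`; `g x true 0 ↦ A + 2 + (T - val x)`; `u = tau 0`, `z = zeta 0` and all big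
vertices `↦ A + 3 + T`.

Neighbourhoods in the set of the vertices of the same or larger rank:
* `px x`: itself and `g x (y x) q`, whose neighbourhood contains it; the same for `pw`, tails.
* `g x false s`, `s ≥ 1`: itself, `g x true s`, `g x false (s - 1)`; chain
  `N[g x false s] ⊆ N[g x true s] ⊆ N[g x false (s - 1)]`.
* `g x true s`, `s ≥ 1`: itself, `g x false (s - 1)`, `g x true (s - 1)`; chain
  `N[g x true s] ⊆ N[g x false (s - 1)] ⊆ N[g x true (s - 1)]` (for `s = 1` use
  `nb B x false → nb B x true`).
* `g x false 0` with `y x = true`: neighbours `g x true 0`, `u`, and `big (inl (i, Y i))` with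
  `val x < nu i`. The latter have the neighbourhoods (all of `u, z`, big), `g x' false 0` with
  `val x' < nu i`, `g x' true 0` with `val x' ≤ nu i`: a chain; that of `g x true 0` is contained
  in all of them; `u` sees everything.
* `g x false 0` with `y x = false`: the vertices `g x' false 0` still present have `y x' = false`.
  Neighbours `g x true 0`, `u`, big `B`: `inl (i, Y i)` with `val x < nu i`; `inl (i, !Y i)` with
  `lev (!Y i) (val x) (nu i)`; `inr x`. Their neighbourhoods among the present `g _ false 0`,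
  `g _ true 0` are the thresholds `(< nu i, ≤ nu i)`; `(< nu i, < nu i)` if `Y i = true`,
  `(≤ nu i, ≤ nu i)` if `Y i = false`; and `({x}, {x})` for `inr x`: a chain, and
  `N[g x true 0]` is contained in all of them.
* `g x true 0`: the present vertices are `g x' true 0` with `val x' ≤ val x`, `u`, `z`, big.
  Neighbours: `u`, and `big B`; `B = inl _` sees everything; `inr (sel (cl x))` sees
  `g x' true 0` with `cl x' = cl x`; `inr x` (if unused) sees only `g x true 0`: a chain.
* the clique.
-/

namespace Pool.Agent.Lib.P74a0dc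

variable {P I J : Type} {N : Inst P I J}

namespace OrderAux

/-- the position of a threshold -/
def key (σ : Sol N) (i : I) (c : Bool) : ℕ :=
  2 * N.nu i + (if c = σ.Y i then 1 else if c = true then 2 else 0)

variable (σ : Sol N)

theorem nb_inl_true (i : I) (c : Bool) (x : P) :
    σ.nb (Sum.inl (i, c)) x true ↔ N.val x < (key σ i c + 1) / 2 := by
  simp only [key, Sol.nb, Inst.lev]
  cases c <;> cases h : σ.Y i <;> simp <;> omega

theorem nb_inl_false (i : I) (c : Bool) (x : P) :
    σ.nb (Sum.inl (i, c)) x false ↔ N.val x < key σ i c / 2 ∧ (c = σ.Y i ∨ σ.y x = false) := by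
  simp only [key, Sol.nb, Inst.lev]
  cases c <;> cases h : σ.Y i <;> cases h' : σ.y x <;> simp <;> omega

theorem nb_inr_true (x' x : P) :
    σ.nb (Sum.inr x') x true ↔ (x' = σ.sel (N.cl x') ∧ N.cl x = N.cl x') ∨
      (x' ≠ σ.sel (N.cl x') ∧ x = x') := by
  unfold Sol.nb
  simp

theorem nb_inr_false (x' x : P) :
    σ.nb (Sum.inr x') x false ↔ x' ≠ σ.sel (N.cl x') ∧ x = x' ∧ σ.y x = false := by
  unfold Sol.nb
  simp

theorem nb_mono (B : I × Bool ⊕ P) (x : P) (h : σ.nb B x false) : σ.nb B x true := by
  rcases B with ⟨i, c⟩ | x'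
  · rw [nb_inl_false] at h
    rw [nb_inl_true]
    omega
  · rw [nb_inr_false] at h
    rw [nb_inr_true]
    exact Or.inr ⟨h.1, h.2.1⟩

theorem core_false (x : P) (B B' : I × Bool ⊕ P) (hB : σ.nb B x false) (hB' : σ.nb B' x false) :
    (∀ x' b', (b' = false → σ.y x = false → σ.y x' = false) → σ.nb B x' b' → σ.nb B' x' b') ∨
    (∀ x' b', (b' = false → σ.y x = false → σ.y x' = false) → σ.nb B' x' b' → σ.nb B x' b') := by
  have hinl : ∀ (i : I) (c : Bool) (i' : I) (c' : Bool), σ.nb (Sum.inl (i, c)) x false →
      σ.nb (Sum.inl (i', c')) x false → key σ i c ≤ key σ i' c' →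
      ∀ x' b', (b' = false → σ.y x = false → σ.y x' = false) → σ.nb (Sum.inl (i, c)) x' b' →
        σ.nb (Sum.inl (i', c')) x' b' := by
    intro i c i' c' h1 h2 hk x' b' hp h
    rw [nb_inl_false] at h1 h2
    cases b' with
    | true =>
      rw [nb_inl_true] at h ⊢
      omega
    | false =>
      rw [nb_inl_false] at h ⊢
      refine ⟨by omega, ?_⟩
      rcases h2.2 with h3 | h3
      · exact Or.inl h3
      · exact Or.inr (hp rfl h3)
  have hinr : ∀ (x₁ : P) (B₁ : I × Bool ⊕ P), σ.nb (Sum.inr x₁) x false → σ.nb B₁ x false →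
      ∀ x' b', (b' = false → σ.y x = false → σ.y x' = false) → σ.nb (Sum.inr x₁) x' b' →
        σ.nb B₁ x' b' := by
    intro x₁ B₁ h1 h2 x' b' _ h
    rw [nb_inr_false] at h1
    obtain ⟨h3, h4, h5⟩ := h1
    cases b' with
    | true =>
      rw [nb_inr_true] at h
      rcases h with h | h
      · exact absurd h.1 h3
      · rw [h.2, ← h4]
        exact nb_mono σ _ _ h2
    | false =>
      rw [nb_inr_false] at h
      rw [h.2.1, ← h4]
      exact h2
  rcases B with ⟨i, c⟩ | x₁
  · rcases B' with ⟨i', c'⟩ | x₂
    · rcases le_total (key σ i c) (key σ i' c') with h | h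
      · exact Or.inl (hinl i c i' c' hB hB' h)
      · exact Or.inr (hinl i' c' i c hB' hB h)
    · exact Or.inr (hinr x₂ _ hB' hB)
  · exact Or.inl (hinr x₁ _ hB hB')

theorem core_true (x : P) (B B' : I × Bool ⊕ P) (hB : σ.nb B x true) (hB' : σ.nb B' x true) :
    (∀ x', N.val x' ≤ N.val x → σ.nb B x' true → σ.nb B' x' true) ∨
    (∀ x', N.val x' ≤ N.val x → σ.nb B' x' true → σ.nb B x' true) := by
  have hinl : ∀ (i : I) (c : Bool) (x' : P), σ.nb (Sum.inl (i, c)) x true →
      N.val x' ≤ N.val x → σ.nb (Sum.inl (i, c)) x' true := by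
    intro i c x' h h'
    rw [nb_inl_true] at h ⊢
    omega
  rcases B with ⟨i, c⟩ | x₁
  · exact Or.inr (fun x' hx' _ => hinl i c x' hB hx')
  · rcases B' with ⟨i', c'⟩ | x₂
    · exact Or.inl (fun x' hx' _ => hinl i' c' x' hB' hx')
    · have hun : ∀ (x₁ x₂ : P), x₁ ≠ σ.sel (N.cl x₁) → σ.nb (Sum.inr x₁) x true →
          σ.nb (Sum.inr x₂) x true → ∀ x', σ.nb (Sum.inr x₁) x' true →
            σ.nb (Sum.inr x₂) x' true := by
        intro x₁ x₂ h1 h2 h3 x' h4
        rw [nb_inr_true] at h2 h4
        rcases h2 with h2 | h2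
        · exact absurd h2.1 h1
        rcases h4 with h4 | h4
        · exact absurd h4.1 h1
        rw [h4.2, ← h2.2]
        exact h3
      by_cases h1 : x₁ = σ.sel (N.cl x₁)
      · by_cases h2 : x₂ = σ.sel (N.cl x₂)
        · left
          intro x' _ h
          rw [nb_inr_true] at h hB hB' ⊢
          left
          refine ⟨h2, ?_⟩
          rcases h with h | h
          · rcases hB with h3 | h3
            · rcases hB' with h4 | h4
              · rw [h.2, ← h3.2, h4.2]
              · exact absurd h2 h4.1
            · exact absurd h1 h3.1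
          · exact absurd h1 h.1
        · exact Or.inr (fun x' _ => hun x₂ x₁ h2 hB' hB x')
      · exact Or.inl (fun x' _ => hun x₁ x₂ h1 hB hB' x')

/-- the rank -/
def rk (q T : ℕ) : Vtx P I J q → ℕ
  | .tau a => if a.1 = 0 then 3 * q + 7 + T else q + 2 - a.1
  | .zeta a => if a.1 = 0 then 3 * q + 7 + T else q + 2 - a.1
  | .big _ => 3 * q + 7 + T
  | .g x b s => if s.1 = 0 then (if b = true then 3 * q + 6 + (T - N.val x) else
      if σ.y x = true then 3 * q + 4 else 3 * q + 5) else
      q + 2 + 2 * (q - s.1) + (if b = true then 1 else 0)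
  | .px _ => 0
  | .pw _ => 0

variable {q : ℕ}

theorem M_root {u v : Vtx P I J q} :
    M (σ.root q) u v ↔ u = v ∨ σ.EH q u v ∨ σ.EH q v u := by
  constructor
  · rintro (h | h)
    · exact Or.inl h
    · exact Or.inr h.2
  · intro h
    by_cases h1 : u = v
    · exact Or.inl h1
    · rcases h with h | h
      · exact absurd h h1
      · exact Or.inr ⟨h1, h⟩

/-- comparison of neighbourhoods above the rank of `v` -/
def Le (q T : ℕ) (v a b : Vtx P I J q) : Prop :=
  ∀ w, rk σ q T v ≤ rk σ q T w → M (σ.root q) a w → M (σ.root q) b w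

variable {T : ℕ}

theorem Le.refl (v a : Vtx P I J q) : Le σ q T v a a := fun _ _ h => h

theorem pendant (v c : Vtx P I J q)
    (h : ∀ w, rk σ q T v ≤ rk σ q T w → M (σ.root q) v w → w = v ∨ w = c)
    (a b : Vtx P I J q) (ha : M (σ.root q) v a) (hb : M (σ.root q) v b)
    (ha' : rk σ q T v ≤ rk σ q T a) (hb' : rk σ q T v ≤ rk σ q T b) :
    Le σ q T v a b ∨ Le σ q T v b a := by
  have key : M (σ.root q) v c → Le σ q T v v c := by
    intro hc w hw hvw
    rcases h w hw hvw with h1 | h1
    · rw [h1]; exact hc.symm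
    · rw [h1]; exact M.refl _
  rcases h a ha' ha with h1 | h1
  · rcases h b hb' hb with h2 | h2
    · left; rw [h1, h2]; exact Le.refl σ _ _
    · left; rw [h1, h2]; exact key (h2 ▸ hb)
  · rcases h b hb' hb with h2 | h2
    · right; rw [h1, h2]; exact key (h1 ▸ ha)
    · left; rw [h1, h2]; exact Le.refl σ _ _

theorem three (v c d : Vtx P I J q)
    (h : ∀ w, rk σ q T v ≤ rk σ q T w → M (σ.root q) v w → w = v ∨ w = c ∨ w = d)
    (h1 : Le σ q T v v c) (h2 : Le σ q T v c d)
    (a b : Vtx P I J q) (ha : M (σ.root q) v a) (hb : M (σ.root q) v b)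
    (ha' : rk σ q T v ≤ rk σ q T a) (hb' : rk σ q T v ≤ rk σ q T b) :
    Le σ q T v a b ∨ Le σ q T v b a := by
  have h3 : Le σ q T v v d := fun w hw hh => h2 w hw (h1 w hw hh)
  rcases h a ha' ha with rfl | rfl | rfl
  · rcases h b hb' hb with rfl | rfl | rfl
    · exact Or.inl (Le.refl σ _ _)
    · exact Or.inl h1
    · exact Or.inl h3
  · rcases h b hb' hb with rfl | rfl | rfl
    · exact Or.inr h1
    · exact Or.inl (Le.refl σ _ _)
    · exact Or.inl h2
  · rcases h b hb' hb with rfl | rfl | rfl
    · exact Or.inr h3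
    · exact Or.inr h2
    · exact Or.inl (Le.refl σ _ _)

/-- vertices of high rank -/
theorem high (w : Vtx P I J q) (hw : 3 * q + 4 ≤ rk σ q T w) :
    w = .tau 0 ∨ w = .zeta 0 ∨ (∃ B, w = .big B) ∨ ∃ x b, w = .g x b 0 := by
  cases w with
  | tau a =>
    left
    simp only [rk] at hw
    split_ifs at hw with h
    · congr 1
      exact Fin.ext h
    · omega
  | zeta a =>
    right; left
    simp only [rk] at hw
    split_ifs at hw with h
    · congr 1
      exact Fin.ext h
    · omega
  | big B => exact Or.inr (Or.inr (Or.inl ⟨B, rfl⟩))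
  | g x b s =>
    right; right; right
    refine ⟨x, b, ?_⟩
    by_cases h : s.1 = 0
    · congr 1
      exact Fin.ext h
    · exfalso
      simp only [rk] at hw
      rw [if_neg h] at hw
      split_ifs at hw <;> omega
  | px x =>
    simp only [rk] at hw
    omega
  | pw w =>
    simp only [rk] at hw
    omega

theorem M_tau0 (w : Vtx P I J q) (hw : 3 * q + 4 ≤ rk σ q T w) :
    M (σ.root q) (.tau 0) w := by
  rw [M_root]
  rcases high σ w hw with rfl | rfl | ⟨B, rfl⟩ | ⟨x, b, rfl⟩ <;> simp [Sol.EH]

theorem M_big_g (B : I × Bool ⊕ P) (x : P) (b : Bool) :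
    M (σ.root q) (.big B) (.g x b 0) ↔ σ.nb B x b := by
  rw [M_root]
  simp [Sol.EH]

theorem M_g_g (x x' : P) (b b' : Bool) :
    M (σ.root q) (.g x b 0) (.g x' b' 0) ↔ x = x' := by
  rw [M_root]
  cases b <;> cases b' <;> simp [Sol.EH, eq_comm]

theorem not_M_g_zeta (x : P) (b : Bool) : ¬ M (σ.root q) (.g x b 0) (.zeta 0) := by
  rw [M_root]
  simp [Sol.EH]

theorem M_big (B : I × Bool ⊕ P) (w : Vtx P I J q) (hw : 3 * q + 4 ≤ rk σ q T w)
    (h : ∀ x b, w = .g x b 0 → σ.nb B x b) : M (σ.root q) (.big B) w := by
  rcases high σ w hw with rfl | rfl | ⟨B', rfl⟩ | ⟨x, b, rfl⟩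
  · rw [M_root]; simp [Sol.EH]
  · rw [M_root]; simp [Sol.EH]
  · rw [M_root]; simp [Sol.EH]
  · exact (M_big_g σ B x b).2 (h x b rfl)

theorem case_top (v : Vtx P I J q) (hT : ∀ x, N.val x ≤ T) (hv : 3 * q + 7 + T ≤ rk σ q T v)
    (a b : Vtx P I J q)
    (_ : rk σ q T v ≤ rk σ q T a) (hb' : rk σ q T v ≤ rk σ q T b) :
    Le σ q T v a b ∨ Le σ q T v b a := by
  left
  intro w hw _
  have cls : ∀ w : Vtx P I J q, 3 * q + 7 + T ≤ rk σ q T w →
      w = .tau 0 ∨ w = .zeta 0 ∨ ∃ B, w = .big B := by
    intro w hw
    rcases high σ w (T := T) (by omega) with h | h | h | ⟨x, b, rfl⟩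
    · exact Or.inl h
    · exact Or.inr (Or.inl h)
    · exact Or.inr (Or.inr h)
    · exfalso
      simp only [rk] at hw
      have := hT x
      simp only [Fin.val_zero, if_true] at hw
      split_ifs at hw <;> omega
  rcases cls b (by omega) with rfl | rfl | ⟨B, rfl⟩
  · exact M_tau0 σ w (T := T) (by omega)
  · rcases cls w (by omega) with rfl | rfl | ⟨B', rfl⟩ <;> rw [M_root] <;> simp [Sol.EH]
  · apply M_big σ B w (T := T) (by omega)
    rintro x b rfl
    exfalso
    rcases cls _ (hv.trans hw) with h | h | ⟨B', h⟩ <;> cases h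

theorem case_g0 (x : P) (b₀ : Bool) (hT : ∀ x, N.val x ≤ T) (a b : Vtx P I J q)
    (ha : M (σ.root q) (.g x b₀ 0) a) (hb : M (σ.root q) (.g x b₀ 0) b)
    (ha' : rk σ q T (.g x b₀ 0) ≤ rk σ q T a) (hb' : rk σ q T (.g x b₀ 0) ≤ rk σ q T b) :
    Le σ q T (.g x b₀ 0) a b ∨ Le σ q T (.g x b₀ 0) b a := by
  have hv : 3 * q + 4 ≤ rk σ q T (.g x b₀ 0 : Vtx P I J q) := by
    simp only [rk, Fin.val_zero, if_true]
    split_ifs <;> omega
  -- present vertices
  have pres : ∀ x' b', rk σ q T (.g x b₀ 0 : Vtx P I J q) ≤ rk σ q T (.g x' b' 0) →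
      (b₀ = true → b' = true ∧ N.val x' ≤ N.val x) ∧
        (b' = false → σ.y x = false → σ.y x' = false) := by
    intro x' b' h
    simp only [rk, Fin.val_zero, if_true] at h
    have h1 := hT x
    have h2 := hT x'
    cases b₀ <;> cases b' <;> cases h3 : σ.y x <;> cases h4 : σ.y x' <;>
      simp [h3, h4] at h ⊢ <;> omega
  have core : ∀ B B', σ.nb B x b₀ → σ.nb B' x b₀ →
      (∀ x' b', rk σ q T (.g x b₀ 0 : Vtx P I J q) ≤ rk σ q T (.g x' b' 0) →
        σ.nb B x' b' → σ.nb B' x' b') ∨
      (∀ x' b', rk σ q T (.g x b₀ 0 : Vtx P I J q) ≤ rk σ q T (.g x' b' 0) →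
        σ.nb B' x' b' → σ.nb B x' b') := by
    intro B B' hB hB'
    cases b₀ with
    | true =>
      rcases core_true σ x B B' hB hB' with h | h
      · left
        intro x' b' hp hh
        obtain ⟨h1, h2⟩ := (pres x' b' hp).1 rfl
        subst h1
        exact h x' h2 hh
      · right
        intro x' b' hp hh
        obtain ⟨h1, h2⟩ := (pres x' b' hp).1 rfl
        subst h1
        exact h x' h2 hh
    | false =>
      rcases core_false σ x B B' hB hB' with h | h
      · exact Or.inl (fun x' b' hp => h x' b' (pres x' b' hp).2)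
      · exact Or.inr (fun x' b' hp => h x' b' (pres x' b' hp).2)
  have nbx : ∀ B b', σ.nb B x b₀ → rk σ q T (.g x b₀ 0 : Vtx P I J q) ≤ rk σ q T (.g x b' 0) →
      σ.nb B x b' := by
    intro B b' hB hp
    cases b₀ with
    | true =>
      obtain ⟨h1, _⟩ := (pres x b' hp).1 rfl
      subst h1
      exact hB
    | false =>
      cases b' with
      | true => exact nb_mono σ B x hB
      | false => exact hB
  have gbig : ∀ b' B, σ.nb B x b₀ → Le σ q T (.g x b₀ 0) (.g x b' 0) (.big B) := by
    intro b' B hB w hw h
    apply M_big σ B w (T := T) (hv.trans hw)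
    rintro x' b'' rfl
    rw [M_g_g] at h
    subst h
    exact nbx B b'' hB hw
  have bigbig : ∀ B B', (∀ x' b', rk σ q T (.g x b₀ 0 : Vtx P I J q) ≤ rk σ q T (.g x' b' 0) →
        σ.nb B x' b' → σ.nb B' x' b') → Le σ q T (.g x b₀ 0) (.big B) (.big B') := by
    intro B B' hB w hw h
    apply M_big σ B' w (T := T) (hv.trans hw)
    rintro x' b'' rfl
    exact hB x' b'' hw ((M_big_g σ B x' b'').1 h)
  have gg : Le σ q T (.g x b₀ 0) (.g x false 0) (.g x true 0) := by
    intro w hw h
    rcases high σ w (hv.trans hw) with rfl | rfl | ⟨B, rfl⟩ | ⟨x', b', rfl⟩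
    · exact (M_tau0 σ (T := T) _ (by
        simp only [rk, Fin.val_zero, if_true]
        omega)).symm
    · exact absurd h (not_M_g_zeta σ x false)
    · exact ((M_big_g σ B x true).2 (nb_mono σ B x ((M_big_g σ B x false).1 h.symm))).symm
    · rw [M_g_g] at h ⊢
      exact h
  have toptau : ∀ c, Le σ q T (.g x b₀ 0) c (.tau 0) := fun c w hw _ =>
    M_tau0 σ w (T := T) (hv.trans hw)
  rcases high σ a (hv.trans ha') with rfl | rfl | ⟨B, rfl⟩ | ⟨x₁, b₁, rfl⟩
  · exact Or.inr (toptau b)
  · exact absurd ha (not_M_g_zeta σ x b₀)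
  · have hB := (M_big_g σ B x b₀).1 ha.symm
    rcases high σ b (hv.trans hb') with rfl | rfl | ⟨B', rfl⟩ | ⟨x₂, b₂, rfl⟩
    · exact Or.inl (toptau _)
    · exact absurd hb (not_M_g_zeta σ x b₀)
    · have hB' := (M_big_g σ B' x b₀).1 hb.symm
      rcases core B B' hB hB' with h | h
      · exact Or.inl (bigbig B B' h)
      · exact Or.inr (bigbig B' B h)
    · rw [M_g_g] at hb
      subst hb
      exact Or.inr (gbig b₂ B hB)
  · rw [M_g_g] at ha
    subst ha
    rcases high σ b (hv.trans hb') with rfl | rfl | ⟨B', rfl⟩ | ⟨x₂, b₂, rfl⟩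
    · exact Or.inl (toptau _)
    · exact absurd hb (not_M_g_zeta σ x b₀)
    · exact Or.inl (gbig b₁ B' ((M_big_g σ B' x b₀).1 hb.symm))
    · rw [M_g_g] at hb
      subst hb
      cases b₁ <;> cases b₂
      · exact Or.inl (Le.refl σ _ _)
      · exact Or.inl gg
      · exact Or.inr gg
      · exact Or.inl (Le.refl σ _ _)

theorem cls_g_false (x : P) (s t : Fin (q + 1)) (hst : s.1 = t.1 + 1) (w : Vtx P I J q)
    (hw : q + 2 + 2 * (q - s.1) ≤ rk σ q T w) (h : M (σ.root q) (.g x false s) w) :
    w = .g x false s ∨ w = .g x true s ∨ w = .g x false t := by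
  rw [M_root] at h
  cases w with
  | tau a => simp [Sol.EH, -Fin.val_eq_zero_iff] at h; omega
  | zeta a => simp [Sol.EH, -Fin.val_eq_zero_iff] at h
  | big B => simp [Sol.EH, -Fin.val_eq_zero_iff] at h; omega
  | g x' b' s' =>
    simp only [Sol.EH, rk, Vtx.g.injEq] at h hw
    have e1 : ∀ u : Fin (q + 1), s'.1 = u.1 → s' = u := fun u hu => Fin.ext hu
    have hs' := s'.2
    cases b' with
    | false =>
      simp [-Fin.val_eq_zero_iff] at h hw
      rcases h with h | h | h
      · left; rw [← h.1, ← h.2]
      · exfalso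
        split_ifs at hw <;> omega
      · right; right
        rw [h.1, e1 t (by omega)]
    | true =>
      simp [-Fin.val_eq_zero_iff] at h hw
      rcases h with ⟨h1, h2 | h2⟩
      · right; left
        rw [← h1, e1 s h2]
      · exfalso
        split_ifs at hw <;> omega
  | px x' =>
    simp only [rk] at hw
    omega
  | pw w' =>
    simp only [rk] at hw
    omega

theorem cls_g_true (x : P) (s t : Fin (q + 1)) (hst : s.1 = t.1 + 1) (w : Vtx P I J q)
    (hw : q + 2 + 2 * (q - s.1) ≤ rk σ q T w) (h : M (σ.root q) (.g x true s) w) :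
    w = .g x true s ∨ w = .g x false s ∨ w = .g x false t ∨ w = .g x true t := by
  rw [M_root] at h
  cases w with
  | tau a => simp [Sol.EH, -Fin.val_eq_zero_iff] at h; omega
  | zeta a => simp [Sol.EH, -Fin.val_eq_zero_iff] at h
  | big B => simp [Sol.EH, -Fin.val_eq_zero_iff] at h; omega
  | g x' b' s' =>
    simp only [Sol.EH, rk, Vtx.g.injEq] at h hw
    have e1 : ∀ u : Fin (q + 1), s'.1 = u.1 → s' = u := fun u hu => Fin.ext hu
    have hs' := s'.2
    cases b' with
    | false =>
      simp [-Fin.val_eq_zero_iff] at h hw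
      rcases h with ⟨h1, h2 | h2⟩
      · right; left
        rw [h1, e1 s (by omega)]
      · right; right; left
        rw [h1, e1 t (by omega)]
    | true =>
      simp [-Fin.val_eq_zero_iff] at h hw
      rcases h with h | h | h
      · left; rw [← h.1, ← h.2]
      · exfalso
        split_ifs at hw <;> omega
      · right; right; right
        rw [h.1, e1 t (by omega)]
  | px x' =>
    simp only [rk] at hw
    omega
  | pw w' =>
    simp only [rk] at hw
    omega

theorem adj_ft (x : P) (s : Fin (q + 1)) : M (σ.root q) (.g x false s) (.g x true s) := by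
  rw [M_root]; simp [Sol.EH]

theorem adj_bb (x : P) (b : Bool) (s t : Fin (q + 1)) (hst : s.1 = t.1 + 1) :
    M (σ.root q) (.g x b t) (.g x b s) := by
  rw [M_root]; right; left
  exact ⟨rfl, Or.inl ⟨rfl, hst⟩⟩

theorem adj_up (x : P) (s t : Fin (q + 1)) (hst : s.1 = t.1 + 1) :
    M (σ.root q) (.g x false t) (.g x true s) := by
  rw [M_root]; right; left
  exact ⟨rfl, Or.inr ⟨rfl, rfl, Or.inr hst⟩⟩

theorem case_g_false (x : P) (s t : Fin (q + 1)) (hst : s.1 = t.1 + 1)
    (a b : Vtx P I J q)
    (ha : M (σ.root q) (.g x false s) a) (hb : M (σ.root q) (.g x false s) b)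
    (ha' : rk σ q T (.g x false s) ≤ rk σ q T a) (hb' : rk σ q T (.g x false s) ≤ rk σ q T b) :
    Le σ q T (.g x false s) a b ∨ Le σ q T (.g x false s) b a := by
  have hr : rk σ q T (.g x false s : Vtx P I J q) = q + 2 + 2 * (q - s.1) := by
    simp only [rk]
    rw [if_neg (by omega)]
    simp
  apply three σ (.g x false s) (.g x true s) (.g x false t) _ _ _ a b ha hb ha' hb'
  · intro w hw h
    exact cls_g_false σ x s t hst w (hr ▸ hw) h
  · intro w hw h
    rcases cls_g_false σ x s t hst w (hr ▸ hw) h with rfl | rfl | rfl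
    · exact (adj_ft σ x s).symm
    · exact M.refl _
    · exact (adj_up σ x s _ hst).symm
  · intro w hw h
    rcases cls_g_true σ x s t hst w (hr ▸ hw) h with rfl | rfl | rfl | rfl
    · exact adj_up σ x s t hst
    · exact adj_bb σ x false s t hst
    · exact M.refl _
    · exact adj_ft σ x t

theorem case_g_true (x : P) (s t : Fin (q + 1)) (hst : s.1 = t.1 + 1)
    (a b : Vtx P I J q)
    (ha : M (σ.root q) (.g x true s) a) (hb : M (σ.root q) (.g x true s) b)
    (ha' : rk σ q T (.g x true s) ≤ rk σ q T a) (hb' : rk σ q T (.g x true s) ≤ rk σ q T b) :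
    Le σ q T (.g x true s) a b ∨ Le σ q T (.g x true s) b a := by
  have hr : rk σ q T (.g x true s : Vtx P I J q) = q + 2 + 2 * (q - s.1) + 1 := by
    simp only [rk]
    rw [if_neg (by omega)]
    simp
  have hf : ∀ w : Vtx P I J q, rk σ q T (.g x true s : Vtx P I J q) ≤ rk σ q T w →
      w ≠ .g x false s := by
    rintro w hw rfl
    rw [hr] at hw
    simp only [rk] at hw
    rw [if_neg (by omega)] at hw
    simp at hw
  apply three σ (.g x true s) (.g x false t) (.g x true t) _ _ _ a b ha hb ha' hb'
  · intro w hw h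
    rcases cls_g_true σ (T := T) x s t hst w (by omega) h with h1 | h1 | h1 | h1
    · exact Or.inl h1
    · exact absurd h1 (hf w hw)
    · exact Or.inr (Or.inl h1)
    · exact Or.inr (Or.inr h1)
  · intro w hw h
    rcases cls_g_true σ (T := T) x s t hst w (by omega) h with rfl | rfl | rfl | rfl
    · exact adj_up σ x s t hst
    · exact absurd rfl (hf _ hw)
    · exact M.refl _
    · exact adj_ft σ x t
  · intro w hw h
    by_cases ht : t.1 = 0
    · have ht' : t = 0 := Fin.ext ht
      subst ht'
      by_cases hw' : 3 * q + 4 ≤ rk σ q T w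
      · rcases high σ w hw' with rfl | rfl | ⟨B, rfl⟩ | ⟨x', b', rfl⟩
        · exact (M_tau0 σ (T := T) _ (by
            simp only [rk, Fin.val_zero, if_true]
            omega)).symm
        · exact absurd h (not_M_g_zeta σ x false)
        · exact ((M_big_g σ B x true).2 (nb_mono σ B x ((M_big_g σ B x false).1 h.symm))).symm
        · rw [M_g_g] at h ⊢
          exact h
      · rw [M_root] at h
        cases w with
        | tau a =>
          simp [Sol.EH, -Fin.val_eq_zero_iff] at h
          simp [rk, h] at hw'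
          omega
        | zeta a => simp [Sol.EH, -Fin.val_eq_zero_iff] at h
        | big B => simp [rk] at hw'; omega
        | g x' b' s' =>
          have e1 : ∀ u : Fin (q + 1), s'.1 = u.1 → s' = u := fun u hu => Fin.ext hu
          have hs' : s'.1 = s.1 := by
            rw [hr] at hw
            simp only [rk] at hw hw'
            have h1 := s'.2
            have h2 := s.2
            by_cases h3 : s'.1 = 0
            · rw [if_pos h3] at hw'
              exfalso
              split_ifs at hw' <;> omega
            · simp only [Sol.EH, Vtx.g.injEq] at h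
              rw [if_neg h3] at hw
              cases b' <;> simp [-Fin.val_eq_zero_iff] at h hw <;> omega
          rw [e1 s hs'] at h hw ⊢
          simp only [Sol.EH, Vtx.g.injEq] at h
          have hxx : x = x' := by
            rcases h with h | h | h
            · exact h.1
            · exact h.1
            · exact h.1.symm
          subst hxx
          cases b' with
          | false => exact absurd rfl (hf _ hw)
          | true => exact adj_bb σ x true s 0 hst
        | px x' => rw [hr] at hw; simp only [rk] at hw; omega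
        | pw w' => rw [hr] at hw; simp only [rk] at hw; omega
    · rw [M_root] at h
      cases w with
      | tau a => simp [Sol.EH, -Fin.val_eq_zero_iff] at h; omega
      | zeta a => simp [Sol.EH, -Fin.val_eq_zero_iff] at h
      | big B => simp [Sol.EH, -Fin.val_eq_zero_iff] at h; omega
      | g x' b' s' =>
        have hxx : x' = x := by
          simp only [Sol.EH, Vtx.g.injEq] at h
          rcases h with h | h | h
          · exact h.1.symm
          · exact h.1.symm
          · exact h.1
        subst hxx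
        have h4 := hf _ hw
        rw [hr] at hw
        rw [M_root]
        simp only [Sol.EH, Vtx.g.injEq, rk] at h hw ⊢
        have h1 := s'.2
        have h2 := s.2
        have e1 : ∀ u : Fin (q + 1), s'.1 = u.1 → s' = u := fun u hu => Fin.ext hu
        have h5 : ¬ (b' = false ∧ s'.1 = s.1) := by
          rintro ⟨rfl, h6⟩
          exact h4 (by rw [e1 s h6])
        cases b' with
        | false =>
          have h6 : s'.1 ≠ s.1 := fun h6 => h5 ⟨rfl, h6⟩
          simp only [Fin.ext_iff] at h
          have h7 : t.1 = s'.1 ∨ t.1 = s'.1 + 1 := by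
            rcases h with h | h | h
            · exact Or.inl h.2.2
            · rcases h.2 with h | h
              · omega
              · exact absurd h.2.1 (by simp)
            · rcases h.2 with h | h
              · exact Or.inr h.2
              · exact absurd h.2.1 (by simp)
          exact Or.inr (Or.inr ⟨trivial, Or.inr ⟨rfl, trivial, h7⟩⟩)
        | true =>
          simp only [Fin.ext_iff] at h
          have h7 : s'.1 = t.1 ∨ s'.1 = t.1 + 1 := by
            rcases h with h | h | h
            · exact absurd h.2.1 (by simp)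
            · rcases h.2 with h | h
              · exact absurd h.1 (by simp)
              · exact h.2.2
            · rcases h.2 with h | h
              · exact absurd h.1 (by simp)
              · exact absurd h.2.1 (by simp)
          rcases h7 with h7 | h7
          · left; exact ⟨trivial, rfl, (e1 t h7).symm⟩
          · exact Or.inr (Or.inl ⟨trivial, Or.inl ⟨rfl, h7⟩⟩)
      | px x' => rw [hr] at hw; simp only [rk] at hw; omega
      | pw w' => rw [hr] at hw; simp only [rk] at hw; omega

end OrderAux

open OrderAux in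
theorem Sol.root_stronglyChordal (σ : Sol N) (q T : ℕ) (hT : ∀ x, N.val x ≤ T) :
    StronglyChordal (σ.root q) := by
  apply stronglyChordal_of_elim (rk σ q T)
  intro v a b ha hb ha' hb'
  change Le σ q T v a b ∨ Le σ q T v b a
  cases v with
  | tau c =>
    by_cases hc : c.1 = 0
    · exact case_top σ _ hT (by simp only [rk]; rw [if_pos hc]) a b ha' hb'
    · have h1 := c.2
      apply pendant σ _ (.tau ⟨c.1 - 1, by omega⟩) _ a b ha hb ha' hb'
      intro w hw h
      rw [M_root] at h
      cases w with
      | tau d =>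
        have h2 := d.2
        simp only [rk] at hw
        rw [if_neg hc] at hw
        simp only [Sol.EH, Vtx.tau.injEq, Fin.ext_iff] at h ⊢
        rcases h with h | h | h
        · exact Or.inl h.symm
        · exfalso
          rw [if_neg (by omega)] at hw
          omega
        · right; omega
      | zeta d => simp [Sol.EH, -Fin.val_eq_zero_iff] at h; omega
      | big B => simp [Sol.EH, -Fin.val_eq_zero_iff] at h; omega
      | g x' b' s' => simp [Sol.EH, -Fin.val_eq_zero_iff] at h; omega
      | px x' => simp [Sol.EH] at h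
      | pw w' => simp [Sol.EH] at h
  | zeta c =>
    by_cases hc : c.1 = 0
    · exact case_top σ _ hT (by simp only [rk]; rw [if_pos hc]) a b ha' hb'
    · have h1 := c.2
      apply pendant σ _ (.zeta ⟨c.1 - 1, by omega⟩) _ a b ha hb ha' hb'
      intro w hw h
      rw [M_root] at h
      cases w with
      | zeta d =>
        have h2 := d.2
        simp only [rk] at hw
        rw [if_neg hc] at hw
        simp only [Sol.EH, Vtx.zeta.injEq, Fin.ext_iff] at h ⊢
        rcases h with h | h | h
        · exact Or.inl h.symm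
        · exfalso
          rw [if_neg (by omega)] at hw
          omega
        · right; omega
      | tau d => simp [Sol.EH, -Fin.val_eq_zero_iff] at h; omega
      | big B => simp [Sol.EH, -Fin.val_eq_zero_iff] at h; omega
      | g x' b' s' => simp [Sol.EH, -Fin.val_eq_zero_iff] at h
      | px x' => simp [Sol.EH] at h
      | pw w' => simp [Sol.EH] at h
  | big B => exact case_top σ _ hT (by simp only [rk]; omega) a b ha' hb'
  | g x b₀ s =>
    by_cases hs : s.1 = 0
    · have hs' : s = 0 := Fin.ext hs
      subst hs'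
      exact case_g0 σ x b₀ hT a b ha hb ha' hb'
    · have h1 := s.2
      cases b₀ with
      | true =>
        exact case_g_true σ x s ⟨s.1 - 1, by omega⟩ (by simp only; omega) a b ha hb ha' hb'
      | false =>
        exact case_g_false σ x s ⟨s.1 - 1, by omega⟩ (by simp only; omega) a b ha hb ha' hb'
  | px x =>
    apply pendant σ _ (.g x (σ.y x) ⟨q, by omega⟩) _ a b ha hb ha' hb'
    intro w _ h
    rw [M_root] at h
    cases w with
    | tau d => simp [Sol.EH] at h
    | zeta d => simp [Sol.EH] at h
    | big B => simp [Sol.EH] at h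
    | g x' b' s' =>
      simp only [Sol.EH] at h
      rcases h with h | h | ⟨h1, h2, h3⟩
      · exact absurd h (by simp)
      · exact absurd h (by simp)
      · right
        subst h1
        rw [h2]
        congr 1
        exact Fin.ext h3
    | px x' =>
      simp [Sol.EH] at h
      left; rw [h]
    | pw w' => simp [Sol.EH] at h
  | pw w₀ =>
    apply pendant σ _ (.big (σ.cen w₀)) _ a b ha hb ha' hb'
    intro w _ h
    rw [M_root] at h
    cases w with
    | tau d => simp [Sol.EH] at h
    | zeta d => simp [Sol.EH] at h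
    | big B =>
      simp [Sol.EH] at h
      right; rw [h]
    | g x' b' s' => simp [Sol.EH] at h
    | px x' => simp [Sol.EH] at h
    | pw w' =>
      simp [Sol.EH] at h
      left; rw [h]

end Pool.Agent.Lib.P74a0dc
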