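import Pool.Agent.Lib.P74a0dc.Poly
import Pool.Agent.Lib.P74a0dc.Back
import Pool.Agent.Lib.P74a0dc.Dist
import Pool.Agent.Lib.P74a0dc.Order

set_option autoImplicit false

/-!
Assembly.
-/

namespace Pool.Agent.Lib.P74a0dc

open Pool.Agent.Lib.P2ba8ab Pool.Agent.Lib.PolyTime

/-- `G` is the `k`-th power of a strongly chordal graph -/
def IsPow {V : Type} (k : ℕ) (G : SimpleGraph V) : Prop :=
  ∃ H : SimpleGraph V, StronglyChordal H ∧ gpow H k = G

theorem StronglyChordal.comap {V W : Type} {H : SimpleGraph V} (e : W ≃ V)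
    (h : StronglyChordal H) : StronglyChordal (H.comap e) := by
  refine ⟨fun n hn c hc hadj => ?_, fun n hn hev c hc hadj => ?_⟩
  · exact h.1 n hn (fun i => e (c i)) (e.injective.comp hc) hadj
  · exact h.2 n hn hev (fun i => e (c i)) (e.injective.comp hc) hadj

theorem R_comap {V W : Type} {H : SimpleGraph V} (e : W ≃ V) (n : ℕ) (u v : W) :
    R (H.comap e) Set.univ n u v ↔ R H Set.univ n (e u) (e v) := by
  induction n generalizing u with
  | zero => exact e.injective.eq_iff.symm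
  | succ n ih =>
    constructor
    · rintro ⟨x, -, h1, h2⟩
      refine ⟨e x, Set.mem_univ _, ?_, (ih x).1 h2⟩
      rcases h1 with h1 | h1
      · exact Or.inl (congrArg e h1)
      · exact Or.inr h1
    · rintro ⟨x, -, h1, h2⟩
      refine ⟨e.symm x, Set.mem_univ _, ?_, (ih _).2 (by simpa using h2)⟩
      rcases h1 with h1 | h1
      · exact Or.inl (by rw [← h1]; simp)
      · exact Or.inr (by simpa using h1)

theorem gpow_comap {V W : Type} {H : SimpleGraph V} (e : W ≃ V) (k : ℕ) :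
    gpow (H.comap e) k = (gpow H k).comap e := by
  ext u v
  rw [gpow_adj, SimpleGraph.comap_adj, gpow_adj, R_comap]
  simp

theorem isPow_comap {V W : Type} {G : SimpleGraph V} (e : W ≃ V) (k : ℕ) :
    IsPow k (G.comap e) ↔ IsPow k G := by
  constructor
  · rintro ⟨H, h1, h2⟩
    refine ⟨H.comap e.symm, h1.comap e.symm, ?_⟩
    rw [gpow_comap, h2]
    ext u v
    simp
  · rintro ⟨H, h1, h2⟩
    exact ⟨H.comap e, h1.comap e, by rw [gpow_comap, h2]⟩

theorem Inst.Solvable.sol {P I J : Type} {N : Inst P I J} (h : N.Solvable) : Nonempty (Sol N) := by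
  classical
  obtain ⟨y, h1, h2⟩ := h
  choose Y hY using h1
  choose sel hs hu using h2
  exact ⟨⟨y, Y, sel, fun i x hx => hY i x hx, fun j => (hs j).1, fun j => (hs j).2,
    fun x hx => hu _ x ⟨rfl, hx⟩⟩⟩

theorem isPow_GK {P I J : Type} [Finite P] [Finite I] [Finite J] (N : Inst P I J) (q : ℕ)
    (hnu : ∀ i, 1 ≤ N.nu i)
    (hd : IsEmpty J ∨ ∃ d d' : P, N.val d = 0 ∧ N.val d' = 0 ∧ N.cl d ≠ N.cl d') :
    IsPow (q + 2) (N.GK q) ↔ N.Solvable := by
  constructor
  · rintro ⟨H, h1, h2⟩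
    rcases hd with hd | ⟨d, d', hd, hd', hcl⟩
    · have : IsEmpty P := ⟨fun x => hd.elim (N.cl x)⟩
      exact ⟨fun x => this.elim x, fun i => ⟨true, fun x => this.elim x⟩, fun j => hd.elim j⟩
    · exact back N q hnu d d' hd hd' hcl H h1 h2
  · intro h
    obtain ⟨σ⟩ := h.sol
    have := Fintype.ofFinite P
    exact ⟨σ.root q, σ.root_stronglyChordal q (∑ x, N.val x)
      (fun x => Finset.single_le_sum (f := N.val) (fun _ _ => Nat.zero_le _) (Finset.mem_univ x)),
      σ.gpow_root q⟩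

theorem red_spec (q : ℕ) (g : Gr) : g.G.Colorable 3 ↔ IsPow (q + 2) (red q g).G := by
  refine Iff.trans ?_ (isPow_comap (num g.n q) (q + 2)).symm
  rw [isPow_GK, ofG_solvable g.G (adjN g) (adjN_fin g)]
  · intro i
    change 1 ≤ 1 + _
    omega
  · by_cases hn : g.n = 0
    · left
      refine ⟨fun j => ?_⟩
      have := j.1.1.2
      omega
    · right
      let v : Fin g.n := ⟨0, by omega⟩
      refine ⟨((v, v), (2, 0)), ((v, v), (2, 1)), by simp [ofG], by simp [ofG], ?_⟩
      simp [ofG]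

end Pool.Agent.Lib.P74a0dc
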