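import Pool.Agent.Lib.P74a0dc.Lex

set_option autoImplicit false

/-!
The disks of a graph with `HasMax` have the Helly property.
-/

namespace Pool.Agent.Lib.P74a0dc

variable {V : Type} {G : SimpleGraph V}

namespace HellyAux

/-- walks are mapped by maps preserving the closed adjacency -/
theorem R_map {S T : Set V} (f : V → V) (hf : ∀ x ∈ S, f x ∈ T)
    (hM : ∀ x ∈ S, ∀ y ∈ S, M G x y → M G (f x) (f y)) {n : ℕ} {u v : V} (hu : u ∈ S)
    (h : R G S n u v) : R G T n (f u) (f v) := by
  induction n generalizing u with
  | zero => exact congrArg f h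
  | succ n ih =>
    obtain ⟨x, hx, h1, h2⟩ := h
    exact ⟨f x, hf x hx, hM u hu x hx h1, ih hx h2⟩

/-- an isolated vertex is only connected to itself -/
theorem R_iso {S : Set V} {s : V} (hs : ∀ x ∈ S, M G s x → x = s) {n : ℕ} {v : V}
    (h : R G S n s v) : v = s := by
  induction n with
  | zero => exact Eq.symm h
  | succ n ih =>
    obtain ⟨x, hx, h1, h2⟩ := h
    have := hs x hx h1
    subst this
    exact ih h2

theorem main [DecidableEq V] (hG : HasMax G) {ι : Type} [Nonempty ι] (n : ℕ) :
    ∀ S : Finset V, S.card = n → ∀ (v : ι → V) (ρ : ι → ℕ), (∀ i, v i ∈ S) →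
      (∀ i j, R G (S : Set V) (ρ i + ρ j) (v i) (v j)) →
      ∃ c ∈ S, ∀ i, R G (S : Set V) (ρ i) c (v i) := by
  induction n with
  | zero =>
    intro S hS v ρ hv _
    rw [Finset.card_eq_zero] at hS
    subst hS
    exact absurd (hv (Classical.arbitrary ι)) (by simp)
  | succ n ih =>
    intro S hS v ρ hv hp
    by_cases h0 : ∃ i, ρ i = 0
    · obtain ⟨i, hi⟩ := h0
      refine ⟨v i, hv i, fun j => ?_⟩
      have := hp i j
      rwa [hi, zero_add] at this
    · push Not at h0
      have hSne : S.Nonempty := Finset.card_pos.1 (by omega)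
      obtain ⟨s, hs, hmax⟩ := hG S hSne
      have hcard : (S.erase s).card = n := by rw [Finset.card_erase_of_mem hs]; omega
      have hsub : ((S.erase s : Finset V) : Set V) ⊆ (S : Set V) := by
        intro x hx
        exact Finset.mem_of_mem_erase hx
      rcases hmax with hiso | ⟨m, hm, hms, hsm, hdom⟩
      · -- isolated
        by_cases hvs : ∃ i, v i = s
        · obtain ⟨i, hi⟩ := hvs
          refine ⟨s, hs, fun j => ?_⟩
          have h1 := hp i j
          rw [hi] at h1
          have h2 := R_iso (S := (S : Set V)) hiso h1
          rw [h2]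
          exact R.refl hs
        · push Not at hvs
          have hR : ∀ (k : ℕ) (a b : V), a ∈ S → a ≠ s → R G (S : Set V) k a b →
              R G ((S.erase s : Finset V) : Set V) k a b := by
            intro k
            induction k with
            | zero => exact fun a b _ _ h => h
            | succ k ihk =>
              rintro a b ha hane ⟨x, hx, h1, h2⟩
              have hxs : x ≠ s := by
                rintro rfl
                exact hane (hiso a ha h1.symm)
              exact ⟨x, Finset.mem_erase.2 ⟨hxs, hx⟩, h1, ihk x b hx hxs h2⟩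
          obtain ⟨c, hc, hc2⟩ := ih (S.erase s) hcard v ρ
            (fun i => Finset.mem_erase.2 ⟨hvs i, hv i⟩)
            (fun i j => hR _ _ _ (hv i) (hvs i) (hp i j))
          exact ⟨c, Finset.mem_of_mem_erase hc, fun i => (hc2 i).mono_set hsub⟩
      · -- the retraction to `m`
        let f : V → V := fun x => if x = s then m else x
        have hfs : f s = m := by simp [f]
        have hfn : ∀ x, x ≠ s → f x = x := fun x hx => by simp [f, hx]
        have hmE : m ∈ S.erase s := Finset.mem_erase.2 ⟨hms, hm⟩
        have hf : ∀ x ∈ (S : Set V), f x ∈ ((S.erase s : Finset V) : Set V) := by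
          intro x hx
          by_cases hxs : x = s
          · rw [hxs, hfs]
            exact hmE
          · rw [hfn x hxs]
            exact Finset.mem_erase.2 ⟨hxs, hx⟩
        have hfM : ∀ x ∈ (S : Set V), ∀ y ∈ (S : Set V), M G x y → M G (f x) (f y) := by
          have hsy : ∀ y ∈ S, M G s y → M G m y := fun y hy h =>
            hdom s hs (M.refl s) y hy h
          intro x hx y hy hxy
          by_cases hxs : x = s <;> by_cases hys : y = s
          · rw [hxs, hys]
            exact M.refl _
          · rw [hxs, hfs, hfn y hys]
            exact hsy y hy (hxs ▸ hxy)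
          · rw [hys, hfs, hfn x hxs]
            exact (hsy x hx (hys ▸ hxy.symm)).symm
          · rw [hfn x hxs, hfn y hys]
            exact hxy
        let ρ' : ι → ℕ := fun i => if v i = s then ρ i - 1 else ρ i
        have hρs : ∀ i, v i = s → ρ' i = ρ i - 1 := fun i hi => by simp [ρ', hi]
        have hρn : ∀ i, v i ≠ s → ρ' i = ρ i := fun i hi => by simp [ρ', hi]
        -- one step less from `m`
        have hstep : ∀ i j, v i = s → v j ≠ s → R G ((S.erase s : Finset V) : Set V)
            (ρ' i + ρ' j) (f (v i)) (f (v j)) := by
          intro i j hi hj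
          have h1 := hp i j
          rw [hi] at h1
          have hi0 := h0 i
          have hj0 := h0 j
          obtain ⟨e, he⟩ : ∃ e, ρ i + ρ j = e + 2 := ⟨ρ i + ρ j - 2, by omega⟩
          rw [he] at h1
          obtain ⟨x, hx, h2, y, hy, h3, h4⟩ := h1
          have h5 : R G (S : Set V) (e + 1) m (v j) := ⟨y, hy, hdom x hx h2 y hy h3, h4⟩
          have h6 := R_map f hf hfM hm h5
          rw [hfn m hms, hfn _ hj] at h6
          rw [hρs i hi, hρn j hj, hi, hfs, hfn _ hj]
          have e1 : ρ i - 1 + ρ j = e + 1 := by omega
          rw [e1]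
          exact h6
        obtain ⟨c, hc, hc2⟩ := ih (S.erase s) hcard (fun i => f (v i)) ρ'
          (fun i => hf _ (hv i)) (by
            intro i j
            by_cases hi : v i = s <;> by_cases hj : v j = s
            · rw [hi, hj]
              exact R.refl (hf s hs)
            · exact hstep i j hi hj
            · have := (hstep j i hj hi).symm (hf _ (hv j))
              rwa [Nat.add_comm] at this
            · rw [hρn i hi, hρn j hj]
              exact R_map f hf hfM (hv i) (hp i j))
        refine ⟨c, Finset.mem_of_mem_erase hc, fun i => ?_⟩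
        have h1 := (hc2 i).mono_set hsub
        by_cases hi : v i = s
        · rw [hi, hfs, hρs i hi] at h1
          have h2 := h1.snoc hsm.symm (show s ∈ (S : Set V) from hs)
          rw [hi]
          have hi0 := h0 i
          rwa [show ρ i - 1 + 1 = ρ i by omega] at h2
        · rw [hfn _ hi, hρn i hi] at h1
          exact h1

end HellyAux

theorem HasMax.helly [Finite V] (hG : HasMax G) {ι : Type} [Nonempty ι] (v : ι → V) (ρ : ι → ℕ)
    (hp : ∀ i j, R G Set.univ (ρ i + ρ j) (v i) (v j)) :
    ∃ c, ∀ i, R G Set.univ (ρ i) c (v i) := by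
  classical
  have := Fintype.ofFinite V
  obtain ⟨c, -, hc⟩ := HellyAux.main hG _ (Finset.univ : Finset V) rfl v ρ
    (fun i => Finset.mem_univ _) (by simpa using hp)
  exact ⟨c, by simpa using hc⟩

end Pool.Agent.Lib.P74a0dc
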