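import Pool.Agent.Lib.P74a0dc.NoCyc

set_option autoImplicit false

/-!
If the neighbourhood matrix has no chordless cycles then every nonempty finite set `S` contains a
vertex with a maximum neighbour.
-/

namespace Pool.Agent.Lib.P74a0dc

variable {V : Type} {G : SimpleGraph V}

/-- every nonempty set contains an isolated vertex or a vertex with a maximum neighbour -/
def HasMax (G : SimpleGraph V) : Prop :=
  ∀ S : Finset V, S.Nonempty → ∃ s ∈ S, (∀ x ∈ S, M G s x → x = s) ∨
    ∃ m ∈ S, m ≠ s ∧ M G s m ∧ ∀ x ∈ S, M G s x → ∀ y ∈ S, M G x y → M G m y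

namespace LexAux

open Finset

/-- if the bijection `σ` is optimal for the weights `w` then `w` increases with `σ` -/
theorem opt_mono {A : Type} [Fintype A] {n : ℕ} (w : A → ℕ) (σ : A ≃ Fin n)
    (hσ : ∀ σ' : A ≃ Fin n, ∑ a, w a * 2 ^ (σ' a).1 ≤ ∑ a, w a * 2 ^ (σ a).1) {a a' : A}
    (h : σ a < σ a') : w a ≤ w a' := by
  classical
  have hne : a ≠ a' := by
    rintro rfl
    exact lt_irrefl _ h
  have h1 := hσ ((Equiv.swap a a').trans σ)
  have e : ∀ f : A → ℕ, ∑ x, f x = f a + (f a' + ∑ x ∈ (univ.erase a).erase a', f x) := by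
    intro f
    rw [add_sum_erase _ _ (by simp [hne.symm]), add_sum_erase _ _ (mem_univ a)]
  rw [e, e (fun x => w x * 2 ^ (σ x).1)] at h1
  have h2 : ∑ x ∈ (univ.erase a).erase a', w x * 2 ^ (((Equiv.swap a a').trans σ) x).1 =
      ∑ x ∈ (univ.erase a).erase a', w x * 2 ^ (σ x).1 := by
    refine sum_congr rfl fun x hx => ?_
    simp only [mem_erase, mem_univ, and_true] at hx
    rw [Equiv.trans_apply, Equiv.swap_apply_of_ne_of_ne hx.2 hx.1]
  rw [h2] at h1
  simp only [Equiv.trans_apply, Equiv.swap_apply_left, Equiv.swap_apply_right] at h1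
  have h3 : 2 ^ (σ a).1 < 2 ^ (σ a').1 := Nat.pow_lt_pow_right (by norm_num) h
  have h4 : w a * 2 ^ (σ a').1 + w a' * 2 ^ (σ a).1 ≤
      w a * 2 ^ (σ a).1 + w a' * 2 ^ (σ a').1 := by omega
  by_contra hcon
  push Not at hcon
  obtain ⟨d, hd⟩ := Nat.exists_eq_add_of_lt hcon
  obtain ⟨c, hc⟩ := Nat.exists_eq_add_of_lt h3
  rw [hd, hc] at h4
  nlinarith

open Classical in
/-- comparison of binary numbers -/
theorem last_diff {A : Type} [Fintype A] {n : ℕ} (τ : A ≃ Fin n) (p p' : A → Prop)
    (h : ∑ c, (if p c then 1 else 0) * 2 ^ (τ c).1 ≤ ∑ c, (if p' c then 1 else 0) * 2 ^ (τ c).1)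
    (c : A) (hc : ¬ (p c ↔ p' c)) (hmax : ∀ c', ¬ (p c' ↔ p' c') → τ c' ≤ τ c) :
    ¬ p c ∧ p' c := by
  by_contra hcon
  have hc1 : p c ∧ ¬ p' c := by tauto
  have hsplit : ∀ f : A → ℕ, ∑ x, f x = ∑ x ∈ univ.filter (fun x => τ c < τ x), f x +
      (f c + ∑ x ∈ univ.filter (fun x => τ x < τ c), f x) := by
    intro f
    rw [← sum_filter_add_sum_filter_not univ (fun x => τ c < τ x)]
    congr 1
    have hm : c ∈ univ.filter (fun x => ¬ τ c < τ x) := by simp
    rw [← add_sum_erase _ _ hm]
    congr 1
    refine sum_congr ?_ fun _ _ => rfl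
    ext x
    simp only [mem_erase, mem_filter, mem_univ, true_and, not_lt]
    constructor
    · rintro ⟨h1, h2⟩
      exact lt_of_le_of_ne h2 fun h => h1 (τ.injective h)
    · intro h1
      exact ⟨fun h => by subst h; exact lt_irrefl _ h1, h1.le⟩
  rw [hsplit, hsplit (fun c => (if p' c then 1 else 0) * 2 ^ (τ c).1)] at h
  have h1 : ∑ x ∈ univ.filter (fun x => τ c < τ x), (if p x then 1 else 0) * 2 ^ (τ x).1 =
      ∑ x ∈ univ.filter (fun x => τ c < τ x), (if p' x then 1 else 0) * 2 ^ (τ x).1 := by
    refine sum_congr rfl fun x hx => ?_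
    simp only [mem_filter, mem_univ, true_and] at hx
    have : p x ↔ p' x := by
      by_contra h'
      exact absurd (hmax x h') (not_le.2 hx)
    simp only [this]
  rw [h1, if_pos hc1.1, if_neg hc1.2] at h
  have h2 : ∑ x ∈ univ.filter (fun x => τ x < τ c), (if p' x then 1 else 0) * 2 ^ (τ x).1 <
      2 ^ (τ c).1 := by
    calc ∑ x ∈ univ.filter (fun x => τ x < τ c), (if p' x then 1 else 0) * 2 ^ (τ x).1
        ≤ ∑ x ∈ univ.filter (fun x => τ x < τ c), 2 ^ (τ x).1 := by
          refine sum_le_sum fun x _ => ?_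
          split_ifs <;> simp
      _ = ∑ k ∈ (univ.filter (fun x => τ x < τ c)).image (fun x => (τ x).1), 2 ^ k := by
          rw [sum_image]
          intro x _ y _ hxy
          exact τ.injective (Fin.ext hxy)
      _ < 2 ^ (τ c).1 := by
          refine Nat.geomSum_lt (by norm_num) ?_
          intro k hk
          simp only [mem_image, mem_filter, mem_univ, true_and] at hk
          obtain ⟨x, hx, rfl⟩ := hk
          exact hx
  simp only [one_mul, zero_mul, zero_add] at h
  omega

section zig

variable {A : Type}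

open Classical in
/-- the last place where two predicates differ -/
noncomputable def ld {n : ℕ} (τ : A ≃ Fin n) (p p' : A → Prop) (d : A) : A :=
  if h : ∃ c, ¬ (p c ↔ p' c) ∧ ∀ c', ¬ (p c' ↔ p' c') → τ c' ≤ τ c then h.choose else d

theorem ld_spec [Fintype A] {n : ℕ} (τ : A ≃ Fin n) (p p' : A → Prop) (d : A)
    (h : ∃ c, ¬ (p c ↔ p' c)) :
    ¬ (p (ld τ p p' d) ↔ p' (ld τ p p' d)) ∧ ∀ c', ¬ (p c' ↔ p' c') → τ c' ≤ τ (ld τ p p' d) := by
  classical
  have h1 : ∃ c, ¬ (p c ↔ p' c) ∧ ∀ c', ¬ (p c' ↔ p' c') → τ c' ≤ τ c := by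
    obtain ⟨c0, hc0⟩ := h
    obtain ⟨c, hc, hmax⟩ := exists_max_image (univ.filter fun c => ¬ (p c ↔ p' c)) τ
      ⟨c0, by simpa using hc0⟩
    refine ⟨c, (mem_filter.1 hc).2, fun c' hc' => hmax c' (mem_filter.2 ⟨mem_univ _, hc'⟩)⟩
  unfold ld
  rw [dif_pos h1]
  exact h1.choose_spec

/-- the zigzag sequence -/
noncomputable def zig (LR LC : A → A → A) (a b : A × A) : ℕ → A × A
  | 0 => a
  | 1 => b
  | t + 2 => (LR (zig LR LC a b t).2 (zig LR LC a b (t + 1)).2,
      LC (zig LR LC a b t).1 (zig LR LC a b (t + 1)).1)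

end zig

/-- the value of a successor in `ZMod n` -/
theorem val_succ {n : ℕ} [NeZero n] (hn : 2 ≤ n) (q : ZMod n) :
    (q + 1).val = if q.val + 1 = n then 0 else q.val + 1 := by
  have h1 : (1 : ZMod n).val = 1 := by
    have : Fact (1 < n) := ⟨by omega⟩
    exact ZMod.val_one n
  have hq := q.val_lt
  rw [ZMod.val_add, h1]
  split_ifs with h
  · rw [h, Nat.mod_self]
  · exact Nat.mod_eq_of_lt (by omega)

/-- from chordless sequences on `0, …, 2 T - 1` to `NoZig` -/
theorem noZig_nat (hG : NoZig G) (T : ℕ) (hT : 3 ≤ T) (f : ℕ → V)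
    (h1 : ∀ i, i + 1 < 2 * T → M G (f i) (f (i + 1))) (h2 : M G (f (2 * T - 1)) (f 0))
    (h3 : ∀ a b, a < b → b < 2 * T → Odd (b - a) → b ≠ a + 1 → ¬ (a = 0 ∧ b = 2 * T - 1) →
      ¬ M G (f a) (f b)) : False := by
  have : NeZero (2 * T) := ⟨by omega⟩
  have key : ∀ q q' : ZMod (2 * T), q.val < q'.val → Odd (q'.val - q.val) → q' ≠ q + 1 →
      q ≠ q' + 1 → ¬ M G (f q.val) (f q'.val) := by
    intro q q' hlt hodd hne hne'
    refine h3 _ _ hlt q'.val_lt hodd ?_ ?_
    · intro h
      apply hne
      apply ZMod.val_injective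
      rw [val_succ (by omega), if_neg (by have := q'.val_lt; omega), h]
    · rintro ⟨h4, h5⟩
      apply hne'
      apply ZMod.val_injective
      rw [val_succ (by omega), if_pos (by omega), h4]
  refine hG T hT (fun q => f q.val) ?_ ?_
  · intro q
    have hq := q.val_lt
    simp only [val_succ (show 2 ≤ 2 * T by omega)]
    split_ifs with h
    · have : q.val = 2 * T - 1 := by omega
      rw [this]
      exact h2
    · exact h1 _ (by omega)
  · intro q q' hodd hne hne'
    have hq := q.val_lt
    have hq' := q'.val_lt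
    rcases lt_trichotomy q.val q'.val with h | h | h
    · rw [ZMod.val_sub h.le] at hodd
      exact key q q' h hodd hne hne'
    · have : q' = q := ZMod.val_injective _ h.symm
      subst this
      simp at hodd
    · have h4 : q' - q = -(q - q') := by ring
      have h5 : q - q' ≠ 0 := by
        intro h6
        rw [sub_eq_zero] at h6
        rw [h6] at h
        exact lt_irrefl _ h
      have : NeZero (q - q') := ⟨h5⟩
      rw [h4, ZMod.val_neg_of_ne_zero, ZMod.val_sub h.le] at hodd
      refine fun hM => key q' q h ?_ hne' hne hM.symm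
      rw [Nat.odd_iff] at hodd ⊢
      omega

/-- the closed sequence made of the two arms -/
theorem closed (hG : NoZig G) (i j : ℕ → V) (t : ℕ)
    (h : ∀ a b, a ≤ t + 2 → b ≤ t + 2 → ¬ (a = t + 2 ∧ b = t + 2) →
      (M G (i a) (j b) ↔ (a = 0 ∧ b = 0) ∨ b = a + 1 ∨ a = b + 1)) :
    ¬ M G (i (t + 2)) (j (t + 2)) := by
  intro hlast
  let B : ℕ → V := fun s => if s % 2 = 0 then j s else i s
  let A : ℕ → V := fun s => if s % 2 = 0 then i s else j s
  let f : ℕ → V := fun n => if n < t + 3 then B (t + 2 - n) else A (n - (t + 3))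
  have hBB : ∀ s s', s ≤ t + 2 → s' ≤ t + 2 → s' % 2 ≠ s % 2 →
      (M G (B s) (B s') ↔ s' = s + 1 ∨ s = s' + 1) := by
    intro s s' hs hs' hpar
    simp only [B]
    split_ifs with h1 h2 h2
    · omega
    · have := h s' s hs' hs (by omega)
      constructor
      · intro hM
        have := this.1 hM.symm
        omega
      · intro hM
        exact (this.2 (by omega)).symm
    · have := h s s' hs hs' (by omega)
      rw [this]
      omega
    · omega
  have hAA : ∀ s s', s ≤ t + 2 → s' ≤ t + 2 → s' % 2 ≠ s % 2 →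
      (M G (A s) (A s') ↔ s' = s + 1 ∨ s = s' + 1) := by
    intro s s' hs hs' hpar
    simp only [A]
    split_ifs with h1 h2 h2
    · omega
    · have := h s s' hs hs' (by omega)
      rw [this]
      omega
    · have := h s' s hs' hs (by omega)
      constructor
      · intro hM
        have := this.1 hM.symm
        omega
      · intro hM
        exact (this.2 (by omega)).symm
    · omega
  have hBA : ∀ s s', s ≤ t + 2 → s' ≤ t + 2 → s' % 2 = s % 2 →
      (M G (B s) (A s') ↔ (s = 0 ∧ s' = 0) ∨ (s = t + 2 ∧ s' = t + 2)) := by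
    intro s s' hs hs' hpar
    by_cases hl : s = t + 2 ∧ s' = t + 2
    · obtain ⟨h1, h2⟩ := hl
      subst h1
      subst h2
      simp only [B, A, and_self, or_true, iff_true]
      split_ifs with h3
      · exact hlast.symm
      · exact hlast
    · simp only [B, A]
      split_ifs with h1 h2 h2
      · have := h s' s hs' hs (by omega)
        constructor
        · intro hM
          have := this.1 hM.symm
          omega
        · intro hM
          exact (this.2 (by omega)).symm
      · omega
      · omega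
      · have := h s s' hs hs' (by omega)
        rw [this]
        omega
  refine noZig_nat hG (t + 3) (by omega) f ?_ ?_ ?_
  · intro n hn
    simp only [f]
    split_ifs with h1 h2 h2
    · exact (hBB _ _ (by omega) (by omega) (by omega)).2 (by omega)
    · have : n = t + 2 := by omega
      subst this
      exact (hBA _ _ (by omega) (by omega) (by omega)).2 (by omega)
    · omega
    · exact (hAA _ _ (by omega) (by omega) (by omega)).2 (by omega)
  · have e1 : f (2 * (t + 3) - 1) = A (t + 2) := by
      simp only [f]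
      rw [if_neg (by omega)]
      congr 1
      omega
    have e2 : f 0 = B (t + 2) := by
      simp only [f]
      rw [if_pos (by omega)]
      congr 1
    rw [e1, e2]
    exact ((hBA _ _ le_rfl le_rfl rfl).2 (by omega)).symm
  · intro a b hab hb hodd hne hne'
    rw [Nat.odd_iff] at hodd
    simp only [f]
    split_ifs with h1 h2 h2
    · rw [hBB _ _ (by omega) (by omega) (by omega)]
      omega
    · rw [hBA _ _ (by omega) (by omega) (by omega)]
      omega
    · omega
    · rw [hAA _ _ (by omega) (by omega) (by omega)]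
      omega

/-- there is no Gamma -/
theorem no_gamma (hG : NoZig G) {A : Type} [Fintype A] (e : A → V) {n : ℕ} (σ τ : A ≃ Fin n)
    (hrow : ∀ r r', σ r < σ r' → ∀ c, ¬ (M G (e r) (e c) ↔ M G (e r') (e c)) →
      (∀ c', ¬ (M G (e r) (e c') ↔ M G (e r') (e c')) → τ c' ≤ τ c) →
      ¬ M G (e r) (e c) ∧ M G (e r') (e c))
    (hcol : ∀ c c', τ c < τ c' → ∀ r, ¬ (M G (e r) (e c) ↔ M G (e r) (e c')) →
      (∀ r', ¬ (M G (e r') (e c) ↔ M G (e r') (e c')) → σ r' ≤ σ r) →
      ¬ M G (e r) (e c) ∧ M G (e r) (e c'))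
    (r r' c c' : A) (hr : σ r < σ r') (hc : τ c < τ c') (h11 : M G (e r) (e c))
    (h12 : M G (e r) (e c')) (h21 : M G (e r') (e c)) : M G (e r') (e c') := by
  by_contra h22
  let LR : A → A → A := fun c c' => ld σ (fun r => M G (e r) (e c)) (fun r => M G (e r) (e c')) c
  let LC : A → A → A := fun r r' => ld τ (fun c => M G (e r) (e c)) (fun c => M G (e r') (e c)) r
  let i : ℕ → A := fun t => (zig LR LC (r, c) (r', c') t).1
  let j : ℕ → A := fun t => (zig LR LC (r, c) (r', c') t).2
  have hi : ∀ t, i (t + 2) = LR (j t) (j (t + 1)) := fun t => by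
    simp only [i, j]
    rw [zig]
  have hj : ∀ t, j (t + 2) = LC (i t) (i (t + 1)) := fun t => by
    simp only [i, j]
    rw [zig]
  have key : ∀ t, (∀ s, s < t + 1 → σ (i s) < σ (i (s + 1)) ∧ τ (j s) < τ (j (s + 1))) ∧
      ∀ a b, a ≤ t + 1 → b ≤ t + 1 →
        (M G (e (i a)) (e (j b)) ↔ (a = 0 ∧ b = 0) ∨ b = a + 1 ∨ a = b + 1) := by
    intro t
    induction t with
    | zero =>
      refine ⟨?_, ?_⟩
      · intro s hs
        have : s = 0 := by omega
        subst this
        exact ⟨hr, hc⟩
      · intro a b ha hb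
        have ha' : a = 0 ∨ a = 1 := by omega
        have hb' : b = 0 ∨ b = 1 := by omega
        rcases ha' with rfl | rfl <;> rcases hb' with rfl | rfl
        · simpa [i, j, zig] using h11
        · simpa [i, j, zig] using h12
        · simpa [i, j, zig] using h21
        · simpa [i, j, zig] using h22
    | succ t ih =>
      obtain ⟨ih1, ih2⟩ := ih
      have hmono : ∀ s s', s ≤ s' → s' ≤ t + 1 → σ (i s) ≤ σ (i s') ∧ τ (j s) ≤ τ (j s') := by
        intro s s' hs
        induction s', hs using Nat.le_induction with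
        | base => exact fun _ => ⟨le_rfl, le_rfl⟩
        | succ s' _ ih =>
          intro hs'
          have h1 := ih (by omega)
          have h2 := ih1 s' (by omega)
          exact ⟨h1.1.trans h2.1.le, h1.2.trans h2.2.le⟩
      -- all differences so far
      have hd1 : ∀ b, b ≤ t → ∃ r, ¬ (M G (e r) (e (j b)) ↔ M G (e r) (e (j (b + 1)))) := by
        intro b hb
        refine ⟨i (b + 1), ?_⟩
        rw [ih2 (b + 1) b (by omega) (by omega), ih2 (b + 1) (b + 1) (by omega) (by omega)]
        omega
      have hd2 : ∀ a, a ≤ t → ∃ c, ¬ (M G (e (i a)) (e c) ↔ M G (e (i (a + 1))) (e c)) := by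
        intro a ha
        refine ⟨j (a + 1), ?_⟩
        rw [ih2 a (a + 1) (by omega) (by omega), ih2 (a + 1) (a + 1) (by omega) (by omega)]
        omega
      have hs1 : ∀ b, b ≤ t → ¬ (M G (e (i (b + 2))) (e (j b)) ↔
          M G (e (i (b + 2))) (e (j (b + 1)))) ∧ ∀ r', ¬ (M G (e r') (e (j b)) ↔
          M G (e r') (e (j (b + 1)))) → σ r' ≤ σ (i (b + 2)) := by
        intro b hb
        rw [hi]
        exact ld_spec σ _ _ _ (hd1 b hb)
      have hs2 : ∀ a, a ≤ t → ¬ (M G (e (i a)) (e (j (a + 2))) ↔
          M G (e (i (a + 1))) (e (j (a + 2)))) ∧ ∀ c', ¬ (M G (e (i a)) (e c') ↔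
          M G (e (i (a + 1))) (e c')) → τ c' ≤ τ (j (a + 2)) := by
        intro a ha
        rw [hj]
        exact ld_spec τ _ _ _ (hd2 a ha)
      -- the new row
      have hr1 := hs1 t le_rfl
      have hr2 := hcol _ _ (ih1 t (by omega)).2 _ hr1.1 hr1.2
      have hr3 : σ (i (t + 1)) < σ (i (t + 2)) := by
        refine lt_of_le_of_ne (hr1.2 _ ?_) ?_
        · rw [ih2 (t + 1) t (by omega) (by omega), ih2 (t + 1) (t + 1) (by omega) (by omega)]
          omega
        · intro h
          have h := σ.injective h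
          apply hr2.1
          rw [← h, ih2 (t + 1) t (by omega) (by omega)]
          omega
      have hr4 : ∀ d b, b + d = t → ¬ M G (e (i (t + 2))) (e (j b)) := by
        intro d
        induction d with
        | zero =>
          intro b hb
          have : b = t := by omega
          subst this
          exact hr2.1
        | succ d ih =>
          intro b hb
          have h1 := ih (b + 1) (by omega)
          intro h2
          have h3 := (hs1 b (by omega)).2 (i (t + 2)) (by tauto)
          have h4 := (hmono (b + 2) (t + 1) (by omega) le_rfl).1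
          exact absurd (h3.trans h4) (not_le.2 hr3)
      -- the new column
      have hc1 := hs2 t le_rfl
      have hc2 := hrow _ _ (ih1 t (by omega)).1 _ hc1.1 hc1.2
      have hc3 : τ (j (t + 1)) < τ (j (t + 2)) := by
        refine lt_of_le_of_ne (hc1.2 _ ?_) ?_
        · rw [ih2 t (t + 1) (by omega) (by omega), ih2 (t + 1) (t + 1) (by omega) (by omega)]
          omega
        · intro h
          have h := τ.injective h
          apply hc2.1
          rw [← h, ih2 t (t + 1) (by omega) (by omega)]
          omega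
      have hc4 : ∀ d a, a + d = t → ¬ M G (e (i a)) (e (j (t + 2))) := by
        intro d
        induction d with
        | zero =>
          intro a ha
          have : a = t := by omega
          subst this
          exact hc2.1
        | succ d ih =>
          intro a ha
          have h1 := ih (a + 1) (by omega)
          intro h2
          have h3 := (hs2 a (by omega)).2 (j (t + 2)) (by tauto)
          have h4 := (hmono (a + 2) (t + 1) (by omega) le_rfl).2
          exact absurd (h3.trans h4) (not_le.2 hc3)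
      have hpat : ∀ a b, a ≤ t + 2 → b ≤ t + 2 → ¬ (a = t + 2 ∧ b = t + 2) →
          (M G (e (i a)) (e (j b)) ↔ (a = 0 ∧ b = 0) ∨ b = a + 1 ∨ a = b + 1) := by
        intro a b ha hb hab
        rcases Nat.lt_or_ge a (t + 2) with ha' | ha'
        · rcases Nat.lt_or_ge b (t + 2) with hb' | hb'
          · exact ih2 a b (by omega) (by omega)
          · have hb2 : b = t + 2 := by omega
            subst hb2
            rcases Nat.lt_or_ge a (t + 1) with h5 | h5
            · constructor
              · exact fun h => absurd h (hc4 (t - a) a (by omega))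
              · intro h
                omega
            · have : a = t + 1 := by omega
              subst this
              exact ⟨fun _ => by omega, fun _ => hc2.2⟩
        · have ha2 : a = t + 2 := by omega
          subst ha2
          rcases Nat.lt_or_ge b (t + 1) with h5 | h5
          · constructor
            · exact fun h => absurd h (hr4 (t - b) b (by omega))
            · intro h
              omega
          · have : b = t + 1 := by omega
            subst this
            exact ⟨fun _ => by omega, fun _ => hr2.2⟩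
      refine ⟨?_, ?_⟩
      · intro s hs
        rcases Nat.lt_or_ge s (t + 1) with h5 | h5
        · exact ih1 s h5
        · have : s = t + 1 := by omega
          subst this
          exact ⟨hr3, hc3⟩
      · intro a b ha hb
        by_cases hab : a = t + 2 ∧ b = t + 2
        · obtain ⟨h5, h6⟩ := hab
          rw [h5, h6]
          constructor
          · exact fun h => absurd h (closed hG (fun s => e (i s)) (fun s => e (j s)) t hpat)
          · intro h
            omega
        · exact hpat a b ha hb hab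
  -- the positions grow for ever
  have hgrow : ∀ t, t ≤ (σ (i t)).1 := by
    intro t
    induction t with
    | zero => exact Nat.zero_le _
    | succ t ih =>
      have h1 := ((key t).1 t (by omega)).1
      have h2 : (σ (i t)).1 < (σ (i (t + 1))).1 := h1
      omega
  have h1 := hgrow n
  have h2 := (σ (i n)).2
  omega

open Classical in
theorem exists_orders {A : Type} [Fintype A] (m : A → A → Prop) (hm : ∀ a b, m a b → m b a) :
    ∃ (n : ℕ) (σ τ : A ≃ Fin n),
    (∀ r r', σ r < σ r' → ∀ c, ¬ (m r c ↔ m r' c) →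
      (∀ c', ¬ (m r c' ↔ m r' c') → τ c' ≤ τ c) → ¬ m r c ∧ m r' c) ∧
    (∀ c c', τ c < τ c' → ∀ r, ¬ (m r c ↔ m r c') →
      (∀ r', ¬ (m r' c ↔ m r' c') → σ r' ≤ σ r) → ¬ m r c ∧ m r c') := by
  let n := Fintype.card A
  let W : (A ≃ Fin n) × (A ≃ Fin n) → ℕ := fun p =>
    ∑ r, ∑ c, (if m r c then 1 else 0) * 2 ^ (p.1 r).1 * 2 ^ (p.2 c).1
  have hne : Nonempty ((A ≃ Fin n) × (A ≃ Fin n)) :=
    ⟨(Fintype.equivFin A, Fintype.equivFin A)⟩
  obtain ⟨⟨σ, τ⟩, hmax⟩ := Finite.exists_max W
  have hsym : ∀ a b, (m a b ↔ m b a) := fun a b => ⟨hm a b, hm b a⟩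
  have e1 : ∀ σ' τ' : A ≃ Fin n, W (σ', τ') =
      ∑ r, (∑ c, (if m r c then 1 else 0) * 2 ^ (τ' c).1) * 2 ^ (σ' r).1 := by
    intro σ' τ'
    refine sum_congr rfl fun r _ => ?_
    rw [sum_mul]
    refine sum_congr rfl fun c _ => ?_
    ring
  have e2 : ∀ σ' τ' : A ≃ Fin n, W (σ', τ') =
      ∑ c, (∑ r, (if m c r then 1 else 0) * 2 ^ (σ' r).1) * 2 ^ (τ' c).1 := by
    intro σ' τ'
    change ∑ r, ∑ c, (if m r c then 1 else 0) * 2 ^ (σ' r).1 * 2 ^ (τ' c).1 = _
    rw [sum_comm]
    refine sum_congr rfl fun c _ => ?_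
    rw [sum_mul]
    refine sum_congr rfl fun r _ => ?_
    rw [if_congr (hsym r c) rfl rfl]
  refine ⟨n, σ, τ, ?_, ?_⟩
  · intro r r' hr c hc hl
    have h1 := opt_mono (fun r => ∑ c, (if m r c then 1 else 0) * 2 ^ (τ c).1) σ
      (fun σ' => by rw [← e1, ← e1]; exact hmax (σ', τ)) hr
    exact last_diff τ (m r) (m r') h1 c hc hl
  · intro c c' hc r hr hl
    have h1 := opt_mono (fun c => ∑ r, (if m c r then 1 else 0) * 2 ^ (σ r).1) τ
      (fun τ' => by rw [← e2, ← e2]; exact hmax (σ, τ')) hc
    have h2 := last_diff σ (m c) (m c') h1 r (by rw [hsym c r, hsym c' r]; exact hr)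
      (fun r' hr' => hl r' (by rw [hsym r' c, hsym r' c']; exact hr'))
    rw [hsym c r, hsym c' r] at h2
    exact h2

end LexAux

open LexAux in
theorem NoZig.hasMax (hG : NoZig G) : HasMax G := by
  classical
  intro S hS
  obtain ⟨n, σ, τ, hrow, hcol⟩ := exists_orders (A := S) (fun a b => M G a.1 b.1)
    (fun a b h => h.symm)
  have hng := no_gamma hG (A := S) (fun a => a.1) σ τ hrow hcol
  obtain ⟨x0, hx0⟩ := hS
  have : Nonempty S := ⟨⟨x0, hx0⟩⟩
  -- the first column
  obtain ⟨s, hs⟩ := Finite.exists_min τ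
  refine ⟨s.1, s.2, ?_⟩
  by_cases hiso : ∀ x ∈ S, M G s.1 x → x = s.1
  · exact Or.inl hiso
  · right
    push Not at hiso
    obtain ⟨x, hx, hsx, hxs⟩ := hiso
    obtain ⟨m, hm, hmax⟩ := Finset.exists_max_image
      (Finset.univ.filter fun a : S => M G s.1 a.1 ∧ a ≠ s) σ
      ⟨⟨x, hx⟩, Finset.mem_filter.2 ⟨Finset.mem_univ _, hsx, fun h => hxs (congrArg Subtype.val h)⟩⟩
    simp only [Finset.mem_filter, Finset.mem_univ, true_and] at hm hmax
    have hnest : ∀ x : S, x ≠ s → M G s.1 x.1 → ∀ y : S, M G x.1 y.1 → M G m.1 y.1 := by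
      intro x hxs hsx y hxy
      rcases (hmax x ⟨hsx, hxs⟩).lt_or_eq with h | h
      · by_cases hys : y = s
        · subst hys
          exact hm.1.symm
        · have hlt : τ s < τ y := lt_of_le_of_ne (hs y) fun h => hys (τ.injective h).symm
          exact hng x m s y h hlt hsx.symm hxy hm.1.symm
      · have : x = m := σ.injective h
        rw [← this]
        exact hxy
    refine ⟨m.1, m.2, fun h => hm.2 (Subtype.ext h), hm.1, ?_⟩
    intro x hx hsx y hy hxy
    by_cases hxs : x = s.1
    · subst hxs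
      by_cases hys : y = s.1
      · subst hys
        exact hm.1.symm
      · exact hnest ⟨y, hy⟩ (fun h => hys (congrArg Subtype.val h)) hxy ⟨y, hy⟩ (M.refl y)
    · exact hnest ⟨x, hx⟩ (fun h => hxs (congrArg Subtype.val h)) hsx ⟨y, hy⟩ hxy

end Pool.Agent.Lib.P74a0dc
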