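import Pool.Agent.Lib.P74a0dc.Basic

set_option autoImplicit false

/-!
The neighbourhood matrix of a strongly chordal graph has no chordless cycle of length at least 6.
-/

namespace Pool.Agent.Lib.P74a0dc

variable {V : Type} {G : SimpleGraph V}

namespace NoCycAux

/-- the value of a successor in `ZMod n` -/
theorem val_succ {n : ℕ} [NeZero n] (hn : 2 ≤ n) (q : ZMod n) :
    (q + 1).val = if q.val + 1 = n then 0 else q.val + 1 := by
  have h1 : (1 : ZMod n).val = 1 := by
    have : Fact (1 < n) := ⟨by omega⟩
    exact ZMod.val_one n
  have hq := q.val_lt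
  rw [ZMod.val_add, h1]
  split_ifs with h
  · rw [h, Nat.mod_self]
  · exact Nat.mod_eq_of_lt (by omega)

/-- chords of cycles given by functions on `ℕ` -/
theorem chord_nat (hG : Chordal G) (n : ℕ) (hn : 4 ≤ n) (f : ℕ → V)
    (hinj : ∀ i j, i < j → j < n → f i ≠ f j) (h1 : ∀ i, i + 1 < n → G.Adj (f i) (f (i + 1)))
    (h2 : G.Adj (f (n - 1)) (f 0)) :
    ∃ i j, i + 1 < j ∧ j < n ∧ ¬ (i = 0 ∧ j = n - 1) ∧ G.Adj (f i) (f j) := by
  have : NeZero n := ⟨by omega⟩
  have hcyc := hG n hn (fun q => f q.val) ?_ ?_
  · obtain ⟨a, b, hab, hba, hadj⟩ := hcyc
    have key : ∀ a b : ZMod n, b ≠ a + 1 → a ≠ b + 1 → a.val < b.val →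
        G.Adj (f a.val) (f b.val) →
        ∃ i j, i + 1 < j ∧ j < n ∧ ¬ (i = 0 ∧ j = n - 1) ∧ G.Adj (f i) (f j) := by
      intro a b hab hba hlt hadj
      have hb := b.val_lt
      refine ⟨a.val, b.val, ?_, hb, ?_, hadj⟩
      · by_contra h
        apply hab
        apply ZMod.val_injective
        rw [val_succ (by omega), if_neg (by omega)]
        omega
      · rintro ⟨h3, h4⟩
        apply hba
        apply ZMod.val_injective
        rw [val_succ (by omega), if_pos (by omega), h3]
    rcases lt_trichotomy a.val b.val with h | h | h
    · exact key a b hab hba h hadj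
    · rw [h] at hadj
      exact absurd rfl hadj.ne
    · exact key b a hba hab h hadj.symm
  · intro q q' hqq
    rcases lt_trichotomy q.val q'.val with h | h | h
    · exact absurd hqq (hinj _ _ h q'.val_lt)
    · exact ZMod.val_injective _ h
    · exact absurd hqq.symm (hinj _ _ h q.val_lt)
  · intro q
    have hq := q.val_lt
    simp only [val_succ (show 2 ≤ n by omega)]
    split_ifs with h
    · have : q.val = n - 1 := by omega
      rw [this]
      exact h2
    · exact h1 _ (by omega)

end NoCycAux

open NoCycAux

theorem Chordal.sep (hG : Chordal G) {v a b : V} (hva : G.Adj v a) (hvb : G.Adj v b)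
    (n : ℕ) (w : ℕ → V) (h0 : w 0 = a) (hn : w n = b) (hw : ∀ i, i < n → M G (w i) (w (i + 1)))
    (hint : ∀ i, 0 < i → i < n → ¬ M G v (w i)) : M G a b := by
  induction n using Nat.strong_induction_on generalizing w with
  | _ n ih =>
    by_contra hab
    -- no shortcuts
    have hshort : ∀ i j, i + 1 < j → j ≤ n → ¬ M G (w i) (w j) := by
      intro i j hij hj hM
      -- the sequence w 0, …, w i, w j, …, w n
      refine hab (ih (n - (j - i - 1)) (by omega) (fun l => if l ≤ i then w l else
        w (l + (j - i - 1))) ?_ ?_ ?_ ?_)
      · simpa using h0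
      · rw [if_neg (by omega)]
        rw [← hn]
        congr 1
        omega
      · intro l hl
        split_ifs with h1 h2 h2
        · exact hw l (by omega)
        · have : l = i := by omega
          subst this
          have : l + 1 + (j - l - 1) = j := by omega
          rw [this]
          exact hM
        · omega
        · have := hw (l + (j - i - 1)) (by omega)
          rwa [show l + (j - i - 1) + 1 = l + 1 + (j - i - 1) by omega] at this
      · intro l hl0 hl
        split_ifs with h1
        · exact hint l hl0 (by omega)
        · exact hint _ (by omega) (by omega)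
    have hn2 : 2 ≤ n := by
      rcases Nat.lt_or_ge n 2 with h | h
      · exfalso
        have : n = 0 ∨ n = 1 := by omega
        rcases this with rfl | rfl
        · exact hab (Or.inl (h0.symm.trans hn))
        · have := hw 0 (by omega)
          rw [h0, zero_add, hn] at this
          exact hab this
      · exact h
    -- all distinct
    have hne1 : ∀ i, i < n → w i ≠ w (i + 1) := by
      intro i hi heq
      rcases Nat.lt_or_ge (i + 1) n with h | h
      · apply hshort i (i + 2) (by omega) (by omega)
        rw [heq]
        exact hw (i + 1) h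
      · have hin : i + 1 = n := by omega
        apply hshort (i - 1) (i + 1) (by omega) (by omega)
        rw [← heq]
        have := hw (i - 1) (by omega)
        rwa [show i - 1 + 1 = i by omega] at this
    have hadj : ∀ i, i < n → G.Adj (w i) (w (i + 1)) := by
      intro i hi
      rcases hw i hi with h | h
      · exact absurd h (hne1 i hi)
      · exact h
    have hne : ∀ i j, i < j → j ≤ n → w i ≠ w j := by
      intro i j hij hj h
      rcases Nat.lt_or_ge (i + 1) j with h1 | h1
      · exact hshort i j h1 hj (Or.inl h)
      · have : j = i + 1 := by omega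
        subst this
        exact hne1 i (by omega) h
    have hv : ∀ i, i ≤ n → v ≠ w i := by
      intro i hi h
      by_cases h1 : i = 0
      · rw [h1, h0] at h
        exact hva.ne h
      · by_cases h2 : i = n
        · rw [h2, hn] at h
          exact hvb.ne h
        · exact hint i (by omega) (by omega) (Or.inl h)
    -- the cycle
    have hcyc := chord_nat hG (n + 2) (by omega)
      (fun l => if l = 0 then v else w (l - 1)) ?_ ?_ ?_
    · obtain ⟨i, j, hij, hj, hnot, hc⟩ := hcyc
      rw [if_neg (show ¬ j = 0 by omega)] at hc
      by_cases hi : i = 0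
      · rw [if_pos hi] at hc
        exact hint (j - 1) (by omega) (by omega) (Or.inr hc)
      · rw [if_neg hi] at hc
        exact hshort (i - 1) (j - 1) (by omega) (by omega) (Or.inr hc)
    · intro i j hij hj
      rw [if_neg (show ¬ j = 0 by omega)]
      by_cases hi : i = 0
      · rw [if_pos hi]
        exact hv _ (by omega)
      · rw [if_neg hi]
        exact hne _ _ (by omega) (by omega)
    · intro i hi
      rw [if_neg (show ¬ i + 1 = 0 by omega)]
      by_cases hi0 : i = 0
      · rw [if_pos hi0, hi0, zero_add, Nat.sub_self, h0]
        exact hva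
      · rw [if_neg hi0]
        have := hadj (i - 1) (by omega)
        rwa [show i - 1 + 1 = i + 1 - 1 by omega] at this
    · rw [if_neg (show ¬ n + 2 - 1 = 0 by omega), show n + 2 - 1 - 1 = n by omega, hn]
      exact hvb.symm

/-- there is no chordless closed alternating sequence of length at least `6` -/
def NoZig (G : SimpleGraph V) : Prop :=
  ∀ t, 3 ≤ t → ∀ x : ZMod (2 * t) → V, (∀ q, M G (x q) (x (q + 1))) →
    (∀ q q', Odd (q' - q).val → q' ≠ q + 1 → q ≠ q' + 1 → ¬ M G (x q) (x q')) → False

theorem StronglyChordal.noZig (hG : StronglyChordal G) : NoZig G := by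
  intro t ht x h1 h2
  have hnz : NeZero (2 * t) := ⟨by omega⟩
  -- values of small numerals
  have hval : ∀ m : ℕ, m < 2 * t → ((m : ℕ) : ZMod (2 * t)).val = m := fun m hm =>
    ZMod.val_cast_of_lt hm
  have hnum : ∀ m : ℕ, 0 < m → m < 2 * t → ((m : ℕ) : ZMod (2 * t)) ≠ 0 := by
    intro m hm hm' h
    have := hval m hm'
    rw [h, ZMod.val_zero] at this
    omega
  have e1 : (1 : ZMod (2 * t)) = ((1 : ℕ) : ZMod (2 * t)) := by simp
  have e2 : (2 : ZMod (2 * t)) = ((2 : ℕ) : ZMod (2 * t)) := by simp
  have e3 : (3 : ZMod (2 * t)) = ((3 : ℕ) : ZMod (2 * t)) := by simp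
  have e4 : (4 : ZMod (2 * t)) = ((4 : ℕ) : ZMod (2 * t)) := by simp
  have n1 : (1 : ZMod (2 * t)) ≠ 0 := by rw [e1]; exact hnum 1 (by omega) (by omega)
  have n2 : (2 : ZMod (2 * t)) ≠ 0 := by rw [e2]; exact hnum 2 (by omega) (by omega)
  have n4 : (4 : ZMod (2 * t)) ≠ 0 := by rw [e4]; exact hnum 4 (by omega) (by omega)
  have v1 : (1 : ZMod (2 * t)).val = 1 := by rw [e1]; exact hval 1 (by omega)
  have v3 : (3 : ZMod (2 * t)).val = 3 := by rw [e3]; exact hval 3 (by omega)
  -- parity
  have hpar : ∀ a b : ZMod (2 * t), (a + b).val % 2 = (a.val + b.val) % 2 := by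
    intro a b
    rw [ZMod.val_add]
    exact Nat.mod_mod_of_dvd _ ⟨t, rfl⟩
  by_cases hc : ∀ q, x q ≠ x (q + 1)
  · -- a cycle
    have hinj : Function.Injective x := by
      intro q q' hqq
      rcases Nat.even_or_odd (q' - q).val with hev | hodd
      · -- the same parity
        have hev' : (q' - q).val % 2 = 0 := Nat.even_iff.1 hev
        have hA : q' = q ∨ q' = q + 2 := by
          by_contra hcon
          push Not at hcon
          have h3 := h2 q' (q + 1) ?_ ?_ ?_
          · apply h3
            rw [← hqq]
            exact h1 q
          · have h4 := hpar (q + 1 - q') (q' - q)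
            have e5 : q + 1 - q' + (q' - q) = 1 := by ring
            rw [e5, v1] at h4
            rw [Nat.odd_iff]
            omega
          · intro h
            apply hcon.1
            exact (add_right_cancel h).symm
          · intro h
            apply hcon.2
            rw [h]
            ring
        have hB : q' = q ∨ q' = q - 2 := by
          by_contra hcon
          push Not at hcon
          have h3 := h2 (q - 1) q' ?_ ?_ ?_
          · apply h3
            have := h1 (q - 1)
            rw [sub_add_cancel] at this
            rw [← hqq]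
            exact this
          · have h4 := hpar (q' - q) 1
            have e5 : q' - q + 1 = q' - (q - 1) := by ring
            rw [e5, v1] at h4
            rw [Nat.odd_iff]
            omega
          · intro h
            apply hcon.1
            rw [h]
            ring
          · intro h
            apply hcon.2
            rw [eq_sub_iff_add_eq]
            have : q' + 2 = q' + 1 + 1 := by ring
            rw [this, ← h]
            ring
        rcases hA with h | h
        · exact h.symm
        · rcases hB with h' | h'
          · exact h'.symm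
          · exfalso
            apply n4
            have : (4 : ZMod (2 * t)) = (q + 2) - (q - 2) := by ring
            rw [this, ← h, ← h', sub_self]
      · -- different parity
        exfalso
        have h3 := h2 q q' hodd
        by_cases h4 : q' = q + 1
        · exact hc q (h4 ▸ hqq)
        · by_cases h5 : q = q' + 1
          · exact hc q' (h5 ▸ hqq.symm)
          · exact h3 h4 h5 (Or.inl hqq)
    have hadj : ∀ q, G.Adj (x q) (x (q + 1)) := by
      intro q
      rcases h1 q with h | h
      · exact absurd h (hc q)
      · exact h
    obtain ⟨i, j, h3, h4, h5, h6⟩ := hG.2 (2 * t) (by omega) (by simp) x hinj hadj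
    exact h2 i j h5 h3 h4 (Or.inr h6)
  · -- a coincidence
    push Not at hc
    obtain ⟨q, hq⟩ := hc
    -- neighbours outside
    have hM3 : ¬ M G (x (q - 1)) (x (q + 2)) := by
      refine h2 _ _ ?_ ?_ ?_
      · have : q + 2 - (q - 1) = 3 := by ring
        rw [this, v3]
        decide
      · intro h
        apply n2
        have : (2 : ZMod (2 * t)) = (q + 2) - (q - 1 + 1) := by ring
        rw [this, h, sub_self]
      · intro h
        apply n4
        have : (4 : ZMod (2 * t)) = (q + 2 + 1) - (q - 1) := by ring
        rw [this, ← h, sub_self]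
    have ha1 : M G (x q) (x (q - 1)) := by
      have := h1 (q - 1)
      rw [sub_add_cancel] at this
      exact this.symm
    have hb1 : M G (x q) (x (q + 2)) := by
      have := h1 (q + 1)
      rw [← hq, add_assoc, one_add_one_eq_two] at this
      exact this
    have ha : G.Adj (x q) (x (q - 1)) := by
      rcases ha1 with h | h
      · exfalso
        apply hM3
        rw [← h]
        exact hb1
      · exact h
    have hb : G.Adj (x q) (x (q + 2)) := by
      rcases hb1 with h | h
      · exfalso
        apply hM3
        rw [← h]
        exact ha1.symm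
      · exact h
    -- the walk from `x (q + 2)` to `x (q - 1)`
    have hcast : ((2 * t - 3 : ℕ) : ZMod (2 * t)) = -3 := by
      rw [Nat.cast_sub (by omega), ZMod.natCast_self]
      push_cast
      ring
    refine hM3 (hG.1.sep (v := x q) hb ha (2 * t - 3) (fun l => x (q + 2 + (l : ZMod (2 * t))))
      ?_ ?_ ?_ ?_).symm
    · simp
    · rw [hcast]
      congr 1
      ring
    · intro i _
      have := h1 (q + 2 + (i : ZMod (2 * t)))
      rwa [show q + 2 + (i : ZMod (2 * t)) + 1 = q + 2 + ((i + 1 : ℕ) : ZMod (2 * t)) by
        push_cast
        ring] at this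
    · intro i hi0 hi hM
      -- the index of the other point, at distance `i + 2` from `q` and `i + 1` from `q + 1`
      have hi2 : ((i + 2 : ℕ) : ZMod (2 * t)).val = i + 2 := hval _ (by omega)
      have hi1 : ((i + 1 : ℕ) : ZMod (2 * t)).val = i + 1 := hval _ (by omega)
      have hi3 : ((i + 3 : ℕ) : ZMod (2 * t)) ≠ 0 := by
        rcases Nat.lt_or_ge (i + 3) (2 * t) with h | h
        · exact hnum _ (by omega) h
        · omega
      rcases Nat.even_or_odd i with hev | hodd
      · -- `i + 1` is odd: use `q + 1`
        refine h2 (q + 1) (q + 2 + (i : ZMod (2 * t))) ?_ ?_ ?_ (hq ▸ hM)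
        · have : q + 2 + (i : ZMod (2 * t)) - (q + 1) = ((i + 1 : ℕ) : ZMod (2 * t)) := by
            push_cast
            ring
          rw [this, hi1]
          exact hev.add_one
        · intro h
          have : ((i : ℕ) : ZMod (2 * t)) = 0 := by
            have e : ((i : ℕ) : ZMod (2 * t)) = (q + 2 + (i : ZMod (2 * t))) - (q + 1 + 1) := by
              ring
            rw [e, h, sub_self]
          exact hnum i hi0 (by omega) this
        · intro h
          have : ((i + 2 : ℕ) : ZMod (2 * t)) = 0 := by
            have e : ((i + 2 : ℕ) : ZMod (2 * t)) =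
                (q + 2 + (i : ZMod (2 * t)) + 1) - (q + 1) := by
              push_cast
              ring
            rw [e, ← h, sub_self]
          exact hnum (i + 2) (by omega) (by omega) this
      · refine h2 q (q + 2 + (i : ZMod (2 * t))) ?_ ?_ ?_ hM
        · have : q + 2 + (i : ZMod (2 * t)) - q = ((i + 2 : ℕ) : ZMod (2 * t)) := by
            push_cast
            ring
          rw [this, hi2]
          exact hodd.add_even (by decide)
        · intro h
          have : ((i + 1 : ℕ) : ZMod (2 * t)) = 0 := by
            have e : ((i + 1 : ℕ) : ZMod (2 * t)) = (q + 2 + (i : ZMod (2 * t))) - (q + 1) := by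
              push_cast
              ring
            rw [e, h, sub_self]
          exact hnum (i + 1) (by omega) (by omega) this
        · intro h
          apply hi3
          have e : ((i + 3 : ℕ) : ZMod (2 * t)) = (q + 2 + (i : ZMod (2 * t)) + 1) - q := by
            push_cast
            ring
          rw [e, ← h, sub_self]

end Pool.Agent.Lib.P74a0dc
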