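import Pool.Agent.Lib.P2ba8ab.Poly
import Pool.Agent.Lib.P74a0dc.Col3

set_option autoImplicit false

/-!
The reduction `red` from graphs to graphs is computable in polynomial time.

The vertices of `GK (ofG n F) q` are numbered as in `idx c0 R n : Fin c0 ⊕ ((Fin n × Fin n) × Fin R)
≃ Fin (c0 + n * n * R)`: constants (`tau`, `zeta`) and pairs of a position `(a, b)` and a tag.
Adjacency of two vertices with given tags is a Boolean function of ten bits.
-/

namespace Pool.Agent.Lib.P74a0dc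

open Pool.Agent.Lib.P2ba8ab Pool.Agent.Lib.PolyTime Pool.Agent.Lib.Pa7c826

/-- the constants -/
abbrev C0 (q : ℕ) : Type := Fin (q + 3) ⊕ Fin (q + 3)

/-- the tags -/
abbrev Tg (q : ℕ) : Type :=
  (((Fin 3 × Bool) ⊕ (Fin 4 × Fin 3)) ⊕ ((Fin 4 × Fin 3) × (Bool × Fin (q + 1)))) ⊕
    ((Fin 4 × Fin 3) ⊕ (Fin 3 ⊕ Fin 4))

/-- the vertices of the graph of an instance `ofG n F` -/
abbrev VG (n q : ℕ) : Type :=
  Vtx ((Fin n × Fin n) × (Fin 4 × Fin 3)) ((Fin n × Fin n) × Fin 3) ((Fin n × Fin n) × Fin 4) q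

/-- the vertex of a constant, or of a tag at a position -/
def mk {n q : ℕ} : C0 q ⊕ ((Fin n × Fin n) × Tg q) → VG n q
  | Sum.inl (Sum.inl a) => .tau a
  | Sum.inl (Sum.inr a) => .zeta a
  | Sum.inr (p, Sum.inl (Sum.inl (Sum.inl (c, b)))) => .big (Sum.inl ((p, c), b))
  | Sum.inr (p, Sum.inl (Sum.inl (Sum.inr x))) => .big (Sum.inr (p, x))
  | Sum.inr (p, Sum.inl (Sum.inr (x, (b, s)))) => .g (p, x) b s
  | Sum.inr (p, Sum.inr (Sum.inl x)) => .px (p, x)
  | Sum.inr (p, Sum.inr (Sum.inr (Sum.inl c))) => .pw (Sum.inl (p, c))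
  | Sum.inr (p, Sum.inr (Sum.inr (Sum.inr d))) => .pw (Sum.inr (p, d))

theorem mk_bijective {n q : ℕ} : Function.Bijective (mk (n := n) (q := q)) := by
  constructor
  · intro w w' h
    rcases w with (a | a) | ⟨p, ((⟨c, b⟩ | x) | ⟨x, b, s⟩) | (x | (c | d))⟩ <;>
    rcases w' with (a' | a') | ⟨p', ((⟨c', b'⟩ | x') | ⟨x', b', s'⟩) | (x' | (c' | d'))⟩ <;>
    simp_all [mk]
  · intro v
    rcases v with a | a | (⟨⟨p, c⟩, b⟩ | ⟨p, x⟩) | ⟨⟨p, x⟩, b, s⟩ | ⟨p, x⟩ | (⟨p, c⟩ | ⟨p, d⟩)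
    · exact ⟨Sum.inl (Sum.inl a), rfl⟩
    · exact ⟨Sum.inl (Sum.inr a), rfl⟩
    · exact ⟨Sum.inr (p, Sum.inl (Sum.inl (Sum.inl (c, b)))), rfl⟩
    · exact ⟨Sum.inr (p, Sum.inl (Sum.inl (Sum.inr x))), rfl⟩
    · exact ⟨Sum.inr (p, Sum.inl (Sum.inr (x, (b, s)))), rfl⟩
    · exact ⟨Sum.inr (p, Sum.inr (Sum.inl x)), rfl⟩
    · exact ⟨Sum.inr (p, Sum.inr (Sum.inr (Sum.inl c))), rfl⟩
    · exact ⟨Sum.inr (p, Sum.inr (Sum.inr (Sum.inr d))), rfl⟩

/-- the number of constants -/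
def nC (q : ℕ) : ℕ := Fintype.card (C0 q)

/-- the number of tags -/
def nT (q : ℕ) : ℕ := Fintype.card (Tg q)

/-- the numbering of the vertices -/
noncomputable def num (n q : ℕ) : Fin (nC q + n * n * nT q) ≃ VG n q :=
  (idx (nC q) (nT q) n).symm.trans
    ((Equiv.sumCongr (Fintype.equivFin (C0 q)).symm
      (Equiv.prodCongr (Equiv.refl _) (Fintype.equivFin (Tg q)).symm)).trans
      (Equiv.ofBijective mk mk_bijective))

/-- the reduction -/
noncomputable def red (q : ℕ) (g : Gr) : Gr where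
  n := nC q + g.n * g.n * nT q
  G := ((ofG g.n (adjN g)).GK q).comap (num g.n q)

namespace PolyAux

/-- two configurations with the same comparisons -/
structure Same (F F1 : ℕ → ℕ → Bool) {n n1 : ℕ} (p p' : Fin n × Fin n)
    (r r' : Fin n1 × Fin n1) : Prop where
  h0 : p.1.1 = p'.1.1 ↔ r.1.1 = r'.1.1
  h1 : p.2.1 = p'.2.1 ↔ r.2.1 = r'.2.1
  h2 : p.1.1 < p'.1.1 ↔ r.1.1 < r'.1.1
  h3 : p.2.1 < p'.1.1 ↔ r.2.1 < r'.1.1
  h4 : p.2.1 = p'.1.1 ↔ r.2.1 = r'.1.1
  h5 : p'.1.1 < p.1.1 ↔ r'.1.1 < r.1.1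
  h6 : p'.2.1 < p.1.1 ↔ r'.2.1 < r.1.1
  h7 : p'.2.1 = p.1.1 ↔ r'.2.1 = r.1.1
  h8 : F p.1.1 p.2.1 = F1 r.1.1 r.2.1
  h9 : F p'.1.1 p'.2.1 = F1 r'.1.1 r'.2.1

section

variable {F F1 : ℕ → ℕ → Bool} {n n1 : ℕ} {p p' : Fin n × Fin n} {r r' : Fin n1 × Fin n1}

theorem Same.swap (h : Same F F1 p p' r r') : Same F F1 p' p r' r :=
  ⟨by rw [eq_comm, h.h0, eq_comm], by rw [eq_comm, h.h1, eq_comm], h.h5, h.h6, h.h7, h.h2, h.h3,
    h.h4, h.h9, h.h8⟩

theorem Same.eq_iff (h : Same F F1 p p' r r') : p = p' ↔ r = r' := by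
  rw [Prod.ext_iff, Prod.ext_iff, Fin.ext_iff, Fin.ext_iff, Fin.ext_iff, Fin.ext_iff, h.h0, h.h1]

theorem cmp (a b c d : ℕ) (a' b' : ℕ) (hc : c < 3) (hd : d < 3) (h1 : a = b ↔ a' = b')
    (h2 : a < b ↔ a' < b') (e : Bool) :
    Inst.lev e (1 + (3 * a + c)) (1 + (3 * b + d)) ↔
      Inst.lev e (1 + (3 * a' + c)) (1 + (3 * b' + d)) := by
  cases e
  · simp only [Inst.lev, Bool.false_eq_true, if_false]
    omega
  · simp only [Inst.lev, if_true]
    omega

theorem lev_iff (h : Same F F1 p p' r r') (x : Fin 4 × Fin 3) (c : Fin 3) (e : Bool) :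
    Inst.lev e ((ofG n F).val (p, x)) ((ofG n F).nu (p', c)) ↔
      Inst.lev e ((ofG n1 F1).val (r, x)) ((ofG n1 F1).nu (r', c)) := by
  have h8 := h.h8
  simp only [ofG]
  by_cases hx : x.1 = 0 ∨ x.1 = 3
  · rw [if_pos hx, if_pos hx]
    exact cmp _ _ _ _ _ _ x.2.2 c.2 h.h0 h.h2 e
  · rw [if_neg hx, if_neg hx, h8]
    by_cases hx1 : x.1 = 1 ∧ F1 r.1.1 r.2.1 = true
    · rw [if_pos hx1, if_pos hx1]
      exact cmp _ _ _ _ _ _ x.2.2 c.2 h.h4 h.h3 e
    · rw [if_neg hx1, if_neg hx1]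
      cases e
      · simp only [Inst.lev, Bool.false_eq_true, if_false]
        omega
      · simp only [Inst.lev, if_true]
        omega

theorem E_iff (h : Same F F1 p p' r r') (q : ℕ) (t t' : Tg q) :
    (ofG n F).E q (mk (Sum.inr (p, t))) (mk (Sum.inr (p', t'))) ↔
      (ofG n1 F1).E q (mk (Sum.inr (r, t))) (mk (Sum.inr (r', t'))) := by
  have hp := h.eq_iff
  have hp' : p' = p ↔ r' = r := by rw [eq_comm, hp, eq_comm]
  rcases t with ((⟨c, b⟩ | x) | ⟨x, b, s⟩) | (x | (c | d)) <;>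
  rcases t' with ((⟨c', b'⟩ | x') | ⟨x', b', s'⟩) | (x' | (c' | d')) <;>
  simp only [mk, Inst.E, Inst.inA, Inst.inS, Prod.mk.injEq, hp, hp']
  · exact lev_iff h.swap _ _ _
  · rw [lev_iff h]
  · have : ((ofG n F).cl (p, x) = (p', d')) ↔ ((ofG n1 F1).cl (r, x) = (r', d')) := by
      simp only [ofG]
      split_ifs <;> simp only [Prod.mk.injEq, hp]
    rw [this]

theorem mk_eq_iff (h : Same F F1 p p' r r') (q : ℕ) (t t' : Tg q) :
    (mk (Sum.inr (p, t)) : VG n q) = mk (Sum.inr (p', t')) ↔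
      (mk (Sum.inr (r, t)) : VG n1 q) = mk (Sum.inr (r', t')) := by
  rw [mk_bijective.1.eq_iff, mk_bijective.1.eq_iff]
  simp only [Sum.inr.injEq, Prod.mk.injEq, h.eq_iff]

theorem adj_iff (h : Same F F1 p p' r r') (q : ℕ) (t t' : Tg q) :
    ((ofG n F).GK q).Adj (mk (Sum.inr (p, t))) (mk (Sum.inr (p', t'))) ↔
      ((ofG n1 F1).GK q).Adj (mk (Sum.inr (r, t))) (mk (Sum.inr (r', t'))) := by
  simp only [Inst.GK, ne_eq]
  rw [E_iff h, E_iff h.swap, mk_eq_iff h]

theorem adj_const (q : ℕ) (c c' : C0 q) :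
    ((ofG n F).GK q).Adj (mk (Sum.inl c)) (mk (Sum.inl c')) ↔
      ((ofG n1 F1).GK q).Adj (mk (Sum.inl c)) (mk (Sum.inl c')) := by
  rcases c with a | a <;> rcases c' with a' | a' <;> simp [Inst.GK, mk, Inst.E]

theorem adj_mix (q : ℕ) (c : C0 q) (p : Fin n × Fin n) (r : Fin n1 × Fin n1) (t : Tg q) :
    ((ofG n F).GK q).Adj (mk (Sum.inl c)) (mk (Sum.inr (p, t))) ↔
      ((ofG n1 F1).GK q).Adj (mk (Sum.inl c)) (mk (Sum.inr (r, t))) := by
  rcases c with a | a <;>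
  rcases t with ((⟨c, b⟩ | x) | ⟨x, b, s⟩) | (x | (c | d)) <;>
  simp [Inst.GK, mk, Inst.E]

end

/-- the bits of two positions -/
def bits (F : ℕ → ℕ → Bool) (a b a' b' : ℕ) : Fin 10 → Bool
  | 0 => decide (a = a')
  | 1 => decide (b = b')
  | 2 => decide (a < a')
  | 3 => decide (b < a')
  | 4 => decide (b = a')
  | 5 => decide (a' < a)
  | 6 => decide (b' < a)
  | 7 => decide (b' = a)
  | 8 => F a b
  | 9 => F a' b'

theorem same_of_bits {F F1 : ℕ → ℕ → Bool} {n n1 : ℕ} {p p' : Fin n × Fin n}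
    {r r' : Fin n1 × Fin n1} (h : bits F p.1 p.2 p'.1 p'.2 = bits F1 r.1 r.2 r'.1 r'.2) :
    Same F F1 p p' r r' where
  h0 := by simpa [bits] using congrFun h 0
  h1 := by simpa [bits] using congrFun h 1
  h2 := by simpa [bits] using congrFun h 2
  h3 := by simpa [bits] using congrFun h 3
  h4 := by simpa [bits] using congrFun h 4
  h5 := by simpa [bits] using congrFun h 5
  h6 := by simpa [bits] using congrFun h 6
  h7 := by simpa [bits] using congrFun h 7
  h8 := by simpa [bits] using congrFun h 8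
  h9 := by simpa [bits] using congrFun h 9

/-- adjacency in terms of tags and bits -/
def adjF (q : ℕ) : C0 q ⊕ Tg q → C0 q ⊕ Tg q → (Fin 10 → Bool) → Prop
  | Sum.inl c, Sum.inl c', _ =>
    ((ofG 1 fun _ _ => false).GK q).Adj (mk (Sum.inl c)) (mk (Sum.inl c'))
  | Sum.inl c, Sum.inr t, _ =>
    ((ofG 1 fun _ _ => false).GK q).Adj (mk (Sum.inl c)) (mk (Sum.inr ((0, 0), t)))
  | Sum.inr t, Sum.inl c, _ =>
    ((ofG 1 fun _ _ => false).GK q).Adj (mk (Sum.inl c)) (mk (Sum.inr ((0, 0), t)))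
  | Sum.inr t, Sum.inr t', z => ∃ (n : ℕ) (F : ℕ → ℕ → Bool) (p p' : Fin n × Fin n),
    bits F p.1 p.2 p'.1 p'.2 = z ∧
      ((ofG n F).GK q).Adj (mk (Sum.inr (p, t))) (mk (Sum.inr (p', t')))

/-- the tag of an index -/
noncomputable def tagE (q : ℕ) (x : Fin (nC q) ⊕ Fin (nT q)) : C0 q ⊕ Tg q :=
  Sum.map (Fintype.equivFin (C0 q)).symm (Fintype.equivFin (Tg q)).symm x

theorem adj_num {q n : ℕ} (F : ℕ → ℕ → Bool)
    (w w' : Fin (nC q) ⊕ ((Fin n × Fin n) × Fin (nT q))) :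
    ((ofG n F).GK q).Adj (num n q (idx (nC q) (nT q) n w)) (num n q (idx (nC q) (nT q) n w')) ↔
      adjF q (tagE q (tagI w)) (tagE q (tagI w'))
        (bits F (iA (nC q) (nT q) n (idx (nC q) (nT q) n w))
          (iB (nC q) (nT q) n (idx (nC q) (nT q) n w))
          (iA (nC q) (nT q) n (idx (nC q) (nT q) n w'))
          (iB (nC q) (nT q) n (idx (nC q) (nT q) n w'))) := by
  have hnl : ∀ u : Fin (nC q), num n q (idx (nC q) (nT q) n (Sum.inl u)) =
      mk (Sum.inl ((Fintype.equivFin (C0 q)).symm u)) := by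
    intro u
    simp only [num, Equiv.trans_apply, Equiv.symm_apply_apply]
    rfl
  have hnr : ∀ (z : Fin n × Fin n) (t : Fin (nT q)),
      num n q (idx (nC q) (nT q) n (Sum.inr (z, t))) =
      mk (Sum.inr (z, (Fintype.equivFin (Tg q)).symm t)) := by
    intro z t
    simp only [num, Equiv.trans_apply, Equiv.symm_apply_apply]
    rfl
  rcases w with u | ⟨⟨a, b⟩, t⟩ <;> rcases w' with u' | ⟨⟨a', b'⟩, t'⟩
  · rw [hnl, hnl]
    exact adj_const q _ _
  · rw [hnl, hnr]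
    exact adj_mix q _ _ _ _
  · rw [hnl, hnr, SimpleGraph.adj_comm]
    exact adj_mix q _ _ _ _
  · rw [hnr, hnr, iA_inr, iB_inr, iA_inr, iB_inr]
    simp only [tagI, tagE, adjF]
    constructor
    · intro h
      exact ⟨n, F, (a, b), (a', b'), rfl, h⟩
    · rintro ⟨n1, F1, r, r', h1, h2⟩
      exact (adj_iff (same_of_bits h1) q _ _).1 h2

open Classical in
/-- the Boolean adjacency function of two tag numbers -/
noncomputable def adjK (q : ℕ) (k k' : ℕ) (z : Fin 10 → Bool) : Bool :=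
  match tagN (nC q) (nT q) k, tagN (nC q) (nT q) k' with
  | some x, some y => decide (adjF q (tagE q x) (tagE q y) z)
  | _, _ => false

/-- the adjacency function of the reduction -/
noncomputable def redF (q : ℕ) (g : Gr) (i j : ℕ) : Bool :=
  adjK q (iT (nC q) (nT q) i) (iT (nC q) (nT q) j)
    (bits (adjN g) (iA (nC q) (nT q) g.n i) (iB (nC q) (nT q) g.n i)
      (iA (nC q) (nT q) g.n j) (iB (nC q) (nT q) g.n j))

theorem adjN_red (q : ℕ) (g : Gr) (i j : ℕ) (hi : i < nC q + g.n * g.n * nT q)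
    (hj : j < nC q + g.n * g.n * nT q) : adjN (red q g) i j = redF q g i j := by
  obtain ⟨w, hw⟩ : ∃ w, idx (nC q) (nT q) g.n w = ⟨i, hi⟩ := ⟨_, Equiv.apply_symm_apply _ _⟩
  obtain ⟨w', hw'⟩ : ∃ w, idx (nC q) (nT q) g.n w = ⟨j, hj⟩ := ⟨_, Equiv.apply_symm_apply _ _⟩
  have hwi : i = (idx (nC q) (nT q) g.n w : ℕ) := by rw [hw]
  have hwj : j = (idx (nC q) (nT q) g.n w' : ℕ) := by rw [hw']
  rw [Bool.eq_iff_iff]
  have h1 := adjN_fin (red q g) ⟨i, hi⟩ ⟨j, hj⟩
  simp only at h1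
  rw [h1]
  have h2 := adj_num (q := q) (adjN g) w w'
  rw [hw, hw'] at h2
  refine Iff.trans ?_ (h2.trans ?_)
  · exact Iff.rfl
  · have e1 : tagN (nC q) (nT q) (iT (nC q) (nT q) i) = some (tagI w) := by
      rw [hwi, tagN_idx]
    have e2 : tagN (nC q) (nT q) (iT (nC q) (nT q) j) = some (tagI w') := by
      rw [hwj, tagN_idx]
    unfold redF adjK
    rw [e1, e2]
    simp only [decide_eq_true_eq]

/-- the adjacency function of the reduction is computable in polynomial time -/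
theorem poly_redF (q : ℕ) {α : Type} {D : α → Prop}
    {ctx : List (α → List Bool)} {g : α → Gr} {i j : α → ℕ}
    (hn : PolyN D ctx (fun a => (g a).n))
    (hr : PolyC D ctx (fun a => (List.range ((g a).n * (g a).n)).map
      (fun k => adjN (g a) (k / (g a).n) (k % (g a).n))))
    (hi : PolyN D ctx i) (hj : PolyN D ctx j)
    (hi' : ∀ a, D a → i a < nC q + (g a).n * (g a).n * nT q)
    (hj' : ∀ a, D a → j a < nC q + (g a).n * (g a).n * nT q) :
    PolyB D ctx (fun a => redF q (g a) (i a) (j a)) := by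
  have hAi := poly_iA (c0 := nC q) (R := nT q) hi hn
  have hBi := poly_iB (c0 := nC q) (R := nT q) hi hn
  have hAj := poly_iA (c0 := nC q) (R := nT q) hj hn
  have hBj := poly_iB (c0 := nC q) (R := nT q) hj hn
  -- the matrix entries
  have hent : ∀ {u v : α → ℕ}, PolyN D ctx u → PolyN D ctx v →
      PolyB D ctx (fun a => (decide (v a < (g a).n)) && adjN (g a) (u a) (v a)) := by
    intro u v hu hv
    refine ((PolyB.lt hv hn).and (PolyB.getD hr ((hu.mul hn).add hv))).congr (fun a _ => ?_)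
    by_cases h : v a < (g a).n
    · rw [adjN_getD _ _ _ h]
    · simp [h]
  have hent' : ∀ {u v : α → ℕ}, PolyN D ctx u → PolyN D ctx v →
      PolyB D ctx (fun a => adjN (g a) (u a) (v a)) := by
    intro u v hu hv
    refine (hent hu hv).congr (fun a _ => ?_)
    by_cases h : v a < (g a).n
    · simp [h]
    · simp [h, adjN]
  have hbits : ∀ k : Fin 10, PolyB D ctx (fun a => bits (adjN (g a))
      (iA (nC q) (nT q) (g a).n (i a)) (iB (nC q) (nT q) (g a).n (i a))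
      (iA (nC q) (nT q) (g a).n (j a)) (iB (nC q) (nT q) (g a).n (j a)) k) := by
    intro k
    fin_cases k
    · exact PolyB.natEq hAi hAj
    · exact PolyB.natEq hBi hBj
    · exact PolyB.lt hAi hAj
    · exact PolyB.lt hBi hAj
    · exact PolyB.natEq hBi hAj
    · exact PolyB.lt hAj hAi
    · exact PolyB.lt hBj hAi
    · exact PolyB.natEq hBj hAi
    · exact hent' hAi hBi
    · exact hent' hAj hBj
  have hlt : ∀ {u : α → ℕ}, (∀ a, D a → u a < nC q + (g a).n * (g a).n * nT q) →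
      ∀ a, D a → iT (nC q) (nT q) (u a) < nC q + nT q := by
    intro u hu a ha
    have h1 := hu a ha
    unfold iT
    split_ifs with h
    · simp only [decide_eq_true_eq] at h
      omega
    · simp only [decide_eq_true_eq] at h
      have hR : 0 < nT q := by
        rcases Nat.eq_zero_or_pos (nT q) with h0 | h0
        · rw [h0] at h1; omega
        · exact h0
      have := Nat.mod_lt (u a - nC q) hR
      omega
  unfold redF
  refine bCases (poly_iT hi) (fun k a => adjK q k (iT (nC q) (nT q) (j a))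
    (bits (adjN (g a)) (iA (nC q) (nT q) (g a).n (i a)) (iB (nC q) (nT q) (g a).n (i a))
      (iA (nC q) (nT q) (g a).n (j a)) (iB (nC q) (nT q) (g a).n (j a)))) (nC q + nT q) ?_
    (hlt hi')
  intro k _
  refine bCases (poly_iT hj) (fun k' a => adjK q k k'
    (bits (adjN (g a)) (iA (nC q) (nT q) (g a).n (i a)) (iB (nC q) (nT q) (g a).n (i a))
      (iA (nC q) (nT q) (g a).n (j a)) (iB (nC q) (nT q) (g a).n (j a)))) (nC q + nT q) ?_
    (hlt hj')
  intro k' _
  exact bFun (adjK q k k') hbits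

end PolyAux

open PolyAux

theorem poly_red (q : ℕ) :
    PolyC (fun _ : Gr => True) [Gr.encode] (fun g => (red q g).encode) := by
  have hn : PolyN (fun _ : Gr => True) [Gr.encode] (fun g => g.n) := poly_n
  have hM : PolyN (fun _ : Gr => True) [Gr.encode] (fun g => nC q + g.n * g.n * nT q) :=
    (PolyN.const (nC q)).add ((hn.mul hn).mul (PolyN.const (nT q)))
  have hMM := hM.mul hM
  have hN := upN (n := fun g : Gr => (nC q + g.n * g.n * nT q) * (nC q + g.n * g.n * nT q)) hn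
  have hMu := upN (n := fun g : Gr => (nC q + g.n * g.n * nT q) * (nC q + g.n * g.n * nT q)) hM
  have hr := up (n := fun g : Gr => (nC q + g.n * g.n * nT q) * (nC q + g.n * g.n * nT q))
    (poly_rest (D := fun _ : Gr => True))
  have hL := last (D := fun _ : Gr => True) (ctx := [Gr.encode])
    (n := fun g : Gr => (nC q + g.n * g.n * nT q) * (nC q + g.n * g.n * nT q))
  have hpos : ∀ p : Gr × ℕ,
      True ∧ p.2 < (nC q + p.1.n * p.1.n * nT q) * (nC q + p.1.n * p.1.n * nT q) →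
      0 < nC q + p.1.n * p.1.n * nT q := by
    rintro p ⟨-, h⟩
    rcases Nat.eq_zero_or_pos (nC q + p.1.n * p.1.n * nT q) with h0 | h0
    · rw [h0] at h; omega
    · exact h0
  have h1 := poly_redF q (g := fun p : Gr × ℕ => p.1)
    (i := fun p => p.2 / (nC q + p.1.n * p.1.n * nT q))
    (j := fun p => p.2 % (nC q + p.1.n * p.1.n * nT q))
    hN hr (nDiv' hL hMu) (nMod' hL hMu)
    (fun p hp => (Nat.div_lt_iff_lt_mul (hpos p hp)).2 hp.2)
    (fun p hp => Nat.mod_lt _ (hpos p hp))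
  have h2 := PolyC.map_range hMM h1
  have h3 := PolyC.append hM (PolyC.cons false h2)
  refine h3.congr (fun g _ => ?_)
  rw [encode_eq]
  change _ = un (nC q + g.n * g.n * nT q) ++ false :: _
  congr 2
  refine List.map_congr_left ?_
  intro k hk
  rw [List.mem_range] at hk
  have hp := hpos (g, k) ⟨trivial, hk⟩
  exact (adjN_red q g _ _ ((Nat.div_lt_iff_lt_mul hp).2 hk) (Nat.mod_lt _ hp)).symm

end Pool.Agent.Lib.P74a0dc
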